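import Pool.Agent.P.MP_9ec3f0_nt.Exc.Defs

/-
Exceptional set in the abc conjecture: elementary lemmas on boxes.
-/

namespace Pool.Agent.P.MP_9ec3f0_nt.Exc

open Finset

theorem Good.mono {D : ℕ} {c : Box D} {S T : Finset (Ix D → ℕ)} (h : Good c S) (hT : T ⊆ S) :
    Good c T :=
  ⟨fun x hx => h.lo x (hT hx), fun x hx => h.hi x (hT hx), fun x hx => h.tlo x (hT hx),
    fun x hx => h.thi x (hT hx), h.sgn, fun x hx => h.eqn x (hT hx), fun x hx => h.cop x (hT hx),
    fun x hx y hy => h.close x (hT hx) y (hT hy)⟩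

theorem Tau.one_le {L τ : ℕ} (h : Tau L τ) : 1 ≤ τ := by
  simpa using h 1 Nat.one_le_two_pow

theorem Good.sub_lo {D : ℕ} {c : Box D} {S : Finset (Ix D → ℕ)} (h : Good c S) {x : Ix D → ℕ}
    (hx : x ∈ S) (F : Finset (Ix D)) : 2 ^ c.wt F ≤ sub x F := by
  rw [Box.wt, sub, ← prod_pow_eq_pow_sum]
  refine prod_le_prod' fun j _ => ?_
  rw [mul_comm, pow_mul]
  exact Nat.pow_le_pow_left (h.lo x hx j) _

theorem Good.pos {D : ℕ} {c : Box D} {S : Finset (Ix D → ℕ)} (h : Good c S) {x : Ix D → ℕ}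
    (hx : x ∈ S) (F : Finset (Ix D)) : 0 < sub x F :=
  lt_of_lt_of_le (by positivity) (h.sub_lo hx F)

theorem Good.sub_hi {D : ℕ} {c : Box D} {S : Finset (Ix D → ℕ)} (h : Good c S) {x : Ix D → ℕ}
    (hx : x ∈ S) (F : Finset (Ix D)) : sub x F ≤ 2 ^ (c.wt F + D * F.card) := by
  have e : c.wt F + D * F.card = ∑ j ∈ F, ((j.2.val + 1) * c.e j + D) := by
    rw [sum_add_distrib, sum_const, smul_eq_mul, mul_comm D, Box.wt]
  rw [e, sub, ← prod_pow_eq_pow_sum]
  refine prod_le_prod' fun j _ => ?_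
  have h1 : x j ^ (j.2.val + 1) ≤ (2 ^ (c.e j + 1)) ^ (j.2.val + 1) :=
    Nat.pow_le_pow_left (h.hi x hx j).le _
  refine h1.trans ?_
  rw [← pow_mul]
  refine Nat.pow_le_pow_right (by norm_num) ?_
  have := j.2.isLt
  nlinarith

theorem card_tm (D : ℕ) (t : Fin 3) : (tm D t).card = D := by
  have : tm D t = ({t} : Finset (Fin 3)) ×ˢ (univ : Finset (Fin D)) := by
    ext j
    simp only [tm, mem_filter, mem_univ, true_and, mem_product, mem_singleton, and_true]
  rw [this, card_product]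
  simp

theorem Good.eqn3 {D : ℕ} {c : Box D} {S : Finset (Ix D → ℕ)} (h : Good c S) {x : Ix D → ℕ}
    (hx : x ∈ S) {t u v : Fin 3} (htu : t ≠ u) (htv : t ≠ v) (huv : u ≠ v) :
    c.σ t * (term x t : ℤ) + c.σ u * (term x u : ℤ) + c.σ v * (term x v : ℤ) = 0 := by
  have h1 := h.eqn x hx
  have h2 : (univ : Finset (Fin 3)) = {t, u, v} := by
    revert t u v
    decide
  rw [h2, sum_insert (by simp [htu, htv]), sum_pair huv] at h1
  linarith

theorem Good.term_lt {D : ℕ} {c : Box D} {S : Finset (Ix D → ℕ)} (h : Good c S) {x : Ix D → ℕ}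
    (hx : x ∈ S) (t : Fin 3) : term x t < 2 ^ (c.L + 1) :=
  lt_of_le_of_lt (Nat.le_mul_of_pos_left _ (by positivity)) (h.thi x hx t)

theorem Good.wt_le {D : ℕ} {c : Box D} {S : Finset (Ix D → ℕ)} (h : Good c S) (hS : S.Nonempty)
    (t : Fin 3) : c.wt (tm D t) ≤ c.L := by
  obtain ⟨x, hx⟩ := hS
  have h1 : 2 ^ c.wt (tm D t) < 2 ^ (c.L + 1) := (h.sub_lo hx _).trans_lt (h.term_lt hx t)
  have := (Nat.pow_lt_pow_iff_right (by norm_num : 1 < 2)).1 h1
  omega

theorem Good.modw_wt {D : ℕ} {c : Box D} {S : Finset (Ix D → ℕ)} (h : Good c S) (t : Fin 3)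
    (I : Finset (Ix D)) : Modw c S t I (c.wt I) := by
  intro x hx
  rw [Real.rpow_natCast]
  have h1 : ((2 : ℝ)) ^ c.wt I ≤ sub x I := by exact_mod_cast h.sub_lo hx I
  have h2 : (1 : ℝ) ≤ 2 ^ (D ^ 2) * 2 ^ c.p t :=
    one_le_mul_of_one_le_of_one_le (one_le_pow₀ (by norm_num)) (one_le_pow₀ (by norm_num))
  exact h1.trans (le_mul_of_one_le_left (by positivity) h2)

theorem Good.modw_pad {D : ℕ} {c : Box D} {S : Finset (Ix D → ℕ)} (h : Good c S) (t : Fin 3)
    (I : Finset (Ix D)) (hI : I ⊆ tm D t) :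
    Modw c S t I ((c.L : ℝ) - c.wt (tm D t \ I)) := by
  intro x hx
  rw [Real.rpow_sub (by norm_num), Real.rpow_natCast, Real.rpow_natCast,
    div_le_iff₀ (by positivity)]
  have h1 : term x t = sub x (tm D t \ I) * sub x I := (prod_sdiff hI).symm
  have h2 := h.tlo x hx t
  have h3 := h.sub_hi hx (tm D t \ I)
  have h4 : (tm D t \ I).card ≤ D := (card_le_card sdiff_subset).trans (card_tm D t).le
  have h5 : 2 ^ (c.wt (tm D t \ I) + D * (tm D t \ I).card) ≤ 2 ^ c.wt (tm D t \ I) * 2 ^ (D ^ 2) := by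
    rw [← pow_add]
    refine Nat.pow_le_pow_right (by norm_num) ?_
    nlinarith
  have h6 : 2 ^ c.L ≤ 2 ^ (D ^ 2) * 2 ^ c.p t * sub x I * 2 ^ c.wt (tm D t \ I) := by
    calc 2 ^ c.L ≤ 2 ^ c.p t * (sub x (tm D t \ I) * sub x I) := by rwa [← h1]
      _ ≤ 2 ^ c.p t * ((2 ^ c.wt (tm D t \ I) * 2 ^ (D ^ 2)) * sub x I) := by
          gcongr
          exact h3.trans h5
      _ = _ := by ring
  exact_mod_cast h6

/-- Projection to the coordinates in `F`. -/
theorem Good.proj {D : ℕ} {c : Box D} {S : Finset (Ix D → ℕ)} (h : Good c S)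
    (F : Finset (Ix D)) (M : ℝ) (hM : 0 ≤ M)
    (hF : ∀ x ∈ S, ((S.filter (fun y => ∀ j ∈ F, y j = x j)).card : ℝ) ≤ M) :
    (S.card : ℝ) ≤ 2 ^ c.mass F * M := by
  let g : (Ix D → ℕ) → (Ix D → ℕ) := fun x j => if j ∈ F then x j else 0
  let P : Finset (Ix D → ℕ) := Fintype.piFinset fun j =>
    if j ∈ F then Ico (2 ^ c.e j) (2 ^ (c.e j + 1)) else {0}
  have hP : P.card = 2 ^ c.mass F := by
    rw [Fintype.card_piFinset, Box.mass, ← prod_pow_eq_pow_sum]
    have : ∀ j, (if j ∈ F then Ico (2 ^ c.e j) (2 ^ (c.e j + 1)) else {0}).card =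
        if j ∈ F then 2 ^ c.e j else 1 := by
      intro j
      split_ifs
      · rw [Nat.card_Ico, pow_succ]; omega
      · simp
    simp only [this]
    rw [prod_ite_mem, univ_inter]
  have hg : ∀ x ∈ S, g x ∈ P := by
    intro x hx
    refine Fintype.mem_piFinset.2 fun j => ?_
    simp only [g]
    split_ifs
    · exact mem_Ico.2 ⟨h.lo x hx j, h.hi x hx j⟩
    · simp
  rw [card_eq_sum_card_fiberwise (f := g) (t := P) hg]
  push_cast
  have : ∀ z ∈ P, ((S.filter fun x => g x = z).card : ℝ) ≤ M := by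
    intro z _
    rcases (S.filter fun x => g x = z).eq_empty_or_nonempty with h0 | ⟨x, hx0⟩
    · rw [h0]; simpa using hM
    · obtain ⟨hx, hxz⟩ := mem_filter.1 hx0
      clear hx0
      subst hxz
      refine le_trans ?_ (hF x hx)
      refine Nat.cast_le.2 (card_le_card fun y hy => ?_)
      obtain ⟨hy, hyx⟩ := mem_filter.1 hy
      refine mem_filter.2 ⟨hy, fun j hj => ?_⟩
      simpa [g, hj] using congrFun hyx j
  refine (sum_le_card_nsmul _ _ _ this).trans ?_
  rw [hP, nsmul_eq_mul]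
  push_cast
  rfl

/-- A map that determines two of the terms has fibres of size at most `τ ^ (3 D)`. -/
theorem Good.recover {D : ℕ} {c : Box D} {S : Finset (Ix D → ℕ)} (h : Good c S) {τ : ℕ}
    (hτ : Tau c.L τ) {u v : Fin 3} (huv : u ≠ v) {β : Type} (P : Finset β) (f : (Ix D → ℕ) → β)
    (hf : ∀ x ∈ S, f x ∈ P)
    (hd : ∀ x ∈ S, ∀ y ∈ S, f x = f y → term x u = term y u ∧ term x v = term y v) :
    S.card ≤ τ ^ (3 * D) * P.card := by
  classical
  refine card_le_mul_card_image_of_maps_to hf _ fun b _ => ?_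
  rcases (S.filter fun x => f x = b).eq_empty_or_nonempty with h0 | ⟨x, hx0⟩
  · rw [h0]; simp
  obtain ⟨hx, hxz⟩ := mem_filter.1 hx0
  clear hx0
  subst hxz
  obtain ⟨t, htu, htv, hall⟩ : ∃ t : Fin 3, t ≠ u ∧ t ≠ v ∧ ∀ w, w = t ∨ w = u ∨ w = v := by
    clear hd
    revert u v
    decide
  have hsub : (S.filter fun y => f y = f x) ⊆
      Fintype.piFinset fun j : Ix D => (term x j.1).divisors := by
    intro y hy
    obtain ⟨hy, hyx⟩ := mem_filter.1 hy
    obtain ⟨h1, h2⟩ := hd y hy x hx hyx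
    have h3 : term y t = term x t := by
      have e1 := h.eqn3 hx htu htv huv
      have e2 := h.eqn3 hy htu htv huv
      rw [h1, h2] at e2
      have : (term y t : ℤ) = term x t := by
        rcases h.sgn t with e | e <;> rw [e] at e1 e2 <;> linarith
      exact_mod_cast this
    have h4 : ∀ w, term y w = term x w := by
      intro w
      rcases hall w with rfl | rfl | rfl <;> assumption
    refine Fintype.mem_piFinset.2 fun j => Nat.mem_divisors.2 ⟨?_, (h.pos hx _).ne'⟩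
    rw [← h4]
    exact (dvd_pow_self _ (Nat.succ_ne_zero _)).trans
      (dvd_prod_of_mem (fun j : Ix D => y j ^ (j.2.val + 1))
        (show j ∈ tm D j.1 from mem_filter.2 ⟨mem_univ _, rfl⟩))
  refine (card_le_card hsub).trans ?_
  rw [Fintype.card_piFinset]
  have : ∀ j ∈ (univ : Finset (Ix D)), (term x j.1).divisors.card ≤ τ := fun j _ =>
    hτ _ ((h.term_lt hx _).le.trans (Nat.pow_le_pow_right (by norm_num) (by omega)))
  refine (prod_le_pow_card _ _ _ this).trans ?_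
  simp

/-- Permuting the three terms. -/
theorem Good.perm {D : ℕ} {c : Box D} {S : Finset (Ix D → ℕ)} (h : Good c S)
    (π : Equiv.Perm (Fin 3)) :
    ∃ S' : Finset (Ix D → ℕ), S'.card = S.card ∧
      Good ⟨fun j => c.e (π j.1, j.2), fun t => c.p (π t), c.L, fun t => c.σ (π t)⟩ S' := by
  let g : (Ix D → ℕ) → (Ix D → ℕ) := fun x j => x (π j.1, j.2)
  have hg : Function.Injective g := by
    intro x y hxy
    funext j
    simpa [g] using congrFun hxy (π.symm j.1, j.2)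
  have ht : ∀ x t, term (g x) t = term x (π t) := by
    intro x t
    unfold term sub
    refine prod_bijective (fun j : Ix D => ((π j.1, j.2) : Ix D))
      (Equiv.prodCongr π (Equiv.refl _)).bijective ?_ fun j _ => rfl
    intro j
    simp [tm]
  refine ⟨S.image g, card_image_of_injective _ hg, ?_, ?_, ?_, ?_, fun t => h.sgn _, ?_, ?_, ?_⟩
  · intro x' hx' j
    obtain ⟨x, hx, rfl⟩ := mem_image.1 hx'
    exact h.lo x hx _
  · intro x' hx' j
    obtain ⟨x, hx, rfl⟩ := mem_image.1 hx'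
    exact h.hi x hx _
  · intro x' hx' t
    obtain ⟨x, hx, rfl⟩ := mem_image.1 hx'
    rw [ht]
    exact h.tlo x hx _
  · intro x' hx' t
    obtain ⟨x, hx, rfl⟩ := mem_image.1 hx'
    rw [ht]
    exact h.thi x hx _
  · intro x' hx'
    obtain ⟨x, hx, rfl⟩ := mem_image.1 hx'
    simp only [ht]
    rw [Equiv.sum_comp π (fun t => c.σ t * (term x t : ℤ))]
    exact h.eqn x hx
  · intro x' hx' t u htu
    obtain ⟨x, hx, rfl⟩ := mem_image.1 hx'
    rw [ht, ht]
    exact h.cop x hx _ _ (π.injective.ne htu)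
  · intro x' hx' y' hy' t u v h1 h2 h3
    obtain ⟨x, hx, rfl⟩ := mem_image.1 hx'
    obtain ⟨y, hy, rfl⟩ := mem_image.1 hy'
    simp only [ht]
    exact h.close x hx y hy _ _ _ (π.injective.ne h1) (π.injective.ne h2) (π.injective.ne h3)

end Pool.Agent.P.MP_9ec3f0_nt.Exc
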