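import Mathlib

namespace Pool.Agent.P.MP_9ec3f0_nt.Exc

open Finset

private lemma rt_cyclic (G : Type) [Group G] [Finite G] [IsCyclic G] {k : ℕ} (hk : 1 ≤ k) :
    Nat.card {z : G // z ^ k = 1} ≤ k := by
  classical
  have := Fintype.ofFinite G
  rw [Nat.card_eq_fintype_card, Fintype.card_subtype]
  exact IsCyclic.card_pow_eq_one_le hk

private lemma rt_index (G : Type) [CommGroup G] [Finite G] (g : G) {k : ℕ} (hk : 1 ≤ k) :
    Nat.card {z : G // z ^ k = 1} ≤ k * (Subgroup.zpowers g).index := by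
  set C := Subgroup.zpowers g with hC
  set H : Subgroup G := (powMonoidHom k : G →* G).ker with hH
  have e : Nat.card {z : G // z ^ k = 1} = Nat.card H := rfl
  have h1 := (C.subgroupOf H).card_mul_index
  have h2 : (C.subgroupOf H).index ≤ C.index :=
    Nat.le_of_dvd (Nat.pos_of_ne_zero Subgroup.index_ne_zero_of_finite)
      (Subgroup.relIndex_dvd_index_of_normal C H)
  have h3 : Nat.card (C.subgroupOf H) ≤ Nat.card {z : C // z ^ k = 1} := by
    refine Nat.card_le_card_of_injective
      (fun z => ⟨⟨z.1.1, z.2⟩, Subtype.ext z.1.2⟩) ?_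
    intro z w h
    exact Subtype.ext (Subtype.ext (congrArg (fun t => t.1.1) h))
  have h4 := rt_cyclic C hk
  rw [e, ← h1]
  exact Nat.mul_le_mul (h3.trans h4) h2

private lemma rt_two_mul {k : ℕ} (hk : 1 ≤ k) : k * 2 ≤ 2 ^ k := by
  obtain ⟨j, rfl⟩ : ∃ j, k = j + 1 := ⟨k - 1, by omega⟩
  have := Nat.lt_two_pow_self (n := j)
  rw [pow_succ]; omega

private lemma rt_prime_pow (p n k : ℕ) (hp : p.Prime) (hk : 1 ≤ k) :
    Nat.card {z : (ZMod (p ^ n))ˣ // z ^ k = 1} ≤ k * 2 := by
  have : NeZero (p ^ n) := ⟨pow_ne_zero _ hp.ne_zero⟩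
  by_cases h2 : p = 2
  · subst h2
    by_cases hn : n ≤ 2
    · have := (ZMod.isCyclic_units_two_pow_iff n).2 hn
      have := rt_cyclic (ZMod (2 ^ n))ˣ hk
      omega
    · obtain ⟨m, rfl⟩ : ∃ m, n = m + 2 := ⟨n - 2, by omega⟩
      let five : (ZMod (2 ^ (m + 2)))ˣ :=
        ZMod.unitOfCoprime 5 (Nat.Coprime.pow_right _ (by norm_num))
      have h5 : orderOf five = 2 ^ m := by
        rw [← ZMod.orderOf_five m, ← orderOf_units]; rfl
      have hc : Nat.card (ZMod (2 ^ (m + 2)))ˣ = 2 ^ m * 2 := by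
        rw [Nat.card_eq_fintype_card, ZMod.card_units_eq_totient,
          Nat.totient_prime_pow Nat.prime_two (by omega)]
        simp [pow_succ]
      have h1 := (Subgroup.zpowers five).card_mul_index
      rw [Nat.card_zpowers, h5, hc] at h1
      have h3 := Nat.eq_of_mul_eq_mul_left (by positivity) h1
      have := rt_index _ five hk
      rwa [h3] at this
  · have := ZMod.isCyclic_units_of_prime_pow p hp h2 n
    have := rt_cyclic (ZMod (p ^ n))ˣ hk
    omega

private lemma rt_main (k : ℕ) (hk : 1 ≤ k) (α : ℕ) :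
    α ≠ 0 → Nat.card {z : (ZMod α)ˣ // z ^ k = 1} ≤ α.divisors.card ^ k := by
  induction α using Nat.recOnPosPrimePosCoprime with
  | prime_pow p n hp hn =>
    intro _
    refine (rt_prime_pow p n k hp hk).trans ((rt_two_mul hk).trans ?_)
    apply Nat.pow_le_pow_left
    rw [Nat.divisors_prime_pow hp, card_map, card_range]; omega
  | zero => intro h; exact (h rfl).elim
  | one =>
    intro _
    have : Subsingleton {z : (ZMod 1)ˣ // z ^ k = 1} := inferInstance
    simpa using Finite.card_le_one_iff_subsingleton.2 this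
  | coprime a b ha hb hab iha ihb =>
    intro _
    have : NeZero a := ⟨by omega⟩
    have : NeZero b := ⟨by omega⟩
    rw [hab.card_divisors_mul, mul_pow]
    refine le_trans ?_ (Nat.mul_le_mul (iha (by omega)) (ihb (by omega)))
    rw [← Nat.card_prod]
    let e : (ZMod (a * b))ˣ ≃* (ZMod a)ˣ × (ZMod b)ˣ :=
      (Units.mapEquiv (ZMod.chineseRemainder hab).toMulEquiv).trans MulEquiv.prodUnits
    have he : ∀ z : (ZMod (a * b))ˣ, z ^ k = 1 → (e z) ^ k = 1 := fun z hz => by
      rw [← map_pow, hz, map_one]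
    refine Nat.card_le_card_of_injective
      (fun z => (⟨(e z.1).1, congrArg Prod.fst (he z.1 z.2)⟩,
        ⟨(e z.1).2, congrArg Prod.snd (he z.1 z.2)⟩)) ?_
    intro z w h
    apply Subtype.ext
    apply e.injective
    exact Prod.ext (congrArg (fun t => t.1.1) h) (congrArg (fun t => t.2.1) h)

theorem roots_le (α k : ℕ) [NeZero α] (hk : 1 ≤ k) :
    (univ.filter (fun z : (ZMod α)ˣ => z ^ k = 1)).card ≤ α.divisors.card ^ k := by
  have := rt_main k hk α (NeZero.ne α)
  rwa [Nat.card_eq_fintype_card, Fintype.card_subtype] at this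

private lemma rt_poly (m : ℕ) : ∃ C : ℕ, 1 ≤ C ∧ ∀ e : ℕ, (e + 1) ^ m ≤ C * 2 ^ e := by
  refine ⟨2 * m.factorial * 2 ^ m * 2 ^ m, by
    have := m.factorial_pos
    exact Nat.succ_le_of_lt (by positivity), fun e => ?_⟩
  have h1 : (e + 1) ^ m ≤ (e + m).descFactorial m := by
    have := Nat.pow_sub_le_descFactorial (e + m) m
    rwa [show e + m + 1 - m = e + 1 by omega] at this
  have h2 : (e + m).choose m ≤ 2 ^ (e + m) := Nat.choose_le_two_pow _ _
  rw [Nat.descFactorial_eq_factorial_mul_choose] at h1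
  calc (e + 1) ^ m ≤ m.factorial * 2 ^ (e + m) := h1.trans (Nat.mul_le_mul_left _ h2)
    _ = 1 * m.factorial * 2 ^ m * 1 * 2 ^ e := by ring
    _ ≤ _ := by gcongr; exacts [by norm_num, Nat.one_le_two_pow]

theorem tau_bound (m : ℕ) : ∃ C : ℕ, ∀ n : ℕ, n ≠ 0 → n.divisors.card ^ m ≤ C * n := by
  obtain ⟨C, hC1, hC⟩ := rt_poly m
  have key : ∀ n : ℕ, n ≠ 0 →
      n.divisors.card ^ m ≤ C ^ (n.primeFactors.filter (· < 2 ^ m)).card * n := by
    intro n
    induction n using Nat.recOnPosPrimePosCoprime with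
    | prime_pow p e hp he =>
      intro _
      rw [Nat.divisors_prime_pow hp, card_map, card_range, Nat.primeFactors_prime_pow he.ne' hp,
        filter_singleton]
      split_ifs with h
      · rw [card_singleton, pow_one]
        exact (hC e).trans (Nat.mul_le_mul_left _ (Nat.pow_le_pow_left hp.two_le _))
      · rw [card_empty, pow_zero, one_mul]
        calc (e + 1) ^ m ≤ (2 ^ e) ^ m := Nat.pow_le_pow_left Nat.lt_two_pow_self _
          _ = (2 ^ m) ^ e := by rw [← pow_mul, ← pow_mul, mul_comm]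
          _ ≤ p ^ e := Nat.pow_le_pow_left (by omega) _
    | zero => intro h; exact (h rfl).elim
    | one => intro _; simp
    | coprime a b ha hb hab iha ihb =>
      intro _
      rw [hab.card_divisors_mul, mul_pow, hab.primeFactors_mul, filter_union,
        card_union_of_disjoint (disjoint_filter_filter hab.disjoint_primeFactors), pow_add]
      calc _ ≤ _ := Nat.mul_le_mul (iha (by omega)) (ihb (by omega))
        _ = _ := by ring
  refine ⟨C ^ 2 ^ m, fun n hn => (key n hn).trans (Nat.mul_le_mul_right _ ?_)⟩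
  apply Nat.pow_le_pow_right hC1
  calc _ ≤ (range (2 ^ m)).card :=
        card_le_card fun p hp => mem_range.2 (mem_filter.1 hp).2
    _ = _ := card_range _

end Pool.Agent.P.MP_9ec3f0_nt.Exc
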