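import Pool.Agent.P.MP_9ec3f0_nt.Exc.Defs
import Pool.Agent.P.MP_9ec3f0_nt.Exc.Roots

namespace Pool.Agent.P.MP_9ec3f0_nt.Exc

open Finset

theorem cnt_prod_ite (D k : ℕ) (f : ℕ → ℕ) (h0 : f 0 = 1) (hk : k ≤ D) :
    ∏ i : Fin D, (if i.val + 1 = k then f (i.val + 1) else 1) = f k := by
  rcases Nat.eq_zero_or_pos k with rfl | hpos
  · simp [h0]
  · rw [Finset.prod_eq_single (⟨k - 1, by omega⟩ : Fin D)]
    · have : k - 1 + 1 = k := by omega
      simp [this]
    · intro b _ hb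
      rw [if_neg]
      intro e
      apply hb
      ext
      simp only
      omega
    · simp

theorem exists_decomp (D n : ℕ) (hD : 1 ≤ D) (hn : n ≠ 0) :
    ∃ y : Fin D → ℕ, (∀ i, 0 < y i) ∧ ∏ i, y i ^ (i.val + 1) = n ∧
      (∏ i, y i) ^ D ≤ (∏ p ∈ n.primeFactors, p) ^ D * n := by
  induction n using Nat.recOnPosPrimePosCoprime with
  | zero => exact absurd rfl hn
  | one => exact ⟨fun _ => 1, by simp, by simp, by simp⟩
  | prime_pow p e hp he =>
    have hp0 := hp.pos
    refine ⟨fun i => (if i.val + 1 = e % D then p else 1) *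
      (if i.val + 1 = D then p ^ (e / D) else 1), ?_, ?_, ?_⟩
    · intro i
      apply mul_pos <;> split_ifs <;> positivity
    · simp only [mul_pow, prod_mul_distrib, ite_pow, one_pow]
      rw [cnt_prod_ite D (e % D) (fun k => p ^ k) (by simp) (Nat.mod_lt _ hD).le,
        cnt_prod_ite D D (fun k => (p ^ (e / D)) ^ k) (by simp) le_rfl, ← pow_mul, ← pow_add,
        mul_comm, Nat.mod_add_div]
    · rw [prod_mul_distrib, Nat.primeFactors_prime_pow he.ne' hp, prod_singleton, mul_pow]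
      have h1 := cnt_prod_ite D (e % D) (fun k => if k = 0 then 1 else p) (by simp)
        (Nat.mod_lt _ hD).le
      have h2 := cnt_prod_ite D D (fun k => if k = 0 then 1 else p ^ (e / D)) (by simp) le_rfl
      simp only [Nat.add_eq_zero_iff, one_ne_zero, and_false, if_false] at h1 h2
      rw [h1, h2, if_neg (by omega : D ≠ 0)]
      apply Nat.mul_le_mul
      · apply Nat.pow_le_pow_left
        split_ifs
        · exact hp0
        · exact le_rfl
      · rw [← pow_mul]
        exact Nat.pow_le_pow_right hp0 (Nat.div_mul_le_self _ _)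
  | coprime a b ha hb hab iha ihb =>
    obtain ⟨y, hy0, hy1, hy2⟩ := iha (by omega)
    obtain ⟨z, hz0, hz1, hz2⟩ := ihb (by omega)
    refine ⟨fun i => y i * z i, fun i => mul_pos (hy0 i) (hz0 i), ?_, ?_⟩
    · simp only [mul_pow, prod_mul_distrib, hy1, hz1]
    · rw [prod_mul_distrib, hab.primeFactors_mul, prod_union hab.disjoint_primeFactors, mul_pow,
        mul_pow]
      calc _ ≤ ((∏ p ∈ a.primeFactors, p) ^ D * a) * ((∏ p ∈ b.primeFactors, p) ^ D * b) :=
            Nat.mul_le_mul hy2 hz2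
        _ = _ := by ring

theorem cnt_prod_tm {D : ℕ} (t : Fin 3) (f : Ix D → ℕ) :
    ∏ j ∈ tm D t, f j = ∏ i, f (t, i) := by
  symm
  apply prod_bij (fun i _ => (t, i))
  · intro i _; simp [tm]
  · intro i _ j _ h; simpa using h
  · rintro ⟨u, i⟩ h
    simp only [tm, mem_filter, mem_univ, true_and] at h
    subst h
    exact ⟨i, mem_univ _, rfl⟩
  · intro i _; rfl

theorem cnt_poly (k : ℕ) (ε : ℝ) (hε : 0 < ε) :
    ∃ C : ℝ, 0 ≤ C ∧ ∀ N : ℕ, ((N : ℝ) + 1) ^ k ≤ C * (2 : ℝ) ^ (ε * N) := by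
  have hl : 0 < Real.log 2 := Real.log_pos (by norm_num)
  set η := ε * Real.log 2 / (k + 1) with hη
  have hη0 : 0 < η := by positivity
  have hm : 0 < min 1 η := lt_min one_pos hη0
  refine ⟨(1 / min 1 η) ^ k, by positivity, fun N => ?_⟩
  have hN : (0 : ℝ) ≤ N := Nat.cast_nonneg N
  have h1 : (N : ℝ) + 1 ≤ 1 / min 1 η * Real.exp (η * N) := by
    rw [one_div, ← div_eq_inv_mul, le_div_iff₀ hm]
    have := Real.add_one_le_exp (η * N)
    have a := min_le_left 1 η
    have b := mul_le_mul_of_nonneg_left (min_le_right 1 η) hN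
    nlinarith
  calc ((N : ℝ) + 1) ^ k ≤ (1 / min 1 η * Real.exp (η * N)) ^ k :=
        pow_le_pow_left₀ (by positivity) h1 k
    _ = (1 / min 1 η) ^ k * Real.exp (k * (η * N)) := by rw [mul_pow, Real.exp_nat_mul]
    _ ≤ _ := by
        apply mul_le_mul_of_nonneg_left _ (by positivity)
        rw [Real.rpow_def_of_pos (by norm_num)]
        apply Real.exp_le_exp.2
        have : (k : ℝ) * η ≤ Real.log 2 * ε := by
          rw [hη, mul_div_assoc', div_le_iff₀ (by positivity)]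
          nlinarith [mul_pos hε hl]
        nlinarith

/-- the three terms of a pair -/
def cntTrm (z : ℕ × ℕ) : Fin 3 → ℕ := ![z.1, z.2, z.1 + z.2]

theorem cnt_close {L : ℕ} {p : Fin 3 → ℕ} (hp : p 2 = 0) (z w : ℕ × ℕ)
    (lo : ∀ t, 2 ^ L ≤ 2 ^ p t * cntTrm z t) (hi : ∀ t, 2 ^ p t * cntTrm z t < 2 ^ (L + 1))
    (lo' : ∀ t, 2 ^ L ≤ 2 ^ p t * cntTrm w t) (hi' : ∀ t, 2 ^ p t * cntTrm w t < 2 ^ (L + 1))
    (t u v : Fin 3) (htu : t ≠ u) (htv : t ≠ v) (huv : u ≠ v) :
    2 ^ p t * (cntTrm z u * cntTrm w v) ≤ (2 ^ p t + 16) * (cntTrm w u * cntTrm z v) := by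
  rcases le_or_gt (p t) 1 with h | h
  · have hT : 2 ^ p t ≤ 2 := by
      calc 2 ^ p t ≤ 2 ^ 1 := Nat.pow_le_pow_right (by norm_num) h
        _ = 2 := rfl
    have a : cntTrm z u ≤ 2 * cntTrm w u := by
      have h1 := hi u
      have h2 := lo' u
      have : 2 ^ p u * cntTrm z u < 2 ^ p u * (2 * cntTrm w u) := by
        rw [pow_succ] at h1; nlinarith
      exact (lt_of_mul_lt_mul_left this (Nat.zero_le _)).le
    have b : cntTrm w v ≤ 2 * cntTrm z v := by
      have h1 := hi' v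
      have h2 := lo v
      have : 2 ^ p v * cntTrm w v < 2 ^ p v * (2 * cntTrm z v) := by
        rw [pow_succ] at h1; nlinarith
      exact (lt_of_mul_lt_mul_left this (Nat.zero_le _)).le
    calc 2 ^ p t * (cntTrm z u * cntTrm w v) ≤ 2 * ((2 * cntTrm w u) * (2 * cntTrm z v)) :=
          Nat.mul_le_mul hT (Nat.mul_le_mul a b)
      _ = 8 * (cntTrm w u * cntTrm z v) := by ring
      _ ≤ _ := Nat.mul_le_mul_right _ (le_trans (by norm_num) (Nat.le_add_left 16 _))
  · have hT : 4 ≤ 2 ^ p t := by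
      calc 4 = 2 ^ 2 := rfl
        _ ≤ 2 ^ p t := Nat.pow_le_pow_right (by norm_num) h
    have key : ∀ T A B : ℕ, 4 ≤ T → T * A < 2 ^ (L + 1) → 2 ^ L ≤ A + B →
        T * (A + B) ≤ (T + 4) * B := by
      intro T A B h1 h2 h3
      rw [pow_succ] at h2
      nlinarith
    have fin1 : ∀ T B C B' C' : ℕ, B ≤ C → T * C' ≤ (T + 4) * B' →
        T * (B * C') ≤ (T + 16) * (B' * C) := by
      intro T B C B' C' h1 h2
      calc T * (B * C') = B * (T * C') := by ring
        _ ≤ C * ((T + 4) * B') := Nat.mul_le_mul h1 h2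
        _ ≤ (T + 16) * (B' * C) := by nlinarith [Nat.zero_le (B' * C)]
    have l2 := lo 2
    have l2' := lo' 2
    have h0 := hi t
    have h0' := hi' t
    rw [hp] at l2 l2'
    simp only [cntTrm, Matrix.cons_val, pow_zero, one_mul] at l2 l2'
    have ht2 : t ≠ 2 := by rintro rfl; omega
    generalize 2 ^ p t = T at *
    fin_cases t <;> fin_cases u <;> fin_cases v <;>
      simp only [cntTrm, Fin.zero_eta, Fin.mk_one, Fin.reduceFinMk, Matrix.cons_val, ne_eq,
        not_true_eq_false] at *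
    · exact fin1 _ _ _ _ _ (by omega) (key T _ _ hT h0' l2')
    · have := fin1 T w.2 (w.1 + w.2) z.2 (z.1 + z.2) (by omega) (key T _ _ hT h0 l2)
      rw [mul_comm w.2, mul_comm z.2] at this
      exact this
    · have := key T w.2 w.1 hT h0' (by omega)
      rw [add_comm w.2] at this
      exact fin1 _ _ _ _ _ (by omega) this
    · have h5 := key T z.2 z.1 hT h0 (by omega)
      rw [add_comm z.2] at h5
      have := fin1 T w.1 (w.1 + w.2) z.1 (z.1 + z.2) (by omega) h5
      rw [mul_comm w.1, mul_comm z.1] at this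
      exact this

theorem cnt_tau (M m C : ℕ) (hm : m ≠ 0) (hC : ∀ n : ℕ, n ≠ 0 → n.divisors.card ^ m ≤ C * n) :
    ∃ τ : ℕ, (∀ n : ℕ, n ≤ M → n.divisors.card ≤ τ) ∧ τ ^ m ≤ (C + 1) * M := by
  obtain ⟨n, hn, hne⟩ := exists_max_image (range (M + 1)) (fun n => n.divisors.card)
    nonempty_range_add_one
  refine ⟨n.divisors.card, fun k hk => hne k (mem_range.2 (Nat.lt_succ_of_le hk)), ?_⟩
  rcases Nat.eq_zero_or_pos n with rfl | hn0
  · simp [hm]
  · exact (hC n hn0.ne').trans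
      (Nat.mul_le_mul (by omega) (Nat.lt_succ_iff.1 (mem_range.1 hn)))

theorem cnt_tau_real (τ C m L : ℕ) (hm : m ≠ 0) (h : τ ^ m ≤ (C + 1) * 2 ^ (64 * (L + 1))) :
    (τ : ℝ) ≤ (C + 1) * (2 : ℝ) ^ (64 * ((L : ℝ) + 1) / m) := by
  have a1 : ((τ : ℝ)) ^ m ≤ (C + 1) * (2 : ℝ) ^ (64 * (L + 1)) := by exact_mod_cast h
  clear h
  have hmr : (m : ℝ) ≠ 0 := by exact_mod_cast hm
  refine le_of_pow_le_pow_left₀ (n := m) hm (by positivity) ?_
  rw [mul_pow, ← Real.rpow_natCast ((2 : ℝ) ^ _), ← Real.rpow_mul (by norm_num),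
    div_mul_cancel₀ _ hmr]
  have a2 : ((C : ℝ) + 1) ≤ (C + 1) ^ m :=
    le_self_pow₀ (by linarith [(Nat.cast_nonneg C : (0 : ℝ) ≤ C)]) hm
  have a3 : (2 : ℝ) ^ (64 * ((L : ℝ) + 1)) = (2 : ℝ) ^ (64 * (L + 1)) := by
    rw [← Real.rpow_natCast]; push_cast; rfl
  rw [a3]
  exact a1.trans (mul_le_mul_of_nonneg_right a2 (by positivity))

theorem cnt_mass (μ R n L D : ℕ) (C₀ w lam : ℝ) (hD : 1 ≤ D) (h0 : 0 ≤ lam)
    (hC₀ : C₀ ≤ (2 : ℝ) ^ w) (b3 : n ≤ 2 ^ (L + 1)) (a5 : (R : ℝ) ≤ C₀ * (n : ℝ) ^ lam)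
    (h : (2 ^ μ) ^ D ≤ R ^ D * 2 ^ (3 * (L + 1))) :
    (μ : ℝ) ≤ w + lam * (L + 1) + 3 * (L + 1) / D := by
  have h2 : ((2 : ℝ) ^ μ) ^ D ≤ (R : ℝ) ^ D * 2 ^ (3 * (L + 1)) := by exact_mod_cast h
  have b4 : (n : ℝ) ≤ (2 : ℝ) ^ (L + 1) := by exact_mod_cast b3
  have hDr : (0 : ℝ) < D := by exact_mod_cast hD
  clear h b3 hD
  have m3 : (R : ℝ) ≤ (2 : ℝ) ^ (w + lam * (L + 1)) := by
    refine a5.trans ?_
    rw [Real.rpow_add (by norm_num)]
    rw [← Real.rpow_natCast] at b4
    push_cast at b4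
    apply mul_le_mul hC₀ _ (by positivity) (by positivity)
    rw [mul_comm lam, Real.rpow_mul (by norm_num)]
    exact Real.rpow_le_rpow (by positivity) b4 h0
  have m4 : ((2 : ℝ) ^ μ) ^ D ≤ ((2 : ℝ) ^ (w + lam * (L + 1))) ^ D * 2 ^ (3 * (L + 1)) :=
    h2.trans (mul_le_mul_of_nonneg_right (pow_le_pow_left₀ (by positivity) m3 D)
      (by positivity))
  rw [← Real.rpow_natCast 2 μ, ← Real.rpow_natCast 2 (3 * (L + 1)),
    ← Real.rpow_natCast, ← Real.rpow_natCast, ← Real.rpow_mul (by norm_num),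
    ← Real.rpow_mul (by norm_num), ← Real.rpow_add (by norm_num),
    Real.rpow_le_rpow_left_iff (by norm_num)] at m4
  push_cast at m4
  have e : (3 * ((L : ℝ) + 1)) = 3 * (L + 1) / D * D := by field_simp
  rw [e, ← add_mul] at m4
  exact le_of_mul_le_mul_right m4 hDr

theorem abc_count (a b : ℝ) (ha : 0 ≤ a) (hb : 0 ≤ b) (h : BoxBound a b) (lam : ℝ)
    (h0 : 0 ≤ lam) (h1 : lam ≤ 1) : AbcBound (a * lam + b) lam := by
  classical
  intro C₀ δ hδ
  obtain ⟨K, d, hK, hbox⟩ := h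
  obtain ⟨D0, hD0⟩ := exists_nat_ge (9 * (a + K) / δ)
  set D := max (max d 1) D0 with hDdef
  have hD1 : 1 ≤ D := le_trans (le_max_right _ _) (le_max_left _ _)
  have hDd : d ≤ D := le_trans (le_max_left _ _) (le_max_left _ _)
  have hDr : (0 : ℝ) < D := by exact_mod_cast hD1
  have hD2 : 9 * (a + K) ≤ δ * D := by
    have : (D0 : ℝ) ≤ D := by exact_mod_cast le_max_right _ _
    rw [div_le_iff₀ hδ] at hD0
    nlinarith
  clear_value D
  obtain ⟨K', hK'⟩ := hbox D hDd
  obtain ⟨m0, hm0⟩ := exists_nat_ge (192 * K' / δ)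
  set m := m0 + 1 with hm
  have hmr : (0 : ℝ) < m := by positivity
  have hm2 : 192 * (K' : ℝ) ≤ δ * m := by
    rw [div_le_iff₀ hδ] at hm0
    push_cast [hm]
    nlinarith
  obtain ⟨Cτ, hCτ⟩ := tau_bound m
  obtain ⟨C2, hC2, hpoly⟩ := cnt_poly (3 * D + 4) (δ / 3) (by positivity)
  set s0 : ℝ := max 0 (Real.logb 2 C₀) + 1 with hs0
  have hs00 : 0 ≤ s0 := by positivity
  have hC₀ : C₀ ≤ (2 : ℝ) ^ (max 0 (Real.logb 2 C₀)) := by
    rcases le_or_gt C₀ 0 with h | h
    · exact h.trans (by positivity)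
    · calc C₀ = (2 : ℝ) ^ (Real.logb 2 C₀) := (Real.rpow_logb (by norm_num) (by norm_num) h).symm
        _ ≤ _ := Real.rpow_le_rpow_of_exponent_le (by norm_num) (le_max_right _ _)
  set C3 : ℝ := (2 * (Cτ + 1 : ℝ)) ^ K' * (2 : ℝ) ^ ((a + K) * s0 + 2 * (δ / 3)) with hC3
  refine ⟨C2 * C3, fun X hX T hT => ?_⟩
  have hch : ∀ n : ℕ, ∃ y : Fin D → ℕ, n ≠ 0 → (∀ i, 0 < y i) ∧ ∏ i, y i ^ (i.val + 1) = n ∧
      (∏ i, y i) ^ D ≤ (∏ p ∈ n.primeFactors, p) ^ D * n := by
    intro n
    by_cases hn : n = 0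
    · exact ⟨fun _ => 0, fun h => absurd hn h⟩
    · obtain ⟨y, hy⟩ := exists_decomp D n hD1 hn
      exact ⟨y, fun _ => hy⟩
  choose y hy using hch
  let x : ℕ × ℕ → Ix D → ℕ := fun z j => y (cntTrm z j.1) j.2
  have hpos : ∀ z ∈ T, ∀ t, cntTrm z t ≠ 0 := by
    intro z hz t
    obtain ⟨a1, a2, -⟩ := hT z hz
    fin_cases t <;> simp only [cntTrm, Fin.zero_eta, Fin.mk_one, Fin.reduceFinMk,
      Matrix.cons_val] <;> omega
  have hle : ∀ z : ℕ × ℕ, ∀ t, cntTrm z t ≤ z.1 + z.2 := by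
    intro z t
    fin_cases t <;> simp [cntTrm]
  have hterm : ∀ z ∈ T, ∀ t, term (x z) t = cntTrm z t := by
    intro z hz t
    unfold term sub
    rw [cnt_prod_tm t (fun j => x z j ^ (j.2.val + 1))]
    exact (hy _ (hpos z hz t)).2.1
  have hxpos : ∀ z ∈ T, ∀ j, 0 < x z j := fun z hz j => (hy _ (hpos z hz j.1)).1 j.2
  have hxle : ∀ z ∈ T, ∀ j, x z j ≤ z.1 + z.2 := by
    intro z hz j
    refine le_trans ?_ (hle z j.1)
    rw [← (hy _ (hpos z hz j.1)).2.1]
    refine le_trans (Nat.le_self_pow (Nat.succ_ne_zero j.2.val) _) ?_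
    exact single_le_prod' (f := fun i => y (cntTrm z j.1) i ^ (i.val + 1))
      (fun i _ => Nat.one_le_iff_ne_zero.2 (pow_ne_zero _ ((hy _ (hpos z hz j.1)).1 i).ne'))
      (mem_univ j.2)
  have hinj : Set.InjOn x T := by
    intro z hz w hw e
    have e0 := hterm z hz 0
    have e1 := hterm z hz 1
    rw [e, hterm w hw] at e0 e1
    simp only [cntTrm, Matrix.cons_val] at e0 e1
    exact Prod.ext e0.symm e1.symm
  set N := Nat.log 2 ⌊X⌋₊ with hN
  have hNX : (2 : ℝ) ^ (N : ℝ) ≤ X := by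
    have h2 : ⌊X⌋₊ ≠ 0 := by
      have := (Nat.one_le_floor_iff X).2 hX
      omega
    have := Nat.pow_log_le_self 2 h2
    rw [Real.rpow_natCast]
    calc (2 : ℝ) ^ N ≤ (⌊X⌋₊ : ℝ) := by exact_mod_cast this
      _ ≤ X := Nat.floor_le (by linarith)
  have hLN : ∀ z ∈ T, Nat.log 2 (z.1 + z.2) ≤ N := fun z hz =>
    Nat.log_mono_right (Nat.le_floor (hT z hz).2.2.2.1)
  let key : ℕ × ℕ → (Ix D → ℕ) × (Fin 3 → ℕ) × ℕ := fun z =>
    (fun j => Nat.log 2 (x z j), fun t => Nat.log 2 (z.1 + z.2) - Nat.log 2 (cntTrm z t),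
      Nat.log 2 (z.1 + z.2))
  let keys : Finset ((Ix D → ℕ) × (Fin 3 → ℕ) × ℕ) :=
    (Fintype.piFinset fun _ => range (N + 1)) ×ˢ (Fintype.piFinset fun _ => range (N + 1)) ×ˢ
      range (N + 1)
  have hkeys : keys.card = (N + 1) ^ (3 * D + 4) := by
    simp only [keys, card_product, Fintype.card_piFinset, card_range, prod_const, card_univ,
      Fintype.card_prod, Fintype.card_fin]
    ring
  have hmaps : ∀ z ∈ T, key z ∈ keys := by
    intro z hz
    have := hLN z hz
    simp only [keys, key, mem_product, Fintype.mem_piFinset, mem_range]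
    refine ⟨fun j => ?_, fun t => by omega, by omega⟩
    have := Nat.log_mono_right (b := 2) (hxle z hz j)
    omega
  have hfib : ∀ k ∈ keys, ((T.filter (fun z => key z = k)).card : ℝ) ≤
      C3 * (2 : ℝ) ^ ((a * lam + b + 2 * (δ / 3)) * N) := by
    rintro ⟨e, p, L⟩ -
    rcases (T.filter (fun z => key z = (e, p, L))).eq_empty_or_nonempty with hE | ⟨z0, hz0⟩
    · rw [hE]; simp only [card_empty, Nat.cast_zero]; positivity
    set F := T.filter (fun z => key z = (e, p, L)) with hF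
    have hFT : ∀ z ∈ F, z ∈ T := fun z hz => (mem_filter.1 hz).1
    have he : ∀ z ∈ F, ∀ j, e j = Nat.log 2 (x z j) := fun z hz j =>
      (congrFun (congrArg Prod.fst (mem_filter.1 hz).2) j).symm
    have hL : ∀ z ∈ F, L = Nat.log 2 (z.1 + z.2) := fun z hz =>
      (congrArg (fun k => k.2.2) (mem_filter.1 hz).2).symm
    have hp : ∀ z ∈ F, ∀ t, p t = L - Nat.log 2 (cntTrm z t) := fun z hz t => by
      rw [hL z hz]
      exact (congrFun (congrArg (fun k => k.2.1) (mem_filter.1 hz).2) t).symm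
    have hlL : ∀ z ∈ F, ∀ t, Nat.log 2 (cntTrm z t) ≤ L := fun z hz t => by
      rw [hL z hz]; exact Nat.log_mono_right (hle z t)
    have tlo : ∀ z ∈ F, ∀ t, 2 ^ L ≤ 2 ^ p t * cntTrm z t := by
      intro z hz t
      calc 2 ^ L = 2 ^ p t * 2 ^ Nat.log 2 (cntTrm z t) := by
            rw [← pow_add, hp z hz t, Nat.sub_add_cancel (hlL z hz t)]
        _ ≤ _ := Nat.mul_le_mul_left _ (Nat.pow_log_le_self 2 (hpos z (hFT z hz) t))
    have thi : ∀ z ∈ F, ∀ t, 2 ^ p t * cntTrm z t < 2 ^ (L + 1) := by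
      intro z hz t
      calc 2 ^ p t * cntTrm z t < 2 ^ p t * 2 ^ (Nat.log 2 (cntTrm z t) + 1) :=
            Nat.mul_lt_mul_of_pos_left (Nat.lt_pow_succ_log_self (by norm_num) _) (by positivity)
        _ = 2 ^ (L + 1) := by
            rw [← pow_add, hp z hz t, ← add_assoc, Nat.sub_add_cancel (hlL z hz t)]
    have hp2 : p 2 = 0 := by
      rw [hp z0 hz0 2, hL z0 hz0]
      simp [cntTrm]
    let c : Box D := ⟨e, p, L, ![1, 1, -1]⟩
    have hgood : Good c (F.image x) := by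
      constructor
      · simp only [forall_mem_image]
        intro z hz j
        simp only [c, he z hz j]
        exact Nat.pow_log_le_self 2 (hxpos z (hFT z hz) j).ne'
      · simp only [forall_mem_image]
        intro z hz j
        simp only [c, he z hz j]
        exact Nat.lt_pow_succ_log_self (by norm_num) _
      · simp only [forall_mem_image]
        intro z hz t
        rw [hterm z (hFT z hz)]
        exact tlo z hz t
      · simp only [forall_mem_image]
        intro z hz t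
        rw [hterm z (hFT z hz)]
        exact thi z hz t
      · intro t
        fin_cases t <;> simp [c]
      · simp only [forall_mem_image]
        intro z hz
        simp only [hterm z (hFT z hz), Fin.sum_univ_three, c, cntTrm, Matrix.cons_val]
        push_cast; ring
      · simp only [forall_mem_image]
        intro z hz t u htu
        rw [hterm z (hFT z hz), hterm z (hFT z hz)]
        have hc := (hT z (hFT z hz)).2.2.1
        fin_cases t <;> fin_cases u <;>
          simp only [cntTrm, Fin.zero_eta, Fin.mk_one, Fin.reduceFinMk, Matrix.cons_val, ne_eq,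
            not_true_eq_false] at htu ⊢
        · exact hc
        · simpa using hc
        · exact hc.symm
        · simpa using hc.symm
        · simpa using hc.symm
        · simpa using hc
      · simp only [forall_mem_image]
        intro z hz w hw t u v h1 h2 h3
        simp only [hterm z (hFT z hz), hterm w (hFT w hw)]
        exact cnt_close hp2 z w (tlo z hz) (thi z hz) (tlo w hw) (thi w hw) t u v h1 h2 h3
    obtain ⟨τ, hTau', hτm⟩ := cnt_tau (2 ^ (64 * (L + 1))) m Cτ (by omega) hCτ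
    have hTau : Tau c.L τ := hTau'
    have hLr : (0 : ℝ) ≤ L := Nat.cast_nonneg L
    have hτle := cnt_tau_real τ Cτ m L (by omega) hτm
    clear hτm hTau'
    -- the mass
    have hz0T := hFT z0 hz0
    have hmass : (c.mass univ : ℝ) ≤ lam * L + (s0 + 3 * (L + 1) / D) := by
      obtain ⟨a1, a2, a3, -, a5⟩ := hT z0 hz0T
      have m1 : 2 ^ c.mass univ ≤ ∏ t, ∏ i, y (cntTrm z0 t) i := by
        rw [← Fintype.prod_prod_type' (fun t i => y (cntTrm z0 t) i), Box.mass,
          ← prod_pow_eq_pow_sum]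
        exact prod_le_prod' fun j _ => hgood.lo _ (mem_image_of_mem _ hz0) j
      have m2 : (∏ t, ∏ i, y (cntTrm z0 t) i) ^ D ≤
          (∏ q ∈ (z0.1 * z0.2 * (z0.1 + z0.2)).primeFactors, q) ^ D * 2 ^ (3 * (L + 1)) := by
        have c1 : Nat.Coprime (z0.1 * z0.2) (z0.1 + z0.2) :=
          Nat.Coprime.mul_left (by simpa using a3) (by simpa using a3.symm)
        rw [c1.primeFactors_mul, prod_union c1.disjoint_primeFactors, a3.primeFactors_mul,
          prod_union a3.disjoint_primeFactors, ← prod_pow]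
        have b3 : z0.1 + z0.2 ≤ 2 ^ (L + 1) := by
          have := thi z0 hz0 2
          rw [hp2] at this
          simp only [cntTrm, Matrix.cons_val, pow_zero, one_mul] at this
          exact this.le
        calc ∏ t, (∏ i, y (cntTrm z0 t) i) ^ D
            ≤ ∏ t, (∏ q ∈ (cntTrm z0 t).primeFactors, q) ^ D * 2 ^ (L + 1) :=
              prod_le_prod' fun t _ => (hy _ (hpos z0 hz0T t)).2.2.trans
                (Nat.mul_le_mul_left _ ((hle z0 t).trans b3))
          _ = _ := by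
              simp only [Fin.prod_univ_three, cntTrm, Matrix.cons_val]
              ring
      have b3 : z0.1 + z0.2 ≤ 2 ^ (L + 1) := by
        have := thi z0 hz0 2
        rw [hp2] at this
        simp only [cntTrm, Matrix.cons_val, pow_zero, one_mul] at this
        exact this.le
      have := cnt_mass _ _ _ L D C₀ _ lam hD1 h0 hC₀ b3 a5 ((Nat.pow_le_pow_left m1 D).trans m2)
      rw [hs0]
      linarith
    have hs : 0 ≤ s0 + 3 * ((L : ℝ) + 1) / D := by positivity
    have hmain := hK' c (F.image x) τ hgood hTau _ hs (by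
      have : lam * L ≤ L := by nlinarith
      simp only [c] at hmass ⊢
      linarith)
    rw [card_image_of_injOn (hinj.mono (fun z hz => hFT z hz))] at hmain
    have hLN' : (L : ℝ) ≤ N := by
      have := hLN z0 hz0T
      rw [← hL z0 hz0] at this
      exact_mod_cast this
    refine hmain.trans ?_
    have e1 : (2 * τ : ℝ) ^ K' ≤ (2 * (Cτ + 1 : ℝ)) ^ K' * (2 : ℝ) ^ (δ / 3 * ((L : ℝ) + 1)) := by
      calc (2 * τ : ℝ) ^ K' ≤ (2 * (Cτ + 1) * (2 : ℝ) ^ (64 * ((L : ℝ) + 1) / m)) ^ K' :=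
            pow_le_pow_left₀ (by positivity) (by linarith) K'
        _ = (2 * (Cτ + 1 : ℝ)) ^ K' * (2 : ℝ) ^ (64 * ((L : ℝ) + 1) / m * K') := by
            rw [mul_pow _ ((2 : ℝ) ^ _), ← Real.rpow_natCast ((2 : ℝ) ^ _),
              ← Real.rpow_mul (by norm_num)]
        _ ≤ _ := by
            apply mul_le_mul_of_nonneg_left _ (by positivity)
            apply Real.rpow_le_rpow_of_exponent_le (by norm_num)
            rw [div_mul_eq_mul_div, div_le_iff₀ hmr]
            nlinarith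
    have e2 : a * c.mass univ + b * c.L + K * (s0 + 3 * ((L : ℝ) + 1) / D) ≤
        (a * lam + b) * L + (a + K) * s0 + δ / 3 * (L + 1) := by
      have f1 := mul_le_mul_of_nonneg_left hmass ha
      have f2 : (a + K) * (3 * ((L : ℝ) + 1) / D) ≤ δ / 3 * (L + 1) := by
        rw [mul_div_assoc', div_le_iff₀ hDr]
        nlinarith
      simp only [c] at f1 ⊢
      nlinarith
    calc _ ≤ ((2 * (Cτ + 1 : ℝ)) ^ K' * (2 : ℝ) ^ (δ / 3 * ((L : ℝ) + 1))) *
          (2 : ℝ) ^ ((a * lam + b) * L + (a + K) * s0 + δ / 3 * (L + 1)) :=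
          mul_le_mul e1 (Real.rpow_le_rpow_of_exponent_le (by norm_num) e2) (by positivity)
            (by positivity)
      _ ≤ _ := by
          rw [hC3, mul_assoc, mul_assoc, ← Real.rpow_add (by norm_num),
            ← Real.rpow_add (by norm_num)]
          apply mul_le_mul_of_nonneg_left _ (by positivity)
          apply Real.rpow_le_rpow_of_exponent_le (by norm_num)
          have : 0 ≤ a * lam + b + 2 * (δ / 3) := by positivity
          nlinarith [mul_le_mul_of_nonneg_left hLN' this]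
  have hsum : (T.card : ℝ) ≤ keys.card * (C3 * (2 : ℝ) ^ ((a * lam + b + 2 * (δ / 3)) * N)) := by
    rw [card_eq_sum_card_fiberwise (f := key) (t := keys) (fun z hz => hmaps z hz)]
    push_cast
    refine (sum_le_card_nsmul _ _ _ hfib).trans ?_
    rw [nsmul_eq_mul]
  refine hsum.trans ?_
  rw [hkeys]
  push_cast
  have hC30 : 0 ≤ C3 := by positivity
  calc ((N : ℝ) + 1) ^ (3 * D + 4) * (C3 * (2 : ℝ) ^ ((a * lam + b + 2 * (δ / 3)) * N))
      ≤ (C2 * (2 : ℝ) ^ (δ / 3 * N)) * (C3 * (2 : ℝ) ^ ((a * lam + b + 2 * (δ / 3)) * N)) :=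
        mul_le_mul_of_nonneg_right (hpoly N) (by positivity)
    _ = C2 * C3 * ((2 : ℝ) ^ (N : ℝ)) ^ (a * lam + b + δ) := by
        rw [← Real.rpow_mul (by norm_num),
          show (N : ℝ) * (a * lam + b + δ) = δ / 3 * N + (a * lam + b + 2 * (δ / 3)) * N by ring,
          Real.rpow_add (by norm_num)]
        ring
    _ ≤ _ := by
        apply mul_le_mul_of_nonneg_left _ (by positivity)
        exact Real.rpow_le_rpow (by positivity) hNX (by positivity)

end Pool.Agent.P.MP_9ec3f0_nt.Exc
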