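import Mathlib

/-
Exceptional set in the abc conjecture: definitions.
A term is written as the product of x (t,i) ^ (i+1), i < D, and tuples are put in dyadic boxes.
-/

namespace Pool.Agent.P.MP_9ec3f0_nt.Exc

open Finset

/-- Index of a variable: the term (0,1,2) and the exponent minus one. -/
abbrev Ix (D : ℕ) : Type := Fin 3 × Fin D

/-- The indices of term `t`. -/
def tm (D : ℕ) (t : Fin 3) : Finset (Ix D) := univ.filter (fun j => j.1 = t)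

/-- Partial product over a set of indices. -/
def sub {D : ℕ} (x : Ix D → ℕ) (F : Finset (Ix D)) : ℕ := ∏ j ∈ F, x j ^ (j.2.val + 1)

/-- The term `t` of a tuple. -/
def term {D : ℕ} (x : Ix D → ℕ) (t : Fin 3) : ℕ := sub x (tm D t)

/-- Dyadic data: sizes `e` of the variables, pads `p` of the terms, size `L`, signs `σ`. -/
structure Box (D : ℕ) where
  e : Ix D → ℕ
  p : Fin 3 → ℕ
  L : ℕ
  σ : Fin 3 → ℤ

/-- Sum of the sizes. -/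
def Box.mass {D : ℕ} (c : Box D) (F : Finset (Ix D)) : ℕ := ∑ j ∈ F, c.e j

/-- Sum of the sizes weighted by the exponents. -/
def Box.wt {D : ℕ} (c : Box D) (F : Finset (Ix D)) : ℕ := ∑ j ∈ F, (j.2.val + 1) * c.e j

/-- `S` is a set of solutions in the box `c`. -/
structure Good {D : ℕ} (c : Box D) (S : Finset (Ix D → ℕ)) : Prop where
  lo : ∀ x ∈ S, ∀ j, 2 ^ c.e j ≤ x j
  hi : ∀ x ∈ S, ∀ j, x j < 2 ^ (c.e j + 1)
  tlo : ∀ x ∈ S, ∀ t, 2 ^ c.L ≤ 2 ^ c.p t * term x t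
  thi : ∀ x ∈ S, ∀ t, 2 ^ c.p t * term x t < 2 ^ (c.L + 1)
  sgn : ∀ t, c.σ t = 1 ∨ c.σ t = -1
  eqn : ∀ x ∈ S, ∑ t, c.σ t * (term x t : ℤ) = 0
  cop : ∀ x ∈ S, ∀ t u, t ≠ u → Nat.Coprime (term x t) (term x u)
  close : ∀ x ∈ S, ∀ y ∈ S, ∀ t u v, t ≠ u → t ≠ v → u ≠ v →
    2 ^ c.p t * (term x u * term y v) ≤ (2 ^ c.p t + 16) * (term y u * term x v)

/-- `τ` bounds the divisor function up to `2 ^ (64 (L+1))`. -/
def Tau (L τ : ℕ) : Prop := ∀ n : ℕ, n ≤ 2 ^ (64 * (L + 1)) → n.divisors.card ≤ τ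

/-- `W` is a lower bound for the size of the padded modulus given by `I`. -/
def Modw {D : ℕ} (c : Box D) (S : Finset (Ix D → ℕ)) (t : Fin 3) (I : Finset (Ix D)) (W : ℝ) :
    Prop :=
  ∀ x ∈ S, (2 : ℝ) ^ W ≤ 2 ^ (D ^ 2) * 2 ^ c.p t * (sub x I : ℝ)

/-- The bound for one box, with exponent `a * mass + b * L`. -/
def BoxBound (a b : ℝ) : Prop :=
  ∃ (K : ℝ) (d : ℕ), 0 ≤ K ∧ ∀ D : ℕ, d ≤ D → ∃ K' : ℕ, ∀ (c : Box D) (S : Finset (Ix D → ℕ)) (τ : ℕ),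
    Good c S → Tau c.L τ → ∀ s : ℝ, 0 ≤ s → (c.mass univ : ℝ) ≤ c.L + s →
      (S.card : ℝ) ≤ (2 * τ : ℝ) ^ K' * (2 : ℝ) ^ (a * c.mass univ + b * c.L + K * s)

/-- The counting bound for coprime `a + b = c ≤ X` with radical at most `C₀ c ^ lam`. -/
def AbcBound (θ lam : ℝ) : Prop :=
  ∀ C₀ δ : ℝ, 0 < δ → ∃ C : ℝ, ∀ X : ℝ, 1 ≤ X → ∀ T : Finset (ℕ × ℕ),
    (∀ z ∈ T, 0 < z.1 ∧ 0 < z.2 ∧ Nat.Coprime z.1 z.2 ∧ ((z.1 + z.2 : ℕ) : ℝ) ≤ X ∧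
      ((∏ p ∈ (z.1 * z.2 * (z.1 + z.2)).primeFactors, p : ℕ) : ℝ)
        ≤ C₀ * ((z.1 + z.2 : ℕ) : ℝ) ^ lam) →
    (T.card : ℝ) ≤ C * X ^ (θ + δ)

end Pool.Agent.P.MP_9ec3f0_nt.Exc
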