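import Pool.Agent.P.MP_9ec3f0_nt.Exc.Roots

namespace Pool.Agent.P.MP_9ec3f0_nt.Exc

open Finset

private lemma en_count_mod (S : Finset ℕ) (α : ℕ) (hα : α ≠ 0) (c Δ : ℝ) (hΔ : 0 ≤ Δ)
    (h1 : ∀ x ∈ S, |(x : ℝ) - c| ≤ Δ) (h2 : ∀ x ∈ S, ∀ y ∈ S, x ≡ y [MOD α]) :
    (S.card : ℝ) ≤ 2 * Δ / α + 1 := by
  have hα' : (0 : ℝ) < α := by exact_mod_cast Nat.pos_of_ne_zero hα
  rcases S.eq_empty_or_nonempty with rfl | hS
  · simp only [card_empty, Nat.cast_zero]; positivity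
  set a := S.min' hS with ha
  have haS : a ∈ S := S.min'_mem hS
  have hle : ∀ x ∈ S, a ≤ x := fun x hx => S.min'_le x hx
  have hdiv : ∀ x ∈ S, α ∣ x - a := fun x hx => (Nat.modEq_iff_dvd' (hle x hx)).1 (h2 a haS x hx)
  have hc : S.card ≤ (range (⌊2 * Δ / α⌋₊ + 1)).card := by
    refine card_le_card_of_injOn (fun x => (x - a) / α) ?_ ?_
    · intro x hx
      have hx' : x ∈ S := hx
      simp only [coe_range, Set.mem_Iio, Nat.lt_succ_iff]
      apply Nat.le_floor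
      obtain ⟨q, hq⟩ := hdiv x hx'
      rw [hq, Nat.mul_div_cancel_left _ (Nat.pos_of_ne_zero hα), le_div_iff₀ hα']
      have e : (x : ℝ) - a = α * q := by
        rw [← Nat.cast_sub (hle x hx'), hq]; push_cast; ring
      have b1 := abs_le.1 (h1 x hx')
      have b2 := abs_le.1 (h1 a haS)
      linarith [b1.2, b2.1]
    · intro x hx y hy e
      have hx' : x ∈ S := hx
      have hy' : y ∈ S := hy
      have e1 := Nat.mul_div_cancel' (hdiv x hx')
      have e2 := Nat.mul_div_cancel' (hdiv y hy')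
      have e3 : (x - a) / α = (y - a) / α := e
      have := hle x hx'
      have := hle y hy'
      rw [e3] at e1
      omega
  rw [card_range] at hc
  have h3 : (S.card : ℝ) ≤ (⌊2 * Δ / α⌋₊ : ℝ) + 1 := by exact_mod_cast hc
  have h4 := Nat.floor_le (a := 2 * Δ / α) (by positivity)
  linarith

private lemma en_sub_le {x y M d : ℝ} (hy : 0 < y) (hx : 0 < x) (hM : x ≤ M) (hd : 0 ≤ d)
    (h : Real.log x - Real.log y ≤ d) : x - y ≤ M * d := by
  have h1 := Real.log_le_sub_one_of_pos (div_pos hy hx)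
  rw [Real.log_div hy.ne' hx.ne'] at h1
  have h2 : x * (Real.log y - Real.log x) ≤ x * (y / x - 1) :=
    mul_le_mul_of_nonneg_left h1 hx.le
  have h3 : x * (y / x - 1) = y - x := by field_simp
  have h4 : x * (Real.log x - Real.log y) ≤ x * d := mul_le_mul_of_nonneg_left h hx.le
  have h5 : x * d ≤ M * d := mul_le_mul_of_nonneg_right hM hd
  nlinarith

private lemma en_log_le {r : ℕ} (T : ℝ) (hT : 0 < T) (x y : Fin r → ℕ) (hx : ∀ k, 0 < x k)
    (hy : ∀ k, 0 < y k)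
    (h : ∑ k, ⌊T * Real.log (x k)⌋₊ = ∑ k, ⌊T * Real.log (y k)⌋₊) :
    Real.log ((∏ k, x k : ℕ) : ℝ) - Real.log ((∏ k, y k : ℕ) : ℝ) ≤ r / T := by
  have hx' : ∀ k ∈ (univ : Finset (Fin r)), (x k : ℝ) ≠ 0 := fun k _ => by
    exact_mod_cast (hx k).ne'
  have hy' : ∀ k ∈ (univ : Finset (Fin r)), (y k : ℝ) ≠ 0 := fun k _ => by
    exact_mod_cast (hy k).ne'
  push_cast
  rw [Real.log_prod hx', Real.log_prod hy', le_div_iff₀ hT, sub_mul, sum_mul, sum_mul]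
  have h1 : ∑ k, Real.log (x k) * T ≤ ∑ k, ((⌊T * Real.log (x k)⌋₊ : ℝ) + 1) :=
    sum_le_sum fun k _ => by rw [mul_comm]; exact (Nat.lt_floor_add_one _).le
  have h2 : ∑ k, (⌊T * Real.log (y k)⌋₊ : ℝ) ≤ ∑ k, Real.log (y k) * T :=
    sum_le_sum fun k _ => by
      rw [mul_comm (Real.log _)]
      exact Nat.floor_le (mul_nonneg hT.le (Real.log_natCast_nonneg _))
  have h3 : ∑ k, (⌊T * Real.log (x k)⌋₊ : ℝ) = ∑ k, (⌊T * Real.log (y k)⌋₊ : ℝ) := by
    exact_mod_cast h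
  rw [sum_add_distrib] at h1
  simp only [sum_const, card_univ, Fintype.card_fin, nsmul_eq_mul, mul_one] at h1
  linarith

private lemma en_classes (N : Finset ℕ) (α i n : ℕ) (hα : α ≠ 0) (hi : 1 ≤ i)
    (hn : Nat.Coprime n α) (Δ : ℝ) (hΔ : 0 ≤ Δ)
    (h1 : ∀ x ∈ N, |(x : ℝ) - n| ≤ Δ) (h2 : ∀ x ∈ N, Nat.Coprime x α)
    (h3 : ∀ x ∈ N, n ^ i ≡ x ^ i [MOD α]) :
    (N.card : ℝ) ≤ (α.divisors.card : ℝ) ^ i * (2 * Δ / α + 1) := by
  classical
  have : NeZero α := ⟨hα⟩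
  let g : ℕ → (ZMod α)ˣ := fun x =>
    if h : Nat.Coprime x α then ZMod.unitOfCoprime x h * (ZMod.unitOfCoprime n hn)⁻¹ else 1
  have hg : ∀ x ∈ N, g x ∈ univ.filter (fun z : (ZMod α)ˣ => z ^ i = 1) := by
    intro x hx
    simp only [mem_filter, mem_univ, true_and, g, dif_pos (h2 x hx), mul_pow, inv_pow]
    rw [mul_inv_eq_one]
    apply Units.ext
    simp only [Units.val_pow_eq_pow_val, ZMod.coe_unitOfCoprime]
    have := (ZMod.natCast_eq_natCast_iff _ _ _).2 (h3 x hx)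
    push_cast at this
    exact this.symm
  rw [card_eq_sum_card_fiberwise hg]
  push_cast
  have hb : ∀ z ∈ univ.filter (fun z : (ZMod α)ˣ => z ^ i = 1),
      ((N.filter fun x => g x = z).card : ℝ) ≤ 2 * Δ / α + 1 := by
    intro z _
    refine en_count_mod _ α hα n Δ hΔ (fun x hx => h1 x (mem_filter.1 hx).1) ?_
    intro x hx y hy
    obtain ⟨hx1, hx2⟩ := mem_filter.1 hx
    obtain ⟨hy1, hy2⟩ := mem_filter.1 hy
    have e : g x = g y := hx2.trans hy2.symm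
    simp only [g, dif_pos (h2 x hx1), dif_pos (h2 y hy1), mul_left_inj] at e
    have := congrArg Units.val e
    simp only [ZMod.coe_unitOfCoprime] at this
    exact (ZMod.natCast_eq_natCast_iff _ _ _).1 this
  refine (sum_le_card_nsmul _ _ _ hb).trans ?_
  rw [nsmul_eq_mul]
  have hr : ((univ.filter (fun z : (ZMod α)ˣ => z ^ i = 1)).card : ℝ)
      ≤ (α.divisors.card : ℝ) ^ i := by exact_mod_cast roots_le α i hi
  have : (0 : ℝ) ≤ 2 * Δ / α + 1 := by positivity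
  gcongr

theorem energy (α T e r i τ : ℕ) (hα : α ≠ 0) (hT : 1 ≤ T) (hr : 1 ≤ r) (hi : 1 ≤ i)
    (hτ : ∀ n : ℕ, n ≤ 2 ^ ((e + 1) * r) → n.divisors.card ≤ τ)
    (P : Finset ((Fin r → ℕ) × (Fin r → ℕ)))
    (h1 : ∀ z ∈ P, ∀ k, 2 ^ e ≤ z.1 k ∧ z.1 k < 2 ^ (e + 1) ∧ Nat.Coprime (z.1 k) α)
    (h2 : ∀ z ∈ P, ∀ k, 2 ^ e ≤ z.2 k ∧ z.2 k < 2 ^ (e + 1) ∧ Nat.Coprime (z.2 k) α)
    (h3 : ∀ z ∈ P, (∏ k, z.1 k) ^ i ≡ (∏ k, z.2 k) ^ i [MOD α])
    (h4 : ∀ z ∈ P, ∑ k, ⌊(T : ℝ) * Real.log (z.1 k)⌋₊ = ∑ k, ⌊(T : ℝ) * Real.log (z.2 k)⌋₊) :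
    (P.card : ℝ) ≤ 2 ^ (e * r) * (α.divisors.card : ℝ) ^ i
      * (2 * 2 ^ ((e + 1) * r) * r / (T * α) + 1) * (τ : ℝ) ^ r := by
  classical
  have _ := hr
  have hT' : (0 : ℝ) < T := by exact_mod_cast hT
  have hbd : ∀ x : Fin r → ℕ, (∀ k, x k < 2 ^ (e + 1)) → ∏ k, x k ≤ 2 ^ ((e + 1) * r) := by
    intro x hx
    calc ∏ k, x k ≤ ∏ _k : Fin r, 2 ^ (e + 1) := prod_le_prod' fun k _ => (hx k).le
      _ = _ := by simp [← pow_mul]
  have hpos : ∀ y : ℕ, 2 ^ e ≤ y → 0 < y := fun y hy => lt_of_lt_of_le (by positivity) hy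
  set Δ : ℝ := 2 ^ ((e + 1) * r) * (r / T) with hΔ
  have hΔ0 : 0 ≤ Δ := by positivity
  set X := Fintype.piFinset fun _ : Fin r => Ico (2 ^ e) (2 ^ (e + 1)) with hX
  have hXc : X.card = 2 ^ (e * r) := by
    have : 2 ^ (e + 1) - 2 ^ e = 2 ^ e := by rw [pow_succ]; omega
    simp [hX, Fintype.card_piFinset, this, ← pow_mul]
  have hmem : ∀ z ∈ P, z.1 ∈ X := by
    intro z hz
    simp only [hX, Fintype.mem_piFinset, mem_Ico]
    exact fun k => ⟨(h1 z hz k).1, (h1 z hz k).2.1⟩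
  have hfib : ∀ x ∈ X, ((P.filter fun z => z.1 = x).card : ℝ) ≤
      (α.divisors.card : ℝ) ^ i * (2 * Δ / α + 1) * (τ : ℝ) ^ r := by
    intro x _
    set Q := P.filter fun z => z.1 = x with hQ
    rcases Q.eq_empty_or_nonempty with h0 | ⟨z0, hz0⟩
    · rw [h0]; simp only [card_empty, Nat.cast_zero]; positivity
    obtain ⟨hz0P, hz0x⟩ := mem_filter.1 hz0
    have hcop : Nat.Coprime (∏ k, x k) α :=
      Nat.Coprime.prod_left fun k _ => hz0x ▸ (h1 z0 hz0P k).2.2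
    have hN := en_classes (Q.image fun z => ∏ k, z.2 k) α i (∏ k, x k) hα hi hcop Δ hΔ0 ?_ ?_ ?_
    · have hc : Q.card ≤ τ ^ r * (Q.image fun z => ∏ k, z.2 k).card := by
        refine card_le_mul_card_image Q (τ ^ r) ?_
        intro m hm
        obtain ⟨z1, hz1, rfl⟩ := mem_image.1 hm
        have hz1P := (mem_filter.1 hz1).1
        have hm0 : ∏ k, z1.2 k ≠ 0 := prod_ne_zero_iff.2 fun k _ => (hpos _ (h2 z1 hz1P k).1).ne'
        calc _ ≤ (Fintype.piFinset fun _ : Fin r => (∏ k, z1.2 k).divisors).card := by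
              refine card_le_card_of_injOn (fun z => z.2) ?_ ?_
              · intro z hz
                obtain ⟨_, hz2⟩ := mem_filter.1 (mem_coe.1 hz)
                simp only [mem_coe, Fintype.mem_piFinset, Nat.mem_divisors]
                exact fun k => ⟨hz2 ▸ dvd_prod_of_mem _ (mem_univ k), hm0⟩
              · intro z hz w hw ezw
                have a1 := (mem_filter.1 (mem_filter.1 (mem_coe.1 hz)).1).2
                have a2 := (mem_filter.1 (mem_filter.1 (mem_coe.1 hw)).1).2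
                exact Prod.ext (a1.trans a2.symm) ezw
          _ = (∏ k, z1.2 k).divisors.card ^ r := by simp [Fintype.card_piFinset]
          _ ≤ τ ^ r := Nat.pow_le_pow_left (hτ _ (hbd _ fun k => (h2 z1 hz1P k).2.1)) r
      have hc' : (Q.card : ℝ) ≤ (τ : ℝ) ^ r * (Q.image fun z => ∏ k, z.2 k).card := by
        exact_mod_cast hc
      calc (Q.card : ℝ) ≤ _ := hc'
        _ ≤ (τ : ℝ) ^ r * ((α.divisors.card : ℝ) ^ i * (2 * Δ / α + 1)) := by gcongr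
        _ = _ := by ring
    · intro m hm
      obtain ⟨z, hz, rfl⟩ := mem_image.1 hm
      obtain ⟨hzP, hzx⟩ := mem_filter.1 hz
      subst hzx
      have p1 : ∀ k, 0 < z.1 k := fun k => hpos _ (h1 z hzP k).1
      have p2 : ∀ k, 0 < z.2 k := fun k => hpos _ (h2 z hzP k).1
      have q1 : (0 : ℝ) < (∏ k, z.1 k : ℕ) := by exact_mod_cast prod_pos fun k _ => p1 k
      have q2 : (0 : ℝ) < (∏ k, z.2 k : ℕ) := by exact_mod_cast prod_pos fun k _ => p2 k
      have b1 : ((∏ k, z.1 k : ℕ) : ℝ) ≤ 2 ^ ((e + 1) * r) := by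
        exact_mod_cast hbd _ fun k => (h1 z hzP k).2.1
      have b2 : ((∏ k, z.2 k : ℕ) : ℝ) ≤ 2 ^ ((e + 1) * r) := by
        exact_mod_cast hbd _ fun k => (h2 z hzP k).2.1
      have hd : (0 : ℝ) ≤ r / T := by positivity
      have c1 := en_sub_le q2 q1 b1 hd (en_log_le T hT' _ _ p1 p2 (h4 z hzP))
      have c2 := en_sub_le q1 q2 b2 hd (en_log_le T hT' _ _ p2 p1 (h4 z hzP).symm)
      rw [abs_le]
      constructor <;> linarith
    · intro m hm
      obtain ⟨z, hz, rfl⟩ := mem_image.1 hm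
      exact Nat.Coprime.prod_left fun k _ => (h2 z (mem_filter.1 hz).1 k).2.2
    · intro m hm
      obtain ⟨z, hz, rfl⟩ := mem_image.1 hm
      obtain ⟨hzP, hzx⟩ := mem_filter.1 hz
      exact hzx ▸ h3 z hzP
  rw [card_eq_sum_card_fiberwise hmem]
  push_cast
  refine (sum_le_card_nsmul _ _ _ hfib).trans (le_of_eq ?_)
  rw [nsmul_eq_mul, hXc, hΔ]
  push_cast
  have hα' : (α : ℝ) ≠ 0 := by exact_mod_cast hα
  field_simp

end Pool.Agent.P.MP_9ec3f0_nt.Exc
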