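import Pool.Agent.P.MP_9ec3f0_nt.Exc.LP

/-
The concrete system of rules. Variable `6 t + i` is the mass of exponent `i + 1` in term `t`
(`i = 5` collects all exponents at least 6), variable 18 is the logarithm of the count, 19 is `L`.
-/

namespace Pool.Agent.P.MP_9ec3f0_nt.Exc.LP

/-- Field of six bits number `k` of a parameter. -/
def fld (par k : ℕ) : ℕ := Nat.mod (Nat.div par (Nat.pow 64 k)) 64

def bit (m i : ℕ) : Bool := Nat.beq (Nat.mod (Nat.div m (Nat.pow 2 i)) 2) 1

def xv (t i : ℕ) : E := .var (Nat.add (Nat.mul 6 t) i)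

def pick (m i : ℕ) (e : E) : E := cond (bit m i) e .zero

def massM (t m : ℕ) : E :=
  .add (.add (.add (pick m 0 (xv t 0)) (pick m 1 (xv t 1)))
    (.add (pick m 2 (xv t 2)) (pick m 3 (xv t 3)))) (.add (pick m 4 (xv t 4)) (pick m 5 (xv t 5)))

def wtM (t m : ℕ) : E :=
  .add (.add (.add (pick m 0 (xv t 0)) (pick m 1 (.smul 2 (xv t 1))))
    (.add (pick m 2 (.smul 3 (xv t 2))) (pick m 3 (.smul 4 (xv t 3)))))
    (.add (pick m 4 (.smul 5 (xv t 4))) (pick m 5 (.smul 6 (xv t 5))))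

def mass (t : ℕ) : E := massM t 63

def nu : E := .var 18

def ell : E := .var 19

def wmod (t I : ℕ) : E := cond (bit I 5) (.sub ell (wtM t (Nat.sub 63 I))) (wtM t I)

/-- All bits of `m` are below 5 and correspond to exponents divisible by `k`. -/
def multOK (k m : ℕ) : Bool :=
  !bit m 5 && (!bit m 0 || Nat.beq (Nat.mod 1 k) 0) && (!bit m 1 || Nat.beq (Nat.mod 2 k) 0)
    && (!bit m 2 || Nat.beq (Nat.mod 3 k) 0) && (!bit m 3 || Nat.beq (Nat.mod 4 k) 0)
    && (!bit m 4 || Nat.beq (Nat.mod 5 k) 0)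

def third (t u : ℕ) : ℕ := Nat.sub (Nat.sub 3 t) u

def okTU (t u : ℕ) : Bool := Nat.ble t 2 && Nat.ble u 2 && !Nat.beq t u

def validG (t u k Ju Jv : ℕ) : Bool :=
  okTU t u && Nat.ble 1 k && Nat.ble k 5 && multOK k Ju && multOK k Jv

def baseG (t u I k Ju Jv : ℕ) : E :=
  .smul k (.sub (.add (massM t I) (.add (mass u) (mass (third t u))))
    (.add (.add (massM u Ju) (massM (third t u) Jv)) nu))

def extG (t u I k Ju Jv : ℕ) : List E :=
  [.zero, .sub (.add (wtM u Ju) (wtM (third t u) Jv)) (.smul k (wmod t I))]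

/-- `24 β`, the part of the Hoelder budget left for the block. -/
def bnM (r : ℕ) : ℕ := cond (Nat.beq r 0) 24 (Nat.sub 24 (Nat.div 12 r))

def validM (t u Bu ib r : ℕ) : Bool :=
  okTU t u && Nat.ble r 4 && Nat.ble ib 4 && (Nat.beq r 0 || !bit Bu ib)

def bigE (u ib r : ℕ) : E := cond (Nat.beq r 0) .zero (xv u ib)

def baseM (t u I Bu Bv ib r : ℕ) : E :=
  .smul (bnM r) (.sub (.smul 2 (.add (massM t I) (.add (mass u) (mass (third t u)))))
    (.add (.add (.add (massM u Bu) (massM (third t u) Bv)) (bigE u ib r)) (.smul 2 nu)))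

def blk (h : E) (n t m i : ℕ) (l : List E) : List E :=
  cond (bit m i) (.add h (.smul n (xv t i)) :: l) l

def blks (h : E) (n t m : ℕ) (l : List E) : List E :=
  blk h n t m 0 (blk h n t m 1 (blk h n t m 2 (blk h n t m 3 (blk h n t m 4 (blk h n t m 5 l)))))

def headM (t u I Bu Bv r : ℕ) : E :=
  .sub (.smul 12 (.add (massM u Bu) (massM (third t u) Bv))) (.smul (bnM r) (wmod t I))

def blkM (t u I Bu Bv r : ℕ) : List E :=
  blks (.smul 2 (headM t u I Bu Bv r)) (Nat.mul 2 (bnM r)) u Bu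
    (blks (.smul 2 (headM t u I Bu Bv r)) (Nat.mul 2 (bnM r)) (third t u) Bv [])

def extM (t u I Bu Bv ib r : ℕ) : List E :=
  .zero :: cond (Nat.beq r 0) (blkM t u I Bu Bv r)
    (.smul (Nat.mul 2 (bnM r)) (.sub (.smul r (xv u ib)) (wmod t I)) :: blkM t u I Bu Bv r)

def validC (t u k U : ℕ) : Bool := okTU t u && Nat.ble 2 k && multOK k U

def outC (t u U : ℕ) : E := .sub (.add (mass t) (mass u)) (massM t U)

def baseC (t u U : ℕ) : E := .sub (outC t u U) (.smul 2 nu)

def extC (t u U : ℕ) : List E := [outC t u U, .smul 2 (mass (third t u))]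

def flds {α : Type} (par : ℕ) (k : ℕ → ℕ → ℕ → ℕ → ℕ → ℕ → ℕ → ℕ → α) : α :=
  force (fld par 0) fun a0 => force (fld par 1) fun a1 => force (fld par 2) fun a2 =>
  force (fld par 3) fun a3 => force (fld par 4) fun a4 => force (fld par 5) fun a5 =>
  force (fld par 6) fun a6 => force (fld par 7) fun a7 => k a0 a1 a2 a3 a4 a5 a6 a7

def valid (par : ℕ) : Bool :=
  flds par fun a0 a1 a2 a3 a4 a5 a6 a7 =>
    cond (Nat.beq a0 0) (validG a1 a2 a4 a5 a6)
      (cond (Nat.beq a0 1) (validM a1 a2 a4 a6 a7) (validC a1 a2 a4 a3))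

def base (par : ℕ) : E :=
  flds par fun a0 a1 a2 a3 a4 a5 a6 a7 =>
    cond (Nat.beq a0 0) (baseG a1 a2 a3 a4 a5 a6)
      (cond (Nat.beq a0 1) (baseM a1 a2 a3 a4 a5 a6 a7) (baseC a1 a2 a3))

def ext (par : ℕ) : List E :=
  flds par fun a0 a1 a2 a3 a4 a5 a6 a7 =>
    cond (Nat.beq a0 0) (extG a1 a2 a3 a4 a5 a6)
      (cond (Nat.beq a0 1) (extM a1 a2 a3 a4 a5 a6 a7) (extC a1 a2 a3))

def total : E := .add (mass 0) (.add (mass 1) (mass 2))

def goal : E := .sub (.smul 37 nu) (.add (.smul 15 total) (.smul 5 ell))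

def sys : Sys := ⟨valid, base, ext, goal⟩

def baseE : List E :=
  [.sub ell (wtM 0 63), .sub ell (wtM 1 63), .sub ell (wtM 2 63), .sub ell total,
   .sub (mass 0) (mass 1), .sub (mass 1) (mass 2), .sub (.add (mass 1) (mass 2)) nu]

/-- A row from its code: fields 8, 9, 10 give the kind and two positions. -/
noncomputable def mkRow (c : ℕ) : Row :=
  cond (Nat.beq (fld c 8) 0) (baseE.getD (fld c 9) .zero).pk
    (cond (Nat.beq (fld c 8) 1) ((base c).pk.add ((ext c).getD (fld c 9) .zero).pk)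
      (((ext c).getD (fld c 9) .zero).pk.sub ((ext c).getD (fld c 10) .zero).pk))

noncomputable def mkRows (l : List ℕ) : List Row := List.rec [] (fun c _ ih => mkRow c :: ih) l

noncomputable def mkKnown (l : List (List ℕ)) : List (List Row) :=
  List.rec [] (fun c _ ih => mkRows c :: ih) l

theorem mkKnown_sound (l : List (List ℕ)) (h : ∀ c ∈ l, Sound sys (mkRows c)) :
    ∀ r ∈ mkKnown l, Sound sys r := by
  induction l with
  | nil => intro r hr; exact absurd hr (by simp [mkKnown])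
  | cons c cs ih =>
    intro r hr
    rcases List.mem_cons.mp hr with rfl | hr
    · exact h c List.mem_cons_self
    · exact ih (fun c hc => h c (List.mem_cons_of_mem _ hc)) r hr

theorem sound_of_run (c : List ℕ) (t : T) (h : run sys [] (mkRows c) t = true) :
    Sound sys (mkRows c) :=
  run_sound sys [] (by simp) _ t h

end Pool.Agent.P.MP_9ec3f0_nt.Exc.LP
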