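import Pool.Agent.P.MP_9ec3f0_nt.Exc.Basic
import Pool.Agent.P.MP_9ec3f0_nt.Exc.Sys

/-
Dictionary between boxes and the variables of the linear programme.
-/

namespace Pool.Agent.P.MP_9ec3f0_nt.Exc

open Finset LP

variable {D : ℕ}

def cl (j : Ix D) : ℕ := min j.2.val 5

def selF (D : ℕ) (t : Fin 3) (m : ℕ) : Finset (Ix D) := (tm D t).filter (fun j => bit m (cl j) = true)

def cm (c : Box D) (t : Fin 3) (i : ℕ) : ℕ := c.mass ((tm D t).filter (fun j => cl j = i))

noncomputable def vv (c : Box D) (ν : ℝ) (n : ℕ) : ℝ :=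
  if h : n < 18 then cm c ⟨n / 6, by omega⟩ (n % 6) else if n = 18 then ν else c.L

theorem vv_nonneg (c : Box D) {ν : ℝ} (h : 0 ≤ ν) (n : ℕ) : 0 ≤ vv c ν n := by
  unfold vv
  split_ifs
  · positivity
  · exact h
  · positivity

theorem ev_nu (c : Box D) (ν : ℝ) : nu.ev (vv c ν) = ν := by simp [nu, E.ev, vv]

theorem ev_ell (c : Box D) (ν : ℝ) : ell.ev (vv c ν) = c.L := by simp [ell, E.ev, vv]

theorem ev_xv (c : Box D) (ν : ℝ) (t : Fin 3) {i : ℕ} (hi : i < 6) :
    (xv t i).ev (vv c ν) = cm c t i := by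
  have ht := t.isLt
  have e : Nat.add (Nat.mul 6 t) i = 6 * t + i := rfl
  have h1 : 6 * t.val + i < 20 := by omega
  have h2 : 6 * t.val + i < 18 := by omega
  have h3 : (6 * t.val + i) / 6 = t := by omega
  have h4 : (6 * t.val + i) % 6 = i := by omega
  simp only [xv, E.ev, e, h1, if_true, vv, h2, dif_pos, h3, h4]

theorem ev_pick (v : ℕ → ℝ) (m i : ℕ) (e : E) :
    (pick m i e).ev v = if bit m i = true then e.ev v else 0 := by
  unfold pick
  cases bit m i <;> simp [E.ev]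

theorem cl_lt (j : Ix D) : cl j < 6 := by unfold cl; omega

theorem sum_selF (c : Box D) (t : Fin 3) (m : ℕ) (g : ℕ → ℕ) :
    ∑ j ∈ selF D t m, g (cl j) * c.e j
      = ∑ i ∈ range 6, if bit m i = true then g i * cm c t i else 0 := by
  rw [← sum_fiberwise_of_maps_to (s := selF D t m) (t := range 6) (g := cl)
    (fun j _ => mem_range.mpr (cl_lt j))]
  refine sum_congr rfl fun i _ => ?_
  split_ifs with h
  · rw [cm, Box.mass, mul_sum]
    refine sum_congr ?_ fun j hj => ?_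
    · ext j
      simp only [selF, mem_filter]
      constructor
      · rintro ⟨⟨h1, _⟩, h2⟩; exact ⟨h1, h2⟩
      · rintro ⟨h1, h2⟩; exact ⟨⟨h1, h2 ▸ h⟩, h2⟩
    · rw [(mem_filter.mp hj).2]
  · refine sum_eq_zero fun j hj => ?_
    simp only [selF, mem_filter] at hj
    exact absurd (hj.2 ▸ hj.1.2) h

theorem ev_massM (c : Box D) (ν : ℝ) (t : Fin 3) (m : ℕ) :
    (massM t m).ev (vv c ν) = c.mass (selF D t m) := by
  have := sum_selF c t m (fun _ => 1)
  simp only [one_mul] at this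
  rw [Box.mass, this]
  simp only [massM, E.ev, ev_pick, sum_range_succ, sum_range_zero,
    ev_xv c ν t (show 0 < 6 by omega), ev_xv c ν t (show 1 < 6 by omega),
    ev_xv c ν t (show 2 < 6 by omega), ev_xv c ν t (show 3 < 6 by omega),
    ev_xv c ν t (show 4 < 6 by omega), ev_xv c ν t (show 5 < 6 by omega)]
  push_cast
  ring

theorem ev_wtM_aux (c : Box D) (ν : ℝ) (t : Fin 3) (m : ℕ) :
    (wtM t m).ev (vv c ν) = (∑ j ∈ selF D t m, (cl j + 1) * c.e j : ℕ) := by
  rw [sum_selF c t m (fun i => i + 1)]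
  simp only [wtM, E.ev, ev_pick, sum_range_succ, sum_range_zero,
    ev_xv c ν t (show 0 < 6 by omega), ev_xv c ν t (show 1 < 6 by omega),
    ev_xv c ν t (show 2 < 6 by omega), ev_xv c ν t (show 3 < 6 by omega),
    ev_xv c ν t (show 4 < 6 by omega), ev_xv c ν t (show 5 < 6 by omega)]
  push_cast
  ring_nf

theorem ev_wtM_le (c : Box D) (ν : ℝ) (t : Fin 3) (m : ℕ) :
    (wtM t m).ev (vv c ν) ≤ c.wt (selF D t m) := by
  rw [ev_wtM_aux, Box.wt]
  exact_mod_cast sum_le_sum fun j _ => Nat.mul_le_mul_right _ (by unfold cl; omega)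

theorem cl_eq {t : Fin 3} {m : ℕ} (h : bit m 5 = false) {j : Ix D} (hj : j ∈ selF D t m) :
    cl j = j.2.val ∧ j.2.val < 5 := by
  have h1 := (mem_filter.mp hj).2
  have h2 : cl j ≠ 5 := by
    intro h2
    rw [h2, h] at h1
    exact absurd h1 (by simp)
  unfold cl at h2 ⊢
  omega

theorem ev_wtM (c : Box D) (ν : ℝ) (t : Fin 3) {m : ℕ} (h : bit m 5 = false) :
    (wtM t m).ev (vv c ν) = c.wt (selF D t m) := by
  rw [ev_wtM_aux, Box.wt]
  congr 1
  exact sum_congr rfl fun j hj => by rw [(cl_eq h hj).1]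

theorem selF_subset (t : Fin 3) (m : ℕ) : selF D t m ⊆ tm D t := filter_subset _ _

theorem bit_63 : ∀ i < 6, bit 63 i = true := by decide

theorem bit_compl : ∀ I < 64, ∀ i < 6, bit (Nat.sub 63 I) i = !bit I i := by decide

theorem selF_63 (t : Fin 3) : selF D t 63 = tm D t :=
  filter_true_of_mem fun j _ => bit_63 _ (cl_lt j)

theorem selF_compl (t : Fin 3) {I : ℕ} (hI : I < 64) :
    tm D t \ selF D t I = selF D t (Nat.sub 63 I) := by
  ext j
  simp only [selF, mem_sdiff, mem_filter, bit_compl I hI _ (cl_lt j)]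
  cases bit I (cl j) <;> simp

theorem ev_mass (c : Box D) (ν : ℝ) (t : Fin 3) : (mass t).ev (vv c ν) = c.mass (tm D t) := by
  rw [mass, ev_massM, selF_63]

theorem Good.modw_ev {c : Box D} {S : Finset (Ix D → ℕ)} (h : Good c S) (ν : ℝ) (t : Fin 3)
    {I : ℕ} (hI : I < 64) : Modw c S t (selF D t I) ((wmod t I).ev (vv c ν)) := by
  unfold wmod
  cases hb : bit I 5 with
  | false =>
    rw [cond_false, ev_wtM c ν t hb]
    exact h.modw_wt t _
  | true =>
    rw [cond_true, E.ev, ev_ell, ev_wtM c ν t (by rw [bit_compl I hI 5 (by omega), hb]; rfl),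
      ← selF_compl t hI]
    exact h.modw_pad t _ (selF_subset t I)

theorem disj_tm {u v : Fin 3} (h : u ≠ v) : Disjoint (tm D u) (tm D v) := by
  rw [disjoint_left]
  intro j h1 h2
  simp only [tm, mem_filter, mem_univ, true_and] at h1 h2
  exact h (h1.symm.trans h2)

theorem mass_union (c : Box D) {A B : Finset (Ix D)} (h : Disjoint A B) :
    c.mass (A ∪ B) = c.mass A + c.mass B := sum_union h

theorem wt_union (c : Box D) {A B : Finset (Ix D)} (h : Disjoint A B) :
    c.wt (A ∪ B) = c.wt A + c.wt B := sum_union h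

theorem mass_sdiff (c : Box D) {A B : Finset (Ix D)} (h : B ⊆ A) :
    (c.mass (A \ B) : ℝ) = c.mass A - c.mass B := by
  have : c.mass (A \ B) + c.mass B = c.mass A := sum_sdiff h
  rw [← this]; push_cast; ring

theorem mass_le_wt (c : Box D) (A : Finset (Ix D)) : c.mass A ≤ c.wt A :=
  sum_le_sum fun j _ => Nat.le_mul_of_pos_left _ (by omega)

theorem mass_mono (c : Box D) {A B : Finset (Ix D)} (h : A ⊆ B) : c.mass A ≤ c.mass B :=
  sum_le_sum_of_subset h

theorem le_cm (c : Box D) {t : Fin 3} {j : Ix D} (hj : j ∈ tm D t) : c.e j ≤ cm c t (cl j) :=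
  single_le_sum (f := c.e) (s := (tm D t).filter (fun i => cl i = cl j))
    (fun _ _ => Nat.zero_le _) (mem_filter.mpr ⟨hj, rfl⟩)

theorem cm_eq (c : Box D) (t : Fin 3) {i : ℕ} (hi : i < 5) (hD : i < D) :
    cm c t i = c.e (t, ⟨i, hD⟩) := by
  have : (tm D t).filter (fun j => cl j = i) = {(t, ⟨i, hD⟩)} := by
    ext ⟨a, b⟩
    simp only [tm, cl, mem_filter, mem_univ, true_and, mem_singleton, Prod.mk.injEq, Fin.ext_iff]
    omega
  rw [cm, this, Box.mass, sum_singleton]

theorem okTU_spec {t u : ℕ} (h : okTU t u = true) :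
    ∃ t' u' v' : Fin 3, t = t' ∧ u = u' ∧ third t u = v' ∧ t' ≠ u' ∧ t' ≠ v' ∧ u' ≠ v' := by
  simp only [okTU, Bool.and_eq_true, Nat.ble_eq, Bool.not_eq_true'] at h
  obtain ⟨⟨h1, h2⟩, h3⟩ := h
  have h3 : t ≠ u := Nat.ne_of_beq_eq_false h3
  have e : third t u = 3 - t - u := rfl
  refine ⟨⟨t, by omega⟩, ⟨u, by omega⟩, ⟨3 - t - u, by omega⟩, rfl, rfl, e, ?_, ?_, ?_⟩ <;>
    simp only [ne_eq, Fin.mk.injEq] <;> omega

theorem multOK_spec {k m : ℕ} (h : multOK k m = true) :
    bit m 5 = false ∧ ∀ (t : Fin 3), ∀ j ∈ selF D t m, k ∣ j.2.val + 1 := by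
  simp only [multOK, Bool.and_eq_true, Bool.or_eq_true, Bool.not_eq_true', Nat.beq_eq] at h
  obtain ⟨⟨⟨⟨⟨h5, h0⟩, h1⟩, h2⟩, h3⟩, h4⟩ := h
  refine ⟨h5, fun t j hj => ?_⟩
  obtain ⟨e1, e2⟩ := cl_eq h5 hj
  have hb := (mem_filter.mp hj).2
  rw [e1] at hb
  apply Nat.dvd_of_mod_eq_zero
  generalize j.2.val = n at *
  interval_cases n
  · exact h0.resolve_left (by simp [hb])
  · exact h1.resolve_left (by simp [hb])
  · exact h2.resolve_left (by simp [hb])
  · exact h3.resolve_left (by simp [hb])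
  · exact h4.resolve_left (by simp [hb])

theorem fld_lt (par k : ℕ) : fld par k < 64 := Nat.mod_lt _ (by omega)

theorem logb_le {n τ K K' : ℕ} {R : ℝ} (hn : 0 < n) (hτ : 1 ≤ τ) (hK : K ≤ K')
    (h : (n : ℝ) ≤ (2 * τ : ℝ) ^ K * (2 : ℝ) ^ R) :
    Real.logb 2 n ≤ K' * Real.logb 2 (2 * τ) + R := by
  have h1 : (1 : ℝ) ≤ τ := by exact_mod_cast hτ
  have h2 : (0 : ℝ) < n := by exact_mod_cast hn
  have h3 : 0 ≤ Real.logb 2 (2 * τ : ℝ) := Real.logb_nonneg (by norm_num) (by linarith)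
  have h4 := Real.logb_le_logb_of_le (b := 2) (by norm_num) h2 h
  rw [Real.logb_mul (by positivity) (by positivity), Real.logb_pow,
    Real.logb_rpow (by norm_num) (by norm_num)] at h4
  have h5 : (K : ℝ) ≤ K' := by exact_mod_cast hK
  nlinarith

theorem mem_blk {h : E} {n t m i : ℕ} {l : List E} {e : E} (he : e ∈ l) : e ∈ blk h n t m i l := by
  unfold blk
  cases bit m i
  · exact he
  · exact List.mem_cons_of_mem _ he

theorem mem_blk_self {h : E} {n t m i : ℕ} {l : List E} (hb : bit m i = true) :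
    E.add h (.smul n (xv t i)) ∈ blk h n t m i l := by
  unfold blk
  rw [hb]
  exact List.mem_cons_self

theorem mem_blks {h : E} {n t m : ℕ} {l : List E} {e : E} (he : e ∈ l) : e ∈ blks h n t m l :=
  mem_blk (mem_blk (mem_blk (mem_blk (mem_blk (mem_blk he)))))

theorem mem_blks_self {h : E} {n t m i : ℕ} {l : List E} (hi : i < 6) (hb : bit m i = true) :
    E.add h (.smul n (xv t i)) ∈ blks h n t m l := by
  unfold blks
  interval_cases i
  · exact mem_blk_self hb
  · exact mem_blk (mem_blk_self hb)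
  · exact mem_blk (mem_blk (mem_blk_self hb))
  · exact mem_blk (mem_blk (mem_blk (mem_blk_self hb)))
  · exact mem_blk (mem_blk (mem_blk (mem_blk (mem_blk_self hb))))
  · exact mem_blk (mem_blk (mem_blk (mem_blk (mem_blk (mem_blk_self hb)))))

theorem mass_tm (c : Box D) (t : Fin 3) : c.mass (tm D t) = ∑ i, c.e (t, i) := by
  rw [Box.mass, tm, sum_filter, Fintype.sum_prod_type, sum_eq_single t]
  · simp
  · intro b _ hb; simp [hb]
  · simp

theorem mass_univ (c : Box D) : c.mass univ = ∑ t, c.mass (tm D t) := by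
  simp only [mass_tm]
  rw [Box.mass, Fintype.sum_prod_type]

end Pool.Agent.P.MP_9ec3f0_nt.Exc
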