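import Pool.Agent.P.MP_9ec3f0_nt.Exc.Glue1

/-
The rules of the linear programme follow from the three counting tools.
-/

namespace Pool.Agent.P.MP_9ec3f0_nt.Exc

open Finset LP

variable {D : ℕ}

/-- The three tools in logarithmic form. -/
structure TB (c : Box D) (S : Finset (Ix D → ℕ)) (ν κ : ℝ) : Prop where
  g : ∀ t u v : Fin 3, t ≠ u → t ≠ v → u ≠ v →
    ∀ (I J : Finset (Ix D)) (k : ℕ) (W : ℝ), I ⊆ tm D t → J ⊆ tm D u ∪ tm D v →
      1 ≤ k → k ≤ D → (∀ j ∈ J, k ∣ j.2.val + 1) → Modw c S t I W →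
      ν ≤ κ + ((c.mass I : ℝ) + c.mass ((tm D u ∪ tm D v) \ J) + max 0 ((c.wt J : ℝ) / k - W))
  m : ∀ t u v : Fin 3, t ≠ u → t ≠ v → u ≠ v →
    ∀ (I J : Finset (Ix D)) (r : Ix D → ℕ) (W W' : ℝ), I ⊆ tm D t → J ⊆ tm D u ∪ tm D v →
      (∀ j ∈ J, 1 ≤ r j) → ∑ j ∈ J, (1 : ℝ) / (2 * r j) ≤ 1 →
      (∀ j ∈ J, (c.e j + 1) * r j ≤ 64 * (c.L + 1)) → (∀ j ∈ J, (r j * c.e j : ℝ) ≤ W') →
      Modw c S t I W →
      ν ≤ κ + ((c.mass I : ℝ) + c.mass ((tm D u ∪ tm D v) \ J) + (c.mass J : ℝ) / 2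
        + max 0 (W' - W))
  cs : ∀ t u v : Fin 3, t ≠ u → t ≠ v → u ≠ v →
    ∀ (U : Finset (Ix D)) (k : ℕ), U ⊆ tm D t → 2 ≤ k → (∀ j ∈ U, k ∣ j.2.val + 1) →
      ν ≤ κ + (max ((c.mass (tm D t \ U) : ℝ) + c.mass (tm D u))
          (((c.mass (tm D t \ U) : ℝ) + c.mass (tm D u)) / 2 + c.mass (tm D v)))

theorem ruleG {c : Box D} {S : Finset (Ix D → ℕ)} {ν κ : ℝ} (hD : 6 ≤ D) (h : Good c S)
    (hκ : 0 ≤ κ) (hT : TB c S ν κ) {t u I k Ju Jv : ℕ} (hI : I < 64)
    (hv : validG t u k Ju Jv = true) :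
    ∃ e ∈ extG t u I k Ju Jv, -(48 * κ) ≤ (baseG t u I k Ju Jv).ev (vv c ν) + e.ev (vv c ν) := by
  simp only [validG, Bool.and_eq_true, Nat.ble_eq] at hv
  obtain ⟨⟨⟨⟨h1, hk1⟩, hk5⟩, hu⟩, hw⟩ := hv
  obtain ⟨t, u, v, rfl, rfl, e3, htu, htv, huv⟩ := okTU_spec h1
  obtain ⟨hu5, hu⟩ := multOK_spec (D := D) hu
  obtain ⟨hw5, hw⟩ := multOK_spec (D := D) hw
  have hd : Disjoint (selF D u Ju) (selF D v Jv) :=
    (disj_tm huv).mono (selF_subset _ _) (selF_subset _ _)
  have hs : selF D u Ju ∪ selF D v Jv ⊆ tm D u ∪ tm D v :=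
    union_subset_union (selF_subset _ _) (selF_subset _ _)
  have key := hT.g t u v htu htv huv (selF D t I) (selF D u Ju ∪ selF D v Jv) k _
    (selF_subset _ _) hs hk1 (by omega)
    (fun j hj => (mem_union.mp hj).elim (hu u j) (hw v j)) (h.modw_ev ν t hI)
  rw [mass_sdiff c hs, mass_union c hd, wt_union c hd, mass_union c (disj_tm huv)] at key
  have hk0 : (0 : ℝ) < k := by exact_mod_cast hk1
  have hk5' : (k : ℝ) ≤ 5 := by exact_mod_cast hk5
  simp only [extG, baseG, e3, E.ev, ev_massM, ev_mass, ev_nu, List.mem_cons, List.not_mem_nil,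
    or_false, exists_eq_or_imp, exists_eq_left, ev_wtM c ν u hu5, ev_wtM c ν v hw5]
  push_cast at key
  rcases le_total ((((c.wt (selF D u Ju) : ℝ) + c.wt (selF D v Jv))) / k
    - (wmod t I).ev (vv c ν)) 0 with hc | hc
  · rw [max_eq_left hc] at key
    left
    nlinarith
  · rw [max_eq_right hc] at key
    right
    have := mul_le_mul_of_nonneg_left key hk0.le
    have e : (k : ℝ) * ((((c.wt (selF D u Ju) : ℝ) + c.wt (selF D v Jv))) / k)
      = (c.wt (selF D u Ju) : ℝ) + c.wt (selF D v Jv) := by field_simp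
    nlinarith

theorem ruleC {c : Box D} {S : Finset (Ix D → ℕ)} {ν κ : ℝ}
    (hκ : 0 ≤ κ) (hT : TB c S ν κ) {t u k U : ℕ} (hv : validC t u k U = true) :
    ∃ e ∈ extC t u U, -(48 * κ) ≤ (baseC t u U).ev (vv c ν) + e.ev (vv c ν) := by
  simp only [validC, Bool.and_eq_true, Nat.ble_eq] at hv
  obtain ⟨⟨h1, hk⟩, hU⟩ := hv
  obtain ⟨t, u, v, rfl, rfl, e3, htu, htv, huv⟩ := okTU_spec h1
  obtain ⟨_, hU⟩ := multOK_spec (D := D) hU
  have key := hT.cs t u v htu htv huv (selF D t U) k (selF_subset _ _) hk (hU t)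
  rw [mass_sdiff c (selF_subset _ _)] at key
  simp only [extC, baseC, outC, e3, E.ev, ev_massM, ev_mass, ev_nu, List.mem_cons,
    List.not_mem_nil, or_false, exists_eq_or_imp, exists_eq_left]
  push_cast
  rcases le_max_iff.mp (sub_le_iff_le_add'.mpr key) with hc | hc
  · left; linarith
  · right; linarith

theorem bnM_spec {r : ℕ} (hr : r ≤ 4) : 12 ≤ bnM r ∧ bnM r ≤ 24 ∧
    (r ≠ 0 → (1 : ℝ) / (2 * r) + (bnM r : ℝ) / 24 ≤ 1) := by
  interval_cases r
  · exact ⟨by decide, by decide, fun h => absurd rfl h⟩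
  · refine ⟨by decide, by decide, fun _ => ?_⟩
    rw [show bnM 1 = 12 from rfl]; norm_num
  · refine ⟨by decide, by decide, fun _ => ?_⟩
    rw [show bnM 2 = 18 from rfl]; norm_num
  · refine ⟨by decide, by decide, fun _ => ?_⟩
    rw [show bnM 3 = 20 from rfl]; norm_num
  · refine ⟨by decide, by decide, fun _ => ?_⟩
    rw [show bnM 4 = 21 from rfl]; norm_num

theorem block_sum (c : Box D) (J : Finset (Ix D)) (n : ℕ) (hn : 0 < n) :
    ∑ j ∈ J.filter (fun j => c.e j ≠ 0),
      (1 : ℝ) / (2 * ((12 * c.mass J / (n * c.e j) + 1 : ℕ) : ℝ)) ≤ (n : ℝ) / 24 := by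
  rcases (J.filter (fun j => c.e j ≠ 0)).eq_empty_or_nonempty with h | ⟨j₀, hj₀⟩
  · rw [h, sum_empty]; positivity
  have hm : 0 < c.mass J := by
    obtain ⟨h1, h2⟩ := mem_filter.mp hj₀
    exact lt_of_lt_of_le (Nat.pos_of_ne_zero h2)
      (single_le_sum (f := c.e) (fun _ _ => Nat.zero_le _) h1)
  have hm' : (0 : ℝ) < c.mass J := by exact_mod_cast hm
  have hn' : (0 : ℝ) < n := by exact_mod_cast hn
  calc _ ≤ ∑ j ∈ J.filter (fun j => c.e j ≠ 0), (n : ℝ) / (24 * c.mass J) * c.e j := by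
        refine sum_le_sum fun j hj => ?_
        have h2 : 0 < c.e j := Nat.pos_of_ne_zero (mem_filter.mp hj).2
        have h3 : 12 * c.mass J < n * c.e j * (12 * c.mass J / (n * c.e j) + 1) :=
          Nat.lt_mul_div_succ _ (Nat.mul_pos hn h2)
        have h4 : (12 * c.mass J : ℝ)
            < n * c.e j * ((12 * c.mass J / (n * c.e j) + 1 : ℕ) : ℝ) := by exact_mod_cast h3
        have h5 : (0 : ℝ) < ((12 * c.mass J / (n * c.e j) + 1 : ℕ) : ℝ) := by positivity
        rw [div_mul_eq_mul_div, div_le_div_iff₀ (by positivity) (by positivity)]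
        nlinarith
    _ ≤ ∑ j ∈ J, (n : ℝ) / (24 * c.mass J) * c.e j :=
        sum_le_sum_of_subset_of_nonneg (filter_subset _ _) fun _ _ _ => by positivity
    _ = (n : ℝ) / 24 := by
        rw [← mul_sum, ← Nat.cast_sum]
        show (n : ℝ) / (24 * c.mass J) * (c.mass J : ℝ) = _
        field_simp

theorem mass_filter (c : Box D) (J : Finset (Ix D)) :
    c.mass (J.filter (fun j => c.e j ≠ 0)) = c.mass J := sum_filter_ne_zero J

theorem ruleM {c : Box D} {S : Finset (Ix D → ℕ)} {ν κ : ℝ} (hD : 6 ≤ D) (h : Good c S)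
    (hS : S.Nonempty) (hκ : 0 ≤ κ) (hT : TB c S ν κ) {t u I Bu Bv ib r : ℕ} (hI : I < 64)
    (hv : validM t u Bu ib r = true) :
    ∃ e ∈ extM t u I Bu Bv ib r,
      -(48 * κ) ≤ (baseM t u I Bu Bv ib r).ev (vv c ν) + e.ev (vv c ν) := by
  simp only [validM, Bool.and_eq_true, Nat.ble_eq, Bool.or_eq_true, Nat.beq_eq,
    Bool.not_eq_true'] at hv
  obtain ⟨⟨⟨h1, hr⟩, hib⟩, hb⟩ := hv
  obtain ⟨t, u, v, rfl, rfl, e3, htu, htv, huv⟩ := okTU_spec h1
  obtain ⟨hn1, hn2, hn3⟩ := bnM_spec hr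
  obtain ⟨e, he, hmax⟩ := exists_argmax (vv c ν) (extM t u I Bu Bv ib r) .zero List.mem_cons_self
  refine ⟨e, he, ?_⟩
  have h0 : 0 ≤ e.ev (vv c ν) := hmax .zero List.mem_cons_self
  have hblk : ∀ y ∈ blkM t u I Bu Bv r, y.ev (vv c ν) ≤ e.ev (vv c ν) := by
    intro y hy
    refine hmax y (List.mem_cons_of_mem _ ?_)
    cases Nat.beq r 0
    · exact List.mem_cons_of_mem _ hy
    · exact hy
  set n := bnM r with hn
  have hn0 : (0 : ℝ) < n := by exact_mod_cast (by omega : 0 < n)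
  have hn24 : (n : ℝ) ≤ 24 := by exact_mod_cast hn2
  set W := (wmod t I).ev (vv c ν) with hW
  set B := selF D u Bu ∪ selF D v Bv with hB
  have hd : Disjoint (selF D u Bu) (selF D v Bv) :=
    (disj_tm huv).mono (selF_subset _ _) (selF_subset _ _)
  have hs : B ⊆ tm D u ∪ tm D v := union_subset_union (selF_subset _ _) (selF_subset _ _)
  have hmB : (c.mass B : ℝ) = c.mass (selF D u Bu) + c.mass (selF D v Bv) := by
    rw [hB, mass_union c hd]; push_cast; ring
  have hBL : c.mass B ≤ 2 * c.L := by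
    have := mass_mono c hs
    rw [mass_union c (disj_tm huv)] at this
    have := (mass_le_wt c _).trans (h.wt_le hS u)
    have := (mass_le_wt c _).trans (h.wt_le hS v)
    omega
  have e2 : ((Nat.mul 2 n : ℕ) : ℝ) = 2 * n := by
    show ((2 * n : ℕ) : ℝ) = _
    push_cast; ring
  -- block variables
  have hcl : ∀ j ∈ B, 24 * (c.mass B : ℝ) - 2 * n * W + 2 * n * c.e j ≤ e.ev (vv c ν) := by
    intro j hj
    rcases mem_union.mp hj with hj | hj
    · have := hblk _ (mem_blks_self (cl_lt j) (mem_filter.mp hj).2)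
      simp only [E.ev, headM, e3, ev_massM, ev_xv c ν u (cl_lt j), ← hn, ← hW, e2] at this
      have h3 : (c.e j : ℝ) ≤ cm c u (cl j) := by exact_mod_cast le_cm c (selF_subset _ _ hj)
      push_cast at this
      rw [hmB]
      nlinarith
    · have := hblk _ (mem_blks (by rw [e3]; exact mem_blks_self (cl_lt j) (mem_filter.mp hj).2))
      simp only [E.ev, headM, e3, ev_massM, ev_xv c ν v (cl_lt j), ← hn, ← hW, e2] at this
      have h3 : (c.e j : ℝ) ≤ cm c v (cl j) := by exact_mod_cast le_cm c (selF_subset _ _ hj)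
      push_cast at this
      rw [hmB]
      nlinarith
  set ρ : Ix D → ℕ := fun j => 12 * c.mass B / (n * c.e j) + 1 with hρ
  set B' := B.filter (fun j => c.e j ≠ 0) with hB'
  have hρ1 : ∀ j ∈ B', n * (ρ j * c.e j) ≤ 12 * c.mass B + n * c.e j := by
    intro j _
    have := Nat.mul_div_le (12 * c.mass B) (n * c.e j)
    simp only [hρ]
    nlinarith
  have hρ2 : ∀ j ∈ B', (c.e j + 1) * ρ j ≤ 64 * (c.L + 1) := by
    intro j hj
    obtain ⟨h3, h4⟩ := mem_filter.mp hj
    have h5 : c.e j ≤ c.mass B := single_le_sum (f := c.e) (fun _ _ => Nat.zero_le _) h3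
    have h6 := hρ1 j hj
    have h7 : 1 ≤ c.e j := Nat.pos_of_ne_zero h4
    have h8 : ρ j * c.e j ≤ 2 * c.mass B := by
      by_contra hc
      push Not at hc
      nlinarith
    nlinarith
  have hρ3 : ∀ j ∈ B', (ρ j * c.e j : ℝ) ≤ W + e.ev (vv c ν) / (2 * n) := by
    intro j hj
    have h3 := hcl j (mem_filter.mp hj).1
    have h4 : (n : ℝ) * (ρ j * c.e j) ≤ 12 * c.mass B + n * c.e j := by exact_mod_cast hρ1 j hj
    rw [← sub_le_iff_le_add', le_div_iff₀ (by positivity)]
    nlinarith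
  have hsum := block_sum c B n (by omega)
  have hmax0 : max 0 (W + e.ev (vv c ν) / (2 * n) - W) = e.ev (vv c ν) / (2 * n) := by
    rw [add_sub_cancel_left, max_eq_right (by positivity)]
  have hs' : B' ⊆ tm D u ∪ tm D v := (filter_subset _ _).trans hs
  have hfin : ∀ x : ℝ, (bigE u ib r).ev (vv c ν) = x →
      ν ≤ κ + ((c.mass (selF D t I) : ℝ) + (c.mass (tm D u) + c.mass (tm D v) - (c.mass B + x))
        + (c.mass B + x) / 2 + e.ev (vv c ν) / (2 * n)) →
      -(48 * κ) ≤ (baseM t u I Bu Bv ib r).ev (vv c ν) + e.ev (vv c ν) := by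
    intro x hx key
    simp only [baseM, e3, E.ev, ev_massM, ev_mass, ev_nu, hx, ← hn]
    have := mul_le_mul_of_nonneg_left key (show (0 : ℝ) ≤ 2 * n by positivity)
    have e4 : 2 * (n : ℝ) * (e.ev (vv c ν) / (2 * n)) = e.ev (vv c ν) := by field_simp
    rw [hmB] at this
    push_cast
    nlinarith
  by_cases hr0 : r = 0
  · have key := hT.m t u v htu htv huv (selF D t I) B' ρ W _ (selF_subset _ _) hs'
      (fun j _ => Nat.le_add_left _ _) (hsum.trans (by linarith)) hρ2 hρ3 (h.modw_ev ν t hI)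
    rw [hmax0, mass_sdiff c hs', mass_filter, mass_union c (disj_tm huv)] at key
    refine hfin 0 (by subst hr0; rfl) ?_
    push_cast at key
    linarith
  · have hb' : bit Bu ib = false := hb.resolve_left hr0
    have hbeq : Nat.beq r 0 = false := by
      rw [← Bool.not_eq_true, Nat.beq_eq]; exact hr0
    set j₀ : Ix D := (u, ⟨ib, by omega⟩) with hj₀
    have hj₀u : j₀ ∈ tm D u := by simp [tm, hj₀]
    have hj₀B : j₀ ∉ B' := by
      intro hj
      rcases mem_union.mp (mem_filter.mp hj).1 with hj | hj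
      · have h3 := (mem_filter.mp hj).2
        have h4 : cl j₀ = ib := by simp only [cl, hj₀]; omega
        rw [h4, hb'] at h3
        exact absurd h3 (by simp)
      · exact disjoint_left.mp (disj_tm huv) hj₀u (selF_subset _ _ hj)
    have hx : (xv u ib).ev (vv c ν) = c.e j₀ := by
      rw [ev_xv c ν u (by omega), cm_eq c u (by omega) (by omega)]
    have hbig : 2 * n * (r * c.e j₀ - W) ≤ e.ev (vv c ν) := by
      have := hmax (.smul (Nat.mul 2 (bnM r)) (.sub (.smul r (xv u ib)) (wmod t I)))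
        (List.mem_cons_of_mem _ (by rw [hbeq]; exact List.mem_cons_self))
      simpa only [E.ev, hx, ← hn, ← hW, e2] using this
    have hs'' : insert j₀ B' ⊆ tm D u ∪ tm D v :=
      insert_subset (mem_union_left _ hj₀u) hs'
    have hupd : ∀ j ∈ B', Function.update ρ j₀ r j = ρ j := fun j hj =>
      Function.update_of_ne (by rintro rfl; exact hj₀B hj) _ _
    have heL : c.e j₀ ≤ c.L :=
      (single_le_sum (f := c.e) (fun _ _ => Nat.zero_le _) hj₀u).trans
        ((mass_le_wt c _).trans (h.wt_le hS u))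
    have key := hT.m t u v htu htv huv (selF D t I) (insert j₀ B') (Function.update ρ j₀ r) W
      (W + e.ev (vv c ν) / (2 * n)) (selF_subset _ _) hs''
      (by
        intro j hj
        rcases mem_insert.mp hj with rfl | hj
        · rw [Function.update_self]; omega
        · rw [hupd j hj]; exact Nat.le_add_left _ _)
      (by
        rw [sum_insert hj₀B, Function.update_self,
          sum_congr rfl (fun j hj => by rw [hupd j hj])]
        linarith [hn3 hr0])
      (by
        intro j hj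
        rcases mem_insert.mp hj with rfl | hj
        · rw [Function.update_self]
          have := Nat.mul_le_mul (Nat.add_le_add_right heL 1) hr
          omega
        · rw [hupd j hj]; exact hρ2 j hj)
      (by
        intro j hj
        rcases mem_insert.mp hj with rfl | hj
        · rw [Function.update_self, ← sub_le_iff_le_add', le_div_iff₀ (by positivity)]
          linarith
        · rw [hupd j hj]; exact hρ3 j hj)
      (h.modw_ev ν t hI)
    have hm : c.mass (insert j₀ B') = c.e j₀ + c.mass B := by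
      rw [← mass_filter c B]; exact sum_insert hj₀B
    rw [hmax0, mass_sdiff c hs'', hm, mass_union c (disj_tm huv)] at key
    refine hfin (c.e j₀) (by rw [bigE, hbeq]; exact hx) ?_
    push_cast at key
    linarith

theorem tools_of_TB {c : Box D} {S : Finset (Ix D → ℕ)} {ν κ : ℝ} (hD : 6 ≤ D) (h : Good c S)
    (hS : S.Nonempty) (hκ : 0 ≤ κ) (hT : TB c S ν κ) : Tools sys (vv c ν) (48 * κ) := by
  intro par hv
  simp only [sys, valid, base, LP.ext, flds, force_eq] at hv ⊢
  cases h0 : Nat.beq (fld par 0) 0 with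
  | true =>
    rw [h0, cond_true] at hv
    simp only [cond_true]
    exact ruleG hD h hκ hT (fld_lt _ _) hv
  | false =>
    rw [h0, cond_false] at hv
    simp only [cond_false]
    cases h1 : Nat.beq (fld par 0) 1 with
    | true =>
      rw [h1, cond_true] at hv
      simp only [cond_true]
      exact ruleM hD h hS hκ hT (fld_lt _ _) hv
    | false =>
      rw [h1, cond_false] at hv
      simp only [cond_false]
      exact ruleC hκ hT hv

end Pool.Agent.P.MP_9ec3f0_nt.Exc
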