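import Pool.Agent.P.MP_9ec3f0_nt.Exc.Basic

namespace Pool.Agent.P.MP_9ec3f0_nt.Exc

open Finset

private lemma tc_fib {α β : Type} [DecidableEq β] (s : Finset α) (t : Finset β) (f : α → β)
    (hf : ∀ a ∈ s, f a ∈ t) (n : ℕ) (h : ∀ a ∈ s, (s.filter (fun b => f b = f a)).card ≤ n) :
    s.card ≤ n * t.card := by
  refine Finset.card_le_mul_card_image_of_maps_to hf n fun b _ => ?_
  rcases (s.filter (fun a => f a = b)).eq_empty_or_nonempty with h0 | ⟨a, ha⟩
  · simp [h0]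
  · obtain ⟨ha', e⟩ := mem_filter.1 ha
    rw [← e]
    exact h a ha'

private def tc_res {D : ℕ} (F : Finset (Ix D)) (x : Ix D → ℕ) : Ix D → ℕ :=
  fun j => if j ∈ F then x j else 0

private def tc_box {D : ℕ} (c : Box D) (F : Finset (Ix D)) : Finset (Ix D → ℕ) :=
  Fintype.piFinset fun j => if j ∈ F then Ico (2 ^ c.e j) (2 ^ (c.e j + 1)) else {0}

private lemma tc_card_box {D : ℕ} (c : Box D) (F : Finset (Ix D)) :
    (tc_box c F).card = 2 ^ c.mass F := by
  rw [tc_box, Fintype.card_piFinset, Box.mass, ← Finset.prod_pow_eq_pow_sum]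
  have : ∀ j, (if j ∈ F then Ico (2 ^ c.e j) (2 ^ (c.e j + 1)) else {0}).card
      = if j ∈ F then 2 ^ c.e j else 1 := by
    intro j
    split_ifs
    · rw [Nat.card_Ico, pow_succ]; omega
    · simp
  simp only [this]
  rw [Finset.prod_ite_mem, univ_inter]

private lemma tc_mem_box {D : ℕ} {c : Box D} {S : Finset (Ix D → ℕ)} (h : Good c S)
    (F : Finset (Ix D)) {x : Ix D → ℕ} (hx : x ∈ S) : tc_res F x ∈ tc_box c F := by
  rw [tc_box, Fintype.mem_piFinset]
  intro j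
  unfold tc_res
  split_ifs
  · exact mem_Ico.2 ⟨h.lo x hx j, h.hi x hx j⟩
  · simp

private lemma tc_sub_eq {D : ℕ} {F G : Finset (Ix D)} (hG : G ⊆ F) {x y : Ix D → ℕ}
    (h : tc_res F x = tc_res F y) : sub x G = sub y G := by
  refine Finset.prod_congr rfl fun j hj => ?_
  have := congrFun h j
  simp only [tc_res, if_pos (hG hj)] at this
  rw [this]

private lemma tc_two {D : ℕ} {c : Box D} {S : Finset (Ix D → ℕ)} (h : Good c S) {τ : ℕ}
    (hτ : Tau c.L τ) {u v : Fin 3} (huv : u ≠ v) (a b : ℕ) :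
    (S.filter fun y => term y u = a ∧ term y v = b).card ≤ τ ^ (3 * D) := by
  have := (h.mono (filter_subset (fun y => term y u = a ∧ term y v = b) S)).recover hτ huv
    ({()} : Finset Unit) (fun _ => ()) (fun _ _ => by simp) (fun x hx y hy _ => by
      have h1 := (mem_filter.1 hx).2
      have h2 := (mem_filter.1 hy).2
      exact ⟨h1.1.trans h2.1.symm, h1.2.trans h2.2.symm⟩)
  simpa using this

private lemma tc_mono {k : ℕ} (hk : 2 ≤ k) {d a b : ℤ} (hd : 0 < d) (ha : 0 ≤ a) (hab : a < b) :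
    (a + d) ^ k - a ^ k < (b + d) ^ k - b ^ k := by
  induction k, hk using Nat.le_induction with
  | base => nlinarith
  | succ k hk ih =>
    have h1 : a ^ k < (a + d) ^ k := pow_lt_pow_left₀ (by linarith) ha (by omega)
    have h2 : (a + d) ^ k ≤ (b + d) ^ k := pow_le_pow_left₀ (by linarith) (by linarith) k
    have e1 : (a + d) ^ (k + 1) - a ^ (k + 1) = a * ((a + d) ^ k - a ^ k) + d * (a + d) ^ k := by
      ring
    have e2 : (b + d) ^ (k + 1) - b ^ (k + 1) = b * ((b + d) ^ k - b ^ k) + d * (b + d) ^ k := by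
      ring
    rw [e1, e2]
    have h3 : a * ((a + d) ^ k - a ^ k) ≤ a * ((b + d) ^ k - b ^ k) :=
      mul_le_mul_of_nonneg_left ih.le ha
    have h4 : a * ((b + d) ^ k - b ^ k) < b * ((b + d) ^ k - b ^ k) :=
      mul_lt_mul_of_pos_right hab (by linarith)
    have h5 := mul_le_mul_of_nonneg_left h2 hd.le
    linarith

private lemma tc_inj {k : ℕ} (hk : 2 ≤ k) {a a' b b' : ℤ} (ha : 0 ≤ a) (ha' : 0 ≤ a')
    (hb : 0 ≤ b) (hb' : 0 ≤ b') (hne : a ≠ a') (hd : a - a' = b - b')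
    (hp : a ^ k - a' ^ k = b ^ k - b' ^ k) : a = b ∧ a' = b' := by
  have key : ∀ {d x y : ℤ}, 0 < d → 0 ≤ x → 0 ≤ y →
      (x + d) ^ k - x ^ k = (y + d) ^ k - y ^ k → x = y := by
    intro d x y hd hx hy h
    rcases lt_trichotomy x y with h1 | h1 | h1
    · exact absurd h (tc_mono hk hd hx h1).ne
    · exact h1
    · exact absurd h (tc_mono hk hd hy h1).ne'
  rcases lt_or_gt_of_ne hne with h | h
  · have : a = b := key (d := a' - a) (by linarith) ha hb (by
      have e1 : a + (a' - a) = a' := by ring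
      have e2 : b + (a' - a) = b' := by linarith
      rw [e1, e2]; linarith)
    exact ⟨this, by linarith⟩
  · have : a' = b' := key (d := a - a') (by linarith) ha' hb' (by
      have e1 : a' + (a - a') = a := by ring
      have e2 : b' + (a - a') = b := by linarith
      rw [e1, e2]; linarith)
    exact ⟨by linarith, this⟩

private def tc_Y {D : ℕ} (U : Finset (Ix D)) (k : ℕ) (x : Ix D → ℕ) : ℕ :=
  ∏ j ∈ U, x j ^ ((j.2.val + 1) / k)

private lemma tc_term {D : ℕ} {t : Fin 3} {U : Finset (Ix D)} {k : ℕ} (hU : U ⊆ tm D t)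
    (hk : ∀ j ∈ U, k ∣ j.2.val + 1) (x : Ix D → ℕ) :
    term x t = sub x (tm D t \ U) * tc_Y U k x ^ k := by
  unfold term sub tc_Y
  rw [← Finset.prod_sdiff hU, ← Finset.prod_pow]
  congr 1
  refine Finset.prod_congr rfl fun j hj => ?_
  rw [← pow_mul, Nat.div_mul_cancel (hk j hj)]

/-- the pairs with different third term -/
private lemma tc_R2 {D : ℕ} {c : Box D} {S : Finset (Ix D → ℕ)} (h : Good c S) {τ : ℕ}
    (hτ : Tau c.L τ) {t u v : Fin 3} (htu : t ≠ u) (htv : t ≠ v) (huv : u ≠ v)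
    {U : Finset (Ix D)} {k : ℕ} (hU : U ⊆ tm D t) (hk2 : 2 ≤ k)
    (hk : ∀ j ∈ U, k ∣ j.2.val + 1) (R : Finset ((Ix D → ℕ) × (Ix D → ℕ)))
    (hR : ∀ z ∈ R, z.1 ∈ S ∧ z.2 ∈ S ∧ sub z.1 (tm D t \ U) = sub z.2 (tm D t \ U) ∧
      term z.1 u = term z.2 u ∧ term z.1 v ≠ term z.2 v) :
    R.card ≤ (τ ^ (3 * D) * τ ^ (3 * D) * (τ * (τ * 2))) *
      (2 ^ c.mass (tm D v) * 2 ^ c.mass (tm D v)) := by
  have key : ∀ z ∈ R, ∃ s : ℤ, (s = 1 ∨ s = -1) ∧ s = -(c.σ t * c.σ v) ∧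
      (term z.1 v : ℤ) - term z.2 v = s * (sub z.1 (tm D t \ U) *
        ((tc_Y U k z.1 : ℤ) ^ k - (tc_Y U k z.2 : ℤ) ^ k)) := by
    intro z hz
    obtain ⟨h1, h2, h3, h4, -⟩ := hR z hz
    have e1 := h.eqn3 h1 htu htv huv
    have e2 := h.eqn3 h2 htu htv huv
    rw [tc_term hU hk z.1] at e1
    rw [tc_term hU hk z.2, ← h3, ← h4] at e2
    push_cast at e1 e2
    refine ⟨_, ?_, rfl, ?_⟩
    · rcases h.sgn t with a | a <;> rcases h.sgn v with b | b <;> simp [a, b]
    · rcases h.sgn t with a | a <;> rcases h.sgn v with b | b <;> rw [a, b] at e1 e2 ⊢ <;>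
        linarith
  rw [← tc_card_box, ← Finset.card_product]
  refine tc_fib R _ (fun z => (tc_res (tm D v) z.1, tc_res (tm D v) z.2))
    (fun z hz => mem_product.2 ⟨tc_mem_box h _ (hR z hz).1, tc_mem_box h _ (hR z hz).2.1⟩) _
    fun z0 hz0 => ?_
  set H : ℕ := ((term z0.1 v : ℤ) - term z0.2 v).natAbs with hH
  have hH0 : H ≠ 0 := by
    rw [hH, Int.natAbs_ne_zero, sub_ne_zero]
    exact_mod_cast (hR z0 hz0).2.2.2.2
  have hlt : ∀ x ∈ S, term x v ≤ 2 ^ (64 * (c.L + 1)) := fun x hx => by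
    have h1 := h.thi x hx v
    have h2 : term x v ≤ 2 ^ c.p v * term x v := Nat.le_mul_of_pos_left _ (by positivity)
    have h3 : 2 ^ (c.L + 1) ≤ 2 ^ (64 * (c.L + 1)) := Nat.pow_le_pow_right (by norm_num) (by omega)
    omega
  have hHτ : H.divisors.card ≤ τ := by
    apply hτ
    have h1 := hlt _ (hR z0 hz0).1
    have h2 := hlt _ (hR z0 hz0).2.1
    omega
  set R' := R.filter (fun z => (tc_res (tm D v) z.1, tc_res (tm D v) z.2)
    = (tc_res (tm D v) z0.1, tc_res (tm D v) z0.2)) with hR'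
  have hv : ∀ z ∈ R', z ∈ R ∧ term z.1 v = term z0.1 v ∧ term z.2 v = term z0.2 v := by
    intro z hz
    obtain ⟨h1, h2⟩ := mem_filter.1 hz
    obtain ⟨h2, h3⟩ := Prod.mk.inj h2
    exact ⟨h1, tc_sub_eq subset_rfl h2, tc_sub_eq subset_rfl h3⟩
  have main := tc_fib R' (H.divisors ×ˢ (H.divisors ×ˢ (univ : Finset Bool)))
    (fun z => (sub z.1 (tm D t \ U), ((tc_Y U k z.1 : ℤ) - tc_Y U k z.2).natAbs,
      decide (tc_Y U k z.1 < tc_Y U k z.2))) (fun z hz => by
      obtain ⟨h1, h2, h3⟩ := hv z hz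
      obtain ⟨s, -, -, e⟩ := key z h1
      rw [h2, h3] at e
      simp only [mem_product, Nat.mem_divisors, mem_univ, and_true, ne_eq, hH0,
        not_false_eq_true]
      constructor
      · rw [hH, ← Int.natCast_dvd, e]
        exact Dvd.dvd.mul_left (Dvd.intro _ rfl) _
      · rw [hH, Int.natAbs_dvd_natAbs, e]
        exact Dvd.dvd.mul_left (Dvd.dvd.mul_left (sub_dvd_pow_sub_pow _ _ _) _) _)
    (τ ^ (3 * D) * τ ^ (3 * D)) (fun z1 hz1 => by
      refine le_trans (card_le_card (t :=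
        (S.filter fun y => term y t = term z1.1 t ∧ term y v = term z1.1 v) ×ˢ
        (S.filter fun y => term y t = term z1.2 t ∧ term y v = term z1.2 v)) fun z hz => ?_) ?_
      · obtain ⟨hz, he⟩ := mem_filter.1 hz
        obtain ⟨a1, a2, a3⟩ := hv z hz
        obtain ⟨b1, b2, b3⟩ := hv z1 hz1
        obtain ⟨s, hs, hs1, e⟩ := key z a1
        obtain ⟨s', -, hs2, e'⟩ := key z1 b1
        obtain ⟨c1, c2⟩ := Prod.mk.inj he
        obtain ⟨c2, c3⟩ := Prod.mk.inj c2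
        have c4 : tc_Y U k z.1 < tc_Y U k z.2 ↔ tc_Y U k z1.1 < tc_Y U k z1.2 := by simpa using c3
        have hpos : (0 : ℤ) < sub z1.1 (tm D t \ U) := by exact_mod_cast h.pos (hR z1 b1).1 _
        have hs0 : s ≠ 0 := by rcases hs with a | a <;> simp [a]
        have hp : (tc_Y U k z.1 : ℤ) ^ k - (tc_Y U k z.2 : ℤ) ^ k
            = (tc_Y U k z1.1 : ℤ) ^ k - (tc_Y U k z1.2 : ℤ) ^ k := by
          rw [a2, a3, c1] at e
          rw [b2, b3, e, hs2, ← hs1] at e'
          exact mul_left_cancel₀ hpos.ne' (mul_left_cancel₀ hs0 e')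
        have hne : (tc_Y U k z.1 : ℤ) ≠ tc_Y U k z.2 := by
          intro hh
          rw [hh, sub_self, mul_zero, mul_zero, sub_eq_zero] at e
          exact (hR z a1).2.2.2.2 (by exact_mod_cast e)
        obtain ⟨d1, d2⟩ := tc_inj hk2 (by positivity) (by positivity) (by positivity)
          (by positivity) hne (by omega) hp
        have d1' : tc_Y U k z.1 = tc_Y U k z1.1 := by exact_mod_cast d1
        have d2' : tc_Y U k z.2 = tc_Y U k z1.2 := by exact_mod_cast d2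
        refine mem_product.2 ⟨mem_filter.2 ⟨(hR z a1).1, ?_, a2.trans b2.symm⟩,
          mem_filter.2 ⟨(hR z a1).2.1, ?_, a3.trans b3.symm⟩⟩
        · rw [tc_term hU hk, tc_term hU hk, c1, d1']
        · rw [tc_term hU hk, tc_term hU hk, ← (hR z a1).2.2.1, ← (hR z1 b1).2.2.1, c1, d2']
      · rw [card_product]
        exact Nat.mul_le_mul (tc_two h hτ htv _ _) (tc_two h hτ htv _ _))
  refine main.trans (Nat.mul_le_mul_left _ ?_)
  rw [card_product, card_product]
  exact Nat.mul_le_mul hHτ (Nat.mul_le_mul hHτ (by simp))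

private lemma tc_cs {α β : Type} [DecidableEq α] [DecidableEq β] (s : Finset α) (t : Finset β)
    (f : α → β) (hf : ∀ a ∈ s, f a ∈ t) :
    s.card ^ 2 ≤ t.card * ((s ×ˢ s).filter fun z => f z.1 = f z.2).card := by
  have h1 := Finset.card_eq_sum_card_fiberwise (s := s) (t := t) (f := f) (fun a ha => hf a ha)
  have h2 := Finset.card_eq_sum_card_fiberwise (s := (s ×ˢ s).filter fun z => f z.1 = f z.2)
    (t := t) (f := fun z => f z.1) (fun z hz => hf _ (mem_product.1 (mem_filter.1 hz).1).1)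
  rw [h1, h2]
  refine sq_sum_le_card_mul_sum_sq.trans (le_of_eq ?_)
  congr 1
  refine Finset.sum_congr rfl fun b _ => ?_
  rw [sq, ← card_product]
  congr 1
  ext z
  simp only [mem_product, mem_filter]
  constructor
  · rintro ⟨⟨a, b⟩, c, d⟩
    exact ⟨⟨⟨a, c⟩, b.trans d.symm⟩, b⟩
  · rintro ⟨⟨⟨a, c⟩, b⟩, d⟩
    exact ⟨⟨a, d⟩, c, b.symm.trans d⟩

theorem toolC (D : ℕ) : ∃ K : ℕ, ∀ (c : Box D) (S : Finset (Ix D → ℕ)) (τ : ℕ),
    Good c S → Tau c.L τ → ∀ t u v : Fin 3, t ≠ u → t ≠ v → u ≠ v →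
    ∀ (U : Finset (Ix D)) (k : ℕ), U ⊆ tm D t → 2 ≤ k → (∀ j ∈ U, k ∣ j.2.val + 1) →
      (S.card : ℝ) ≤ (2 * τ : ℝ) ^ K * (2 : ℝ) ^
        (max ((c.mass (tm D t \ U) : ℝ) + c.mass (tm D u))
          (((c.mass (tm D t \ U) : ℝ) + c.mass (tm D u)) / 2 + c.mass (tm D v))) := by
  refine ⟨3 * D + 1, fun c S τ h hτ t u v htu htv huv U k hU hk2 hk => ?_⟩
  set O := (tm D t \ U) ∪ tm D u with hO
  have hmass : c.mass O = c.mass (tm D t \ U) + c.mass (tm D u) := by
    unfold Box.mass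
    refine Finset.sum_union (Finset.disjoint_left.2 fun j h1 h2 => htu ?_)
    have h1 := (mem_filter.1 (mem_sdiff.1 h1).1).2
    have h2 := (mem_filter.1 h2).2
    exact h1.symm.trans h2
  have hcs := tc_cs S (tc_box c O) (tc_res O) (fun x hx => tc_mem_box h O hx)
  rw [tc_card_box] at hcs
  set R := (S ×ˢ S).filter fun z => tc_res O z.1 = tc_res O z.2 with hRdef
  have hsplit := Finset.card_filter_add_card_filter_not (s := R)
    (fun z => term z.1 v = term z.2 v)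
  have h1 : (R.filter fun z => term z.1 v = term z.2 v).card ≤ τ ^ (3 * D) * S.card := by
    refine tc_fib _ S (fun z => z.1)
      (fun z hz => (mem_product.1 (mem_filter.1 (mem_filter.1 hz).1).1).1) _ fun z0 _ => ?_
    refine le_trans ?_ (tc_two h hτ huv (term z0.1 u) (term z0.1 v))
    refine Finset.card_le_card_of_injOn (fun z => z.2) (fun z hz => ?_) fun z hz z' hz' e => ?_
    · obtain ⟨hz, e⟩ := mem_filter.1 (mem_coe.1 hz)
      obtain ⟨hz, e1⟩ := mem_filter.1 hz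
      obtain ⟨hz, e2⟩ := mem_filter.1 hz
      refine mem_coe.2 (mem_filter.2 ⟨(mem_product.1 hz).2, ?_, ?_⟩)
      · rw [← e]; exact (tc_sub_eq subset_union_right e2).symm
      · rw [← e]; exact e1.symm
    · exact Prod.ext (((mem_filter.1 (mem_coe.1 hz)).2).trans
        ((mem_filter.1 (mem_coe.1 hz')).2).symm) e
  have h2 := tc_R2 h hτ htu htv huv hU hk2 hk (R.filter fun z => ¬ term z.1 v = term z.2 v)
    (fun z hz => by
      obtain ⟨hz, e1⟩ := mem_filter.1 hz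
      obtain ⟨hz, e2⟩ := mem_filter.1 hz
      exact ⟨(mem_product.1 hz).1, (mem_product.1 hz).2, tc_sub_eq subset_union_left e2,
        tc_sub_eq subset_union_right e2, e1⟩)
  have hτ1 : (1 : ℝ) ≤ τ := by exact_mod_cast hτ.one_le
  have hmass' : (c.mass (tm D t \ U) : ℝ) + c.mass (tm D u) = c.mass O := by
    rw [hmass]; push_cast; ring
  rw [hmass']
  set o := c.mass O
  set m := c.mass (tm D v)
  have h3 : (S.card : ℝ) ^ 2 ≤ 2 ^ o * ((τ : ℝ) ^ (3 * D) * S.card +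
      ((τ : ℝ) ^ (3 * D) * τ ^ (3 * D) * (τ * (τ * 2))) * (2 ^ m * 2 ^ m)) := by
    have : S.card ^ 2 ≤ 2 ^ o * (τ ^ (3 * D) * S.card +
      (τ ^ (3 * D) * τ ^ (3 * D) * (τ * (τ * 2))) * (2 ^ m * 2 ^ m)) :=
      hcs.trans (Nat.mul_le_mul_left _ (by omega))
    exact_mod_cast this
  have hK : 2 * (τ : ℝ) ^ (3 * D) * τ ≤ (2 * τ : ℝ) ^ (3 * D + 1) := by
    rw [mul_pow, pow_succ, pow_succ]
    have : (1 : ℝ) ≤ 2 ^ (3 * D) := one_le_pow₀ (by norm_num)
    have h0 : (0 : ℝ) ≤ 2 * (τ : ℝ) ^ (3 * D) * τ := by positivity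
    nlinarith
  have hA : (0 : ℝ) < (τ : ℝ) ^ (3 * D) := by positivity
  by_cases hc : (S.card : ℝ) ≤ 2 * (τ : ℝ) ^ (3 * D) * 2 ^ o
  · refine hc.trans (mul_le_mul (le_trans ?_ hK) ?_ (by positivity) (by positivity))
    · nlinarith
    · rw [← Real.rpow_natCast]
      exact Real.rpow_le_rpow_of_exponent_le (by norm_num) (le_max_left _ _)
  · push Not at hc
    set w : ℝ := (2 : ℝ) ^ ((o : ℝ) / 2 + m) with hw
    have hw0 : 0 < w := by positivity
    have hw2 : w ^ 2 = 2 ^ o * (2 ^ m * 2 ^ m) := by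
      rw [hw, ← Real.rpow_natCast, ← Real.rpow_mul (by norm_num), ← pow_add, ← pow_add,
        ← Real.rpow_natCast]
      congr 1
      push_cast
      ring
    have h4 : (S.card : ℝ) ^ 2 ≤ (2 * (τ : ℝ) ^ (3 * D) * τ * w) ^ 2 := by
      have hs0 : (0 : ℝ) ≤ S.card := by positivity
      have h5 : 2 * (τ : ℝ) ^ (3 * D) * 2 ^ o * S.card ≤ (S.card : ℝ) * S.card :=
        mul_le_mul_of_nonneg_right hc.le hs0
      rw [mul_pow, hw2]
      nlinarith
    have h5 := (pow_le_pow_iff_left₀ (by positivity) (by positivity) two_ne_zero).1 h4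
    refine h5.trans (mul_le_mul hK ?_ hw0.le (by positivity))
    exact Real.rpow_le_rpow_of_exponent_le (by norm_num) (le_max_right _ _)

end Pool.Agent.P.MP_9ec3f0_nt.Exc
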