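import Pool.Agent.P.MP_9ec3f0_nt.Exc.Basic
import Pool.Agent.P.MP_9ec3f0_nt.Exc.Roots

namespace Pool.Agent.P.MP_9ec3f0_nt.Exc

open Finset

theorem toolG_fibre (α : ℕ) (hα : α ≠ 0) (Q : Finset (ℕ × ℕ)) (W₀ W₁ : ℕ) (hW : 0 < W₀) (Δ : ℝ)
    (hΔ : 0 ≤ Δ) (hc : ∀ z ∈ Q, Nat.Coprime z.1 z.2) (hw : ∀ z ∈ Q, W₀ ≤ z.2 ∧ z.2 ≤ W₁)
    (hd : ∀ z ∈ Q, ∀ z' ∈ Q, (α : ℤ) ∣ (z.1 : ℤ) * z'.2 - z'.1 * z.2)
    (hx : ∀ z ∈ Q, ∀ z' ∈ Q, (z.1 : ℝ) * z'.2 - z'.1 * z.2 ≤ Δ) :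
    (Q.card : ℝ) ≤ (2 * Δ / α + 1) * ((W₁ : ℝ) / W₀ + 1) := by
  have hα' : (0 : ℝ) < α := by positivity
  rcases Q.eq_empty_or_nonempty with rfl | ⟨⟨v₁, w₁⟩, h₁⟩
  · simp only [card_empty, Nat.cast_zero]; positivity
  set N : ℕ := ⌊Δ / α⌋₊ with hN
  have hw₁ := hw _ h₁
  simp only at hw₁
  have hcard : Q.card ≤ ((Icc (-(N : ℤ)) N) ×ˢ range (W₁ / W₀ + 1)).card := by
    refine card_le_card_of_injOn
      (fun z => ((((z.1 : ℤ) * w₁ - v₁ * z.2) / α : ℤ), z.2 / w₁)) ?_ ?_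
    · rintro ⟨v, w⟩ hz
      have hz : (v, w) ∈ Q := hz
      obtain ⟨m, hm⟩ := hd _ hz _ h₁
      simp only at hm
      have e1 := hx _ hz _ h₁
      have e2 := hx _ h₁ _ hz
      simp only at e1 e2
      have hm' : (v : ℝ) * w₁ - v₁ * w = α * m := by exact_mod_cast hm
      simp only [coe_product, coe_Icc, coe_range, Set.mem_prod, Set.mem_Icc, Set.mem_Iio]
      rw [hm, Int.mul_ediv_cancel_left _ (by exact_mod_cast hα)]
      have habs : |(m : ℝ)| ≤ Δ / α := by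
        rw [le_div_iff₀ hα']
        rcases abs_cases (m : ℝ) with h | h <;> rw [h.1] <;> nlinarith
      have hN' : m.natAbs ≤ N := by
        apply Nat.le_floor
        rw [Nat.cast_natAbs]
        exact_mod_cast habs
      refine ⟨⟨by omega, by omega⟩, ?_⟩
      have := hw _ hz
      simp only at this
      exact Nat.lt_succ_of_le ((Nat.div_le_div_right this.2).trans
        (Nat.div_le_div_left hw₁.1 hW))
    · rintro ⟨v, w⟩ hz ⟨v', w'⟩ hz' h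
      have hz : (v, w) ∈ Q := hz
      have hz' : (v', w') ∈ Q := hz'
      obtain ⟨m, hm⟩ := hd _ hz _ h₁
      obtain ⟨m', hm'⟩ := hd _ hz' _ h₁
      simp only [Prod.mk.injEq] at hm hm' h ⊢
      rw [hm, hm', Int.mul_ediv_cancel_left _ (by exact_mod_cast hα),
        Int.mul_ediv_cancel_left _ (by exact_mod_cast hα)] at h
      obtain ⟨rfl, hq⟩ := h
      have hcop : IsCoprime (w₁ : ℤ) (v₁ : ℤ) := Nat.isCoprime_iff_coprime.2 (hc _ h₁).symm
      have hdv : (w₁ : ℤ) ∣ (w : ℤ) - w' := by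
        apply hcop.dvd_of_dvd_mul_left
        exact ⟨(v : ℤ) - v', by linear_combination hm' - hm⟩
      have hmod : w' ≡ w [MOD w₁] := (Nat.modEq_iff_dvd).2 hdv
      have hww : w = w' := by
        rw [← Nat.div_add_mod w w₁, ← Nat.div_add_mod w' w₁, hq, hmod]
      subst hww
      refine ⟨?_, rfl⟩
      have : (v : ℤ) * w₁ = v' * w₁ := by linear_combination hm - hm'
      have h0 : (w₁ : ℤ) ≠ 0 := by
        have : 0 < w₁ := by omega
        positivity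
      exact_mod_cast mul_right_cancel₀ h0 this
  rw [card_product, Int.card_Icc, card_range] at hcard
  have h2 : ((N : ℤ) + 1 - -(N : ℤ)).toNat = 2 * N + 1 := by omega
  rw [h2] at hcard
  have h3 : (N : ℝ) ≤ Δ / α := Nat.floor_le (by positivity)
  have h4 : ((W₁ / W₀ : ℕ) : ℝ) ≤ (W₁ : ℝ) / W₀ := Nat.cast_div_le
  calc (Q.card : ℝ) ≤ (2 * N + 1) * (((W₁ / W₀ : ℕ) : ℝ) + 1) := by exact_mod_cast hcard
    _ ≤ _ := by
      rw [mul_div_assoc]
      gcongr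

theorem core (α β γ k : ℕ) (σ₁ σ₂ : ℤ) (h₁ : σ₁ = 1 ∨ σ₁ = -1) (h₂ : σ₂ = 1 ∨ σ₂ = -1)
    (hα : α ≠ 0) (hk : 1 ≤ k) (P : Finset (ℕ × ℕ)) (W₀ W₁ : ℕ) (hW : 0 < W₀) (Δ : ℝ) (hΔ : 0 ≤ Δ)
    (hc : ∀ z ∈ P, Nat.Coprime z.1 z.2) (hw : ∀ z ∈ P, W₀ ≤ z.2 ∧ z.2 ≤ W₁)
    (hu : ∀ z ∈ P, Nat.Coprime (β * z.1) α ∧ Nat.Coprime (γ * z.2) α)
    (hd : ∀ z ∈ P, (α : ℤ) ∣ σ₁ * (β * (z.1 : ℤ) ^ k) + σ₂ * (γ * (z.2 : ℤ) ^ k))
    (hx : ∀ z ∈ P, ∀ z' ∈ P, (z.1 : ℝ) * z'.2 - z'.1 * z.2 ≤ Δ) :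
    (P.card : ℝ) ≤ (α.divisors.card : ℝ) ^ k * (2 * Δ / α + 1) * ((W₁ : ℝ) / W₀ + 1) := by
  classical
  have : NeZero α := ⟨hα⟩
  rcases P.eq_empty_or_nonempty with rfl | ⟨z₀, h₀⟩
  · simp only [card_empty, Nat.cast_zero]; positivity
  let un : ℕ → (ZMod α)ˣ := fun y => if h : Nat.Coprime y α then ZMod.unitOfCoprime y h else 1
  have hun : ∀ y, Nat.Coprime y α → ((un y : (ZMod α)ˣ) : ZMod α) = y := by
    intro y hy
    simp only [un, dif_pos hy, ZMod.coe_unitOfCoprime]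
  have c1 : ∀ z ∈ P, Nat.Coprime z.1 α := fun z hz => Nat.Coprime.coprime_mul_left (hu z hz).1
  have c2 : ∀ z ∈ P, Nat.Coprime z.2 α := fun z hz => Nat.Coprime.coprime_mul_left (hu z hz).2
  have cβ : Nat.Coprime β α := Nat.Coprime.coprime_mul_right (hu z₀ h₀).1
  let ζ : ℕ × ℕ → (ZMod α)ˣ := fun z => un z.1 * un z₀.2 * (un z₀.1 * un z.2)⁻¹
  have hζ : ∀ z ∈ P, ζ z ∈ univ.filter (fun z : (ZMod α)ˣ => z ^ k = 1) := by
    intro z hz
    simp only [mem_filter, mem_univ, true_and, ζ]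
    rw [mul_pow, inv_pow, mul_inv_eq_one]
    apply mul_left_cancel (a := un β)
    apply Units.ext
    simp only [Units.val_mul, Units.val_pow_eq_pow_val, hun _ cβ, hun _ (c1 _ hz), hun _ (c2 _ hz),
      hun _ (c1 _ h₀), hun _ (c2 _ h₀)]
    have e1 := (ZMod.intCast_zmod_eq_zero_iff_dvd _ α).2 (hd z hz)
    have e2 := (ZMod.intCast_zmod_eq_zero_iff_dvd _ α).2 (hd z₀ h₀)
    push_cast at e1 e2
    rw [mul_pow, mul_pow]
    rcases h₁ with rfl | rfl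
    · push_cast at e1 e2
      linear_combination (z₀.2 : ZMod α) ^ k * e1 - (z.2 : ZMod α) ^ k * e2
    · push_cast at e1 e2
      linear_combination -(z₀.2 : ZMod α) ^ k * e1 + (z.2 : ZMod α) ^ k * e2
  rw [card_eq_sum_card_fiberwise hζ, Nat.cast_sum, mul_assoc]
  refine (sum_le_card_nsmul _ _ ((2 * Δ / α + 1) * ((W₁ : ℝ) / W₀ + 1)) ?_).trans ?_
  · intro r _
    refine toolG_fibre α hα _ W₀ W₁ hW Δ hΔ (fun z hz => hc z (mem_filter.1 hz).1)
      (fun z hz => hw z (mem_filter.1 hz).1) ?_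
      (fun z hz z' hz' => hx z (mem_filter.1 hz).1 z' (mem_filter.1 hz').1)
    intro z hz z' hz'
    obtain ⟨hz, e⟩ := mem_filter.1 hz
    obtain ⟨hz', e'⟩ := mem_filter.1 hz'
    have e3 : un z.1 * un z'.2 = un z'.1 * un z.2 := by
      have := e.trans e'.symm
      simp only [ζ] at this
      calc un z.1 * un z'.2
          = (un z.1 * un z₀.2 * (un z₀.1 * un z.2)⁻¹) * (un z₀.1 * un z.2 * un z'.2 * (un z₀.2)⁻¹) := by
            simp only [mul_inv, mul_assoc, mul_comm, mul_left_comm, mul_inv_cancel_left]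
        _ = _ := by
            rw [this]
            simp only [mul_inv, mul_assoc, mul_comm, mul_left_comm, mul_inv_cancel_left,
              mul_inv_cancel, one_mul]
    have e4 := congrArg Units.val e3
    simp only [Units.val_mul, hun _ (c1 _ hz), hun _ (c2 _ hz), hun _ (c1 _ hz'),
      hun _ (c2 _ hz')] at e4
    rw [← ZMod.intCast_zmod_eq_zero_iff_dvd]
    push_cast
    linear_combination e4
  · rw [nsmul_eq_mul]
    have : ((univ.filter (fun z : (ZMod α)ˣ => z ^ k = 1)).card : ℝ) ≤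
        (α.divisors.card : ℝ) ^ k := by exact_mod_cast roots_le α k hk
    gcongr

theorem toolG_root {T p q k : ℕ} (hk : 1 ≤ k) (hq : 0 < q) (h : T * p ^ k ≤ (T + 16) * q ^ k) :
    T * p ≤ (T + 16) * q := by
  by_contra hlt
  push Not at hlt
  have hpq : q ≤ p := by
    by_contra h'
    push Not at h'
    nlinarith
  obtain ⟨k, rfl⟩ : ∃ k', k = k' + 1 := ⟨k - 1, by omega⟩
  have h1 : q ^ k ≤ p ^ k := Nat.pow_le_pow_left hpq k
  have h2 : 0 < q ^ k := by positivity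
  rw [pow_succ, pow_succ] at h
  nlinarith [Nat.mul_le_mul_left (T * p) h1, Nat.mul_lt_mul_of_pos_right hlt h2]

/-- The `k`-th root of the part of a term indexed by `J`. -/
def toolG_rt {D : ℕ} (k : ℕ) (x : Ix D → ℕ) (F : Finset (Ix D)) : ℕ :=
  ∏ j ∈ F, x j ^ ((j.2.val + 1) / k)

theorem toolG_rt_pow {D : ℕ} (k : ℕ) (x : Ix D → ℕ) (F : Finset (Ix D))
    (h : ∀ j ∈ F, k ∣ j.2.val + 1) : toolG_rt k x F ^ k = sub x F := by
  unfold toolG_rt sub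
  rw [← prod_pow]
  refine prod_congr rfl fun j hj => ?_
  rw [← pow_mul, Nat.div_mul_cancel (h j hj)]

theorem toolG_rt_lo {D : ℕ} {c : Box D} {S : Finset (Ix D → ℕ)} (h : Good c S) {x : Ix D → ℕ}
    (hx : x ∈ S) (k : ℕ) (F : Finset (Ix D)) :
    2 ^ (∑ j ∈ F, (j.2.val + 1) / k * c.e j) ≤ toolG_rt k x F := by
  unfold toolG_rt
  rw [← prod_pow_eq_pow_sum]
  refine prod_le_prod' fun j _ => ?_
  rw [mul_comm, pow_mul]
  exact Nat.pow_le_pow_left (h.lo x hx j) _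

theorem toolG_rt_hi {D : ℕ} {c : Box D} {S : Finset (Ix D → ℕ)} (h : Good c S) {x : Ix D → ℕ}
    (hx : x ∈ S) (k : ℕ) (F : Finset (Ix D)) (hF : F.card ≤ D) :
    toolG_rt k x F ≤ 2 ^ (∑ j ∈ F, (j.2.val + 1) / k * c.e j) * 2 ^ (D ^ 2) := by
  unfold toolG_rt
  calc ∏ j ∈ F, x j ^ ((j.2.val + 1) / k)
      ≤ ∏ j ∈ F, (2 ^ ((j.2.val + 1) / k * c.e j) * 2 ^ D) := by
        refine prod_le_prod' fun j _ => ?_
        refine (Nat.pow_le_pow_left (h.hi x hx j).le _).trans ?_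
        rw [← pow_mul, ← pow_add]
        apply Nat.pow_le_pow_right (by norm_num)
        have h1 : (j.2.val + 1) / k ≤ D := (Nat.div_le_self _ _).trans j.2.isLt
        nlinarith
    _ = 2 ^ (∑ j ∈ F, (j.2.val + 1) / k * c.e j) * 2 ^ (D * F.card) := by
        rw [prod_mul_distrib, prod_pow_eq_pow_sum, prod_const, ← pow_mul]
    _ ≤ _ := by
        apply Nat.mul_le_mul_left
        apply Nat.pow_le_pow_right (by norm_num)
        nlinarith

theorem toolG_disj (D : ℕ) {t u : Fin 3} (h : t ≠ u) : Disjoint (tm D t) (tm D u) := by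
  rw [disjoint_left]
  intro j h1 h2
  simp only [tm, mem_filter, mem_univ, true_and] at h1 h2
  exact h (h1.symm.trans h2)

theorem toolG (D : ℕ) : ∃ K : ℕ, ∀ (c : Box D) (S : Finset (Ix D → ℕ)) (τ : ℕ),
    Good c S → Tau c.L τ → ∀ t u v : Fin 3, t ≠ u → t ≠ v → u ≠ v →
    ∀ (I J : Finset (Ix D)) (k : ℕ) (W : ℝ), I ⊆ tm D t → J ⊆ tm D u ∪ tm D v →
      1 ≤ k → k ≤ D → (∀ j ∈ J, k ∣ j.2.val + 1) → Modw c S t I W →
      (S.card : ℝ) ≤ (2 * τ : ℝ) ^ K * (2 : ℝ) ^ ((c.mass I : ℝ) + c.mass ((tm D u ∪ tm D v) \ J)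
        + max 0 ((c.wt J : ℝ) / k - W)) := by
  classical
  refine ⟨3 * D + D + (6 + 3 * D ^ 2) + (D ^ 2 + 1), ?_⟩
  intro c S τ hS hτ t u v htu htv huv I J k W hI hJ hk hkD hkJ hM
  set Ω : ℝ := max 0 ((c.wt J : ℝ) / k - W) with hΩ
  set K : ℕ := 3 * D + D + (6 + 3 * D ^ 2) + (D ^ 2 + 1) with hK
  have hτ1 : (1 : ℝ) ≤ τ := by exact_mod_cast hτ.one_le
  have hdis : Disjoint I ((tm D u ∪ tm D v) \ J) :=
    Disjoint.mono hI sdiff_subset
      (disjoint_union_right.2 ⟨toolG_disj D htu, toolG_disj D htv⟩)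
  have hmass : c.mass (I ∪ (tm D u ∪ tm D v) \ J) = c.mass I + c.mass ((tm D u ∪ tm D v) \ J) :=
    sum_union hdis
  refine (hS.proj (I ∪ (tm D u ∪ tm D v) \ J) ((2 * τ : ℝ) ^ K * (2 : ℝ) ^ Ω) (by positivity)
    ?_).trans (le_of_eq ?_)
  swap
  · rw [hmass, Real.rpow_add (by norm_num), ← Nat.cast_add, Real.rpow_natCast]
    ring
  intro x₀ hx₀
  set S₀ := S.filter (fun y => ∀ j ∈ I ∪ (tm D u ∪ tm D v) \ J, y j = x₀ j) with hS₀
  have hsub : S₀ ⊆ S := filter_subset _ _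
  have hG : Good c S₀ := hS.mono hsub
  set α := sub x₀ I with hα
  set β := sub x₀ (tm D u \ J) with hβ
  set γ := sub x₀ (tm D v \ J) with hγ
  let f : (Ix D → ℕ) → ℕ × ℕ := fun y => (toolG_rt k y (tm D u ∩ J), toolG_rt k y (tm D v ∩ J))
  have agree : ∀ y ∈ S₀, ∀ F ⊆ I ∪ (tm D u ∪ tm D v) \ J, sub y F = sub x₀ F := by
    intro y hy F hF
    refine prod_congr rfl fun j hj => ?_
    rw [(mem_filter.1 hy).2 j (hF hj)]
  have split : ∀ (y : Ix D → ℕ) (w : Fin 3),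
      term y w = sub y (tm D w \ J) * toolG_rt k y (tm D w ∩ J) ^ k := by
    intro y w
    rw [toolG_rt_pow k y _ (fun j hj => hkJ j (mem_inter.1 hj).2)]
    unfold term sub
    rw [mul_comm, prod_inter_mul_prod_sdiff]
  have hB : ∀ y ∈ S₀, term y u = β * (f y).1 ^ k := by
    intro y hy
    rw [split, agree y hy _ ((sdiff_subset_sdiff subset_union_left subset_rfl).trans
      subset_union_right)]
  have hC : ∀ y ∈ S₀, term y v = γ * (f y).2 ^ k := by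
    intro y hy
    rw [split, agree y hy _ ((sdiff_subset_sdiff subset_union_right subset_rfl).trans
      subset_union_right)]
  have hA : ∀ y ∈ S₀, α ∣ term y t := by
    intro y hy
    rw [hα, ← agree y hy I subset_union_left]
    exact prod_dvd_prod_of_subset _ _ _ hI
  have hrec := hG.recover hτ huv (S₀.image f) f (fun y hy => mem_image_of_mem f hy)
    (fun y hy y' hy' e => by rw [hB y hy, hB y' hy', hC y hy, hC y' hy', e]; exact ⟨rfl, rfl⟩)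
  set a : ℕ := ∑ j ∈ tm D v ∩ J, (j.2.val + 1) / k * c.e j with ha
  set b : ℕ := ∑ j ∈ tm D u ∩ J, (j.2.val + 1) / k * c.e j with hb
  have hab : (c.wt J : ℝ) / k = (a + b : ℕ) := by
    have hk' : (0 : ℝ) < k := by positivity
    rw [div_eq_iff hk'.ne']
    have hJ' : J = (tm D v ∩ J) ∪ (tm D u ∩ J) := by
      rw [← union_inter_distrib_right, union_comm, inter_eq_right.2 hJ]
    have : c.wt J = (a + b) * k := by
      rw [ha, hb, ← sum_union (Disjoint.mono inter_subset_left inter_subset_left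
        (toolG_disj D huv.symm)), ← hJ', sum_mul]
      refine sum_congr rfl fun j hj => ?_
      rw [mul_right_comm, Nat.div_mul_cancel (hkJ j hj)]
    exact_mod_cast this
  have hcard : ∀ w, (tm D w ∩ J).card ≤ D := fun w =>
    (card_le_card inter_subset_left).trans (card_tm D w).le
  have hαpos : 0 < α := hS.pos hx₀ I
  have hβpos : 0 < β := hS.pos hx₀ _
  have hγpos : 0 < γ := hS.pos hx₀ _
  set T : ℕ := 2 ^ c.p t with hT
  have hTpos : (0 : ℝ) < T := by positivity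
  have hdvd : ∀ n m : ℕ, n * m ∣ n * m ^ k := fun n m =>
    Nat.mul_dvd_mul_left n (dvd_pow_self m (by omega))
  have hcore := core α β γ k (c.σ u) (c.σ v) (hS.sgn u) (hS.sgn v) hαpos.ne' hk (S₀.image f)
    (2 ^ a) (2 ^ a * 2 ^ (D ^ 2)) (by positivity)
    (16 * ((2 : ℝ) ^ (a + b) * 2 ^ (2 * D ^ 2)) / T) (by positivity) ?_ ?_ ?_ ?_ ?_
  rotate_left
  · intro z hz
    obtain ⟨y, hy, rfl⟩ := mem_image.1 hz
    have := hG.cop y hy u v huv
    rw [hB y hy, hC y hy] at this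
    exact Nat.Coprime.coprime_dvd_left ((Dvd.intro_left _ rfl).trans (hdvd _ _))
      (Nat.Coprime.coprime_dvd_right ((Dvd.intro_left _ rfl).trans (hdvd _ _)) this)
  · intro z hz
    obtain ⟨y, hy, rfl⟩ := mem_image.1 hz
    exact ⟨toolG_rt_lo hG hy k _, toolG_rt_hi hG hy k _ (hcard v)⟩
  · intro z hz
    obtain ⟨y, hy, rfl⟩ := mem_image.1 hz
    have e1 := hG.cop y hy u t htu.symm
    have e2 := hG.cop y hy v t htv.symm
    rw [hB y hy] at e1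
    rw [hC y hy] at e2
    exact ⟨Nat.Coprime.coprime_dvd_left (hdvd _ _) (Nat.Coprime.coprime_dvd_right (hA y hy) e1),
      Nat.Coprime.coprime_dvd_left (hdvd _ _) (Nat.Coprime.coprime_dvd_right (hA y hy) e2)⟩
  · intro z hz
    obtain ⟨y, hy, rfl⟩ := mem_image.1 hz
    have e := hG.eqn3 hy htu htv huv
    rw [hB y hy, hC y hy] at e
    push_cast at e
    have e2 : (α : ℤ) ∣ -(c.σ t * (term y t : ℤ)) :=
      (Dvd.dvd.mul_left (Int.natCast_dvd_natCast.2 (hA y hy)) _).neg_right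
    convert e2 using 1
    linarith
  · intro z hz z' hz'
    obtain ⟨y, hy, rfl⟩ := mem_image.1 hz
    obtain ⟨y', hy', rfl⟩ := mem_image.1 hz'
    have e := hG.close y hy y' hy' t u v htu htv huv
    rw [hB y hy, hC y hy, hB y' hy', hC y' hy'] at e
    have l1 := toolG_rt_lo hG hy' k (tm D u ∩ J)
    have l2 := toolG_rt_lo hG hy k (tm D v ∩ J)
    have u1 := toolG_rt_hi hG hy' k (tm D u ∩ J) (hcard u)
    have u2 := toolG_rt_hi hG hy k (tm D v ∩ J) (hcard v)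
    have hq : 0 < (f y').1 * (f y).2 :=
      Nat.mul_pos (lt_of_lt_of_le (by positivity) l1) (lt_of_lt_of_le (by positivity) l2)
    have e2 : T * ((f y).1 * (f y').2) ^ k ≤ (T + 16) * ((f y').1 * (f y).2) ^ k := by
      apply Nat.le_of_mul_le_mul_left (c := β * γ) _ (by positivity)
      rw [mul_pow, mul_pow]
      calc β * γ * (T * ((f y).1 ^ k * (f y').2 ^ k))
          = T * (β * (f y).1 ^ k * (γ * (f y').2 ^ k)) := by ring
        _ ≤ _ := e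
        _ = _ := by ring
    have e3 := toolG_root hk hq e2
    have e4 : (f y').1 * (f y).2 ≤ 2 ^ (a + b) * 2 ^ (2 * D ^ 2) :=
      (Nat.mul_le_mul u1 u2).trans (le_of_eq (by rw [← ha, ← hb]; ring))
    have e5 : (T : ℝ) * (((f y).1 : ℝ) * (f y').2) ≤ (T + 16) * (((f y').1 : ℝ) * (f y).2) := by
      exact_mod_cast e3
    have e6 : (((f y').1 : ℝ) * (f y).2) ≤ 2 ^ (a + b) * 2 ^ (2 * D ^ 2) := by exact_mod_cast e4
    rw [le_div_iff₀ hTpos]
    nlinarith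
  have hx₀' : x₀ ∈ S₀ := mem_filter.2 ⟨hx₀, fun _ _ => rfl⟩
  have hτα : (α.divisors.card : ℝ) ≤ τ := by
    have h1 : α ≤ term x₀ t := Nat.le_of_dvd (hS.pos hx₀ _) (hA x₀ hx₀')
    have h2 := hS.thi x₀ hx₀ t
    have h3 : term x₀ t ≤ 2 ^ c.p t * term x₀ t := Nat.le_mul_of_pos_left _ (by positivity)
    have h4 : 2 ^ (c.L + 1) ≤ 2 ^ (64 * (c.L + 1)) :=
      Nat.pow_le_pow_right (by norm_num) (by omega)
    exact_mod_cast hτ α (by omega)
  have hΩ1 : (1 : ℝ) ≤ 2 ^ Ω := Real.one_le_rpow (by norm_num) (le_max_left _ _)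
  have hαr : (0 : ℝ) < α := by positivity
  have hmid : 2 * (16 * ((2 : ℝ) ^ (a + b) * 2 ^ (2 * D ^ 2)) / T) / α + 1 ≤
      2 ^ (6 + 3 * D ^ 2) * (2 : ℝ) ^ Ω := by
    have m1 := hM x₀ hx₀
    have m2 : (2 : ℝ) ^ (a + b) ≤ 2 ^ Ω * 2 ^ W := by
      rw [← Real.rpow_add (by norm_num), ← Real.rpow_natCast]
      apply Real.rpow_le_rpow_of_exponent_le (by norm_num)
      rw [← hab]
      linarith [le_max_right 0 ((c.wt J : ℝ) / k - W)]
    have m3 : (2 : ℝ) ^ (a + b) ≤ 2 ^ Ω * (2 ^ (D ^ 2) * T * α) := by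
      refine m2.trans (mul_le_mul_of_nonneg_left ?_ (by positivity))
      rw [hT]
      push_cast
      exact m1
    have m4 : 2 * (16 * ((2 : ℝ) ^ (a + b) * 2 ^ (2 * D ^ 2)) / T) / α ≤
        2 ^ (5 + 3 * D ^ 2) * (2 : ℝ) ^ Ω := by
      rw [div_le_iff₀ hαr, ← mul_div_assoc, div_le_iff₀ hTpos]
      calc 2 * (16 * ((2 : ℝ) ^ (a + b) * 2 ^ (2 * D ^ 2)))
          ≤ 2 * (16 * (2 ^ Ω * (2 ^ (D ^ 2) * T * α) * 2 ^ (2 * D ^ 2))) := by gcongr
        _ = _ := by ring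
    have m5 : (1 : ℝ) ≤ 2 ^ (5 + 3 * D ^ 2) * (2 : ℝ) ^ Ω :=
      one_le_mul_of_one_le_of_one_le (one_le_pow₀ (by norm_num)) hΩ1
    calc _ ≤ 2 * (2 ^ (5 + 3 * D ^ 2) * (2 : ℝ) ^ Ω) := by linarith
      _ = _ := by ring
  have hlast : (((2 ^ a * 2 ^ (D ^ 2) : ℕ) : ℝ) / ((2 ^ a : ℕ) : ℝ) + 1) ≤ 2 ^ (D ^ 2 + 1) := by
    push_cast
    rw [mul_div_cancel_left₀ _ (by positivity), pow_succ (2 : ℝ) (D ^ 2)]
    have : (1 : ℝ) ≤ 2 ^ (D ^ 2) := one_le_pow₀ (by norm_num)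
    linarith
  have hrec' : (S₀.card : ℝ) ≤ (τ : ℝ) ^ (3 * D) * ((S₀.image f).card : ℝ) := by
    exact_mod_cast hrec
  have t1 : (τ : ℝ) ≤ 2 * τ := by linarith
  have t2 : (2 : ℝ) ≤ 2 * τ := by linarith
  have t3 : (α.divisors.card : ℝ) ^ k ≤ (2 * τ : ℝ) ^ D :=
    (pow_le_pow_left₀ (by positivity) (hτα.trans t1) k).trans
      (pow_le_pow_right₀ (by linarith) hkD)
  calc (S₀.card : ℝ) ≤ (τ : ℝ) ^ (3 * D) * ((S₀.image f).card : ℝ) := hrec'
    _ ≤ (2 * τ : ℝ) ^ (3 * D) * ((2 * τ : ℝ) ^ D * (2 ^ (6 + 3 * D ^ 2) * (2 : ℝ) ^ Ω) *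
        2 ^ (D ^ 2 + 1)) := by
        refine mul_le_mul (by gcongr) (hcore.trans ?_) (by positivity) (by positivity)
        gcongr
    _ ≤ (2 * τ : ℝ) ^ (3 * D) * ((2 * τ : ℝ) ^ D * ((2 * τ : ℝ) ^ (6 + 3 * D ^ 2) * (2 : ℝ) ^ Ω) *
        (2 * τ : ℝ) ^ (D ^ 2 + 1)) := by gcongr
    _ = _ := by rw [hK]; ring

end Pool.Agent.P.MP_9ec3f0_nt.Exc
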