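import Mathlib

namespace Pool.Agent.P.MP_9ec3f0_nt.Exc

open Finset

theorem holder_char_sum {G : Type} [AddCommGroup G] {κ : Type} (s : Finset κ) (ψ : AddChar G ℂ)
    (f : κ → G) : ψ (∑ k ∈ s, f k) = ∏ k ∈ s, ψ (f k) := by
  classical
  induction s using Finset.induction_on with
  | empty => simp
  | insert a s ha ih => rw [sum_insert ha, prod_insert ha, AddChar.map_add_eq_mul, ih]

theorem holder_count {G : Type} [AddCommGroup G] [Fintype G] [DecidableEq G] {X : Type}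
    (S : Finset X) (f : X → G) :
    ∑ ψ : AddChar G ℂ, ∑ x ∈ S, ψ (f x) =
      (Fintype.card G : ℂ) * ((S.filter (fun x => f x = 0)).card : ℂ) := by
  rw [sum_comm]
  simp only [AddChar.sum_apply_eq_ite]
  rw [← sum_filter, sum_const, nsmul_eq_mul, mul_comm]

theorem holder_amgm {ι : Type} [Fintype ι] (r : ι → ℕ) (hr : ∀ j, 1 ≤ r j)
    (hs : ∑ j, (1 : ℝ) / (2 * r j) ≤ 1) (a : ι → ℝ) (ha : ∀ j, 0 ≤ a j) :
    ∏ j, a j ≤ ∑ j, (1 : ℝ) / (2 * r j) * a j ^ (2 * r j) + (1 - ∑ j, (1 : ℝ) / (2 * r j)) := by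
  have h := Real.geom_mean_le_arith_mean_weighted (univ : Finset (Option ι))
    (fun o => o.elim (1 - ∑ j, (1 : ℝ) / (2 * r j)) (fun j => (1 : ℝ) / (2 * r j)))
    (fun o => o.elim 1 (fun j => a j ^ (2 * r j)))
    (by
      rintro (_ | j) _
      · simp only [Option.elim]; linarith
      · simp only [Option.elim]; positivity)
    (by rw [Fintype.sum_option]; simp only [Option.elim]; ring)
    (by
      rintro (_ | j) _
      · simp only [Option.elim]; norm_num
      · simp only [Option.elim]; exact pow_nonneg (ha j) _)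
  rw [Fintype.prod_option, Fintype.sum_option] at h
  simp only [Option.elim, Real.one_rpow, one_mul, mul_one] at h
  have e : ∀ j, (a j ^ (2 * r j)) ^ ((1 : ℝ) / (2 * r j)) = a j := by
    intro j
    have h0 : 2 * r j ≠ 0 := by have := hr j; omega
    have := Real.pow_rpow_inv_natCast (ha j) h0
    rw [one_div]
    push_cast at this
    exact this
  simp only [e] at h
  linarith

theorem group_holder {G : Type} [AddCommGroup G] [Fintype G] [DecidableEq G]
    {ι : Type} [Fintype ι] [DecidableEq ι] (Y : ι → Finset ℕ) (φ : ι → ℕ → G) (r : ι → ℕ)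
    (hr : ∀ j, 1 ≤ r j) (hs : ∑ j, (1 : ℝ) / (2 * r j) ≤ 1) (A : ι → ℝ) (hA : ∀ j, 0 < A j)
    (hE : ∀ j, ((((Fintype.piFinset fun _ : Fin (r j) => Y j) ×ˢ
        (Fintype.piFinset fun _ : Fin (r j) => Y j)).filter
          (fun z => ∑ k, φ j (z.1 k) = ∑ k, φ j (z.2 k))).card : ℝ) ≤ A j ^ (2 * r j))
    (g : G) :
    (((Fintype.piFinset Y).filter (fun y => ∑ j, φ j (y j) = g)).card : ℝ) ≤ ∏ j, A j := by
  obtain ⟨F, hF⟩ : ∃ F : ι → AddChar G ℂ → ℂ, ∀ j ψ, F j ψ = ∑ y ∈ Y j, ψ (φ j y) :=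
    ⟨_, fun _ _ => rfl⟩
  have hG : (0 : ℝ) < Fintype.card G := by exact_mod_cast Fintype.card_pos
  -- the count as a character sum
  have h1 : (Fintype.card G : ℂ) *
      (((Fintype.piFinset Y).filter (fun y => ∑ j, φ j (y j) = g)).card : ℂ) =
      ∑ ψ : AddChar G ℂ, ψ (-g) * ∏ j, F j ψ := by
    have := holder_count (Fintype.piFinset Y) (fun y => -g + ∑ j, φ j (y j))
    simp only [neg_add_eq_zero, eq_comm (a := g)] at this
    rw [← this]
    refine sum_congr rfl (fun ψ _ => ?_)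
    simp only [hF]
    rw [prod_univ_sum, mul_sum]
    refine sum_congr rfl (fun y _ => ?_)
    rw [AddChar.map_add_eq_mul, holder_char_sum]
  -- the energies as character sums
  have h2 : ∀ j, ∑ ψ : AddChar G ℂ, ‖F j ψ‖ ^ (2 * r j) ≤ Fintype.card G * A j ^ (2 * r j) := by
    intro j
    have := holder_count ((Fintype.piFinset fun _ : Fin (r j) => Y j) ×ˢ
        (Fintype.piFinset fun _ : Fin (r j) => Y j))
        (fun z => ∑ k, φ j (z.1 k) - ∑ k, φ j (z.2 k))
    simp only [sub_eq_zero] at this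
    have e : ∀ ψ : AddChar G ℂ, ∑ z ∈ (Fintype.piFinset fun _ : Fin (r j) => Y j) ×ˢ
        (Fintype.piFinset fun _ : Fin (r j) => Y j),
        ψ (∑ k, φ j (z.1 k) - ∑ k, φ j (z.2 k)) = ((‖F j ψ‖ ^ (2 * r j) : ℝ) : ℂ) := by
      intro ψ
      have e1 : ∑ z ∈ (Fintype.piFinset fun _ : Fin (r j) => Y j), ψ (∑ k, φ j (z k)) =
          F j ψ ^ r j := by
        rw [hF, ← Fin.prod_const, prod_univ_sum]
        exact sum_congr rfl (fun z _ => holder_char_sum _ _ _)
      rw [sum_product]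
      have e2 : ∀ z1 z2 : Fin (r j) → ℕ, ψ (∑ k, φ j (z1 k) - ∑ k, φ j (z2 k)) =
          ψ (∑ k, φ j (z1 k)) * (starRingEnd ℂ) (ψ (∑ k, φ j (z2 k))) := by
        intro z1 z2
        rw [sub_eq_add_neg, AddChar.map_add_eq_mul, AddChar.map_neg_eq_conj]
      simp only [e2]
      rw [← sum_mul_sum, ← map_sum (starRingEnd ℂ), e1, Complex.mul_conj, Complex.normSq_eq_norm_sq, norm_pow,
        ← pow_mul, mul_comm]
    simp only [e] at this
    have h3 : ∑ ψ : AddChar G ℂ, ‖F j ψ‖ ^ (2 * r j) = Fintype.card G *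
        ((((Fintype.piFinset fun _ : Fin (r j) => Y j) ×ˢ
        (Fintype.piFinset fun _ : Fin (r j) => Y j)).filter
          (fun z => ∑ k, φ j (z.1 k) = ∑ k, φ j (z.2 k))).card : ℝ) := by
      exact_mod_cast this
    rw [h3]
    exact mul_le_mul_of_nonneg_left (hE j) hG.le
  have hP : 0 < ∏ j, A j := prod_pos (fun j _ => hA j)
  have h4 : ∀ ψ : AddChar G ℂ, ‖ψ (-g) * ∏ j, F j ψ‖ ≤ (∏ j, A j) *
      (∑ j, (1 : ℝ) / (2 * r j) * (‖F j ψ‖ ^ (2 * r j) / A j ^ (2 * r j)) +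
        (1 - ∑ j, (1 : ℝ) / (2 * r j))) := by
    intro ψ
    have := holder_amgm r hr hs (fun j => ‖F j ψ‖ / A j)
      (fun j => div_nonneg (norm_nonneg _) (hA j).le)
    simp only [div_pow] at this
    rw [prod_div_distrib, div_le_iff₀ hP] at this
    rw [norm_mul, AddChar.norm_apply, one_mul, norm_prod, mul_comm]
    exact this
  have h5 : ∑ ψ : AddChar G ℂ,
      (∑ j, (1 : ℝ) / (2 * r j) * (‖F j ψ‖ ^ (2 * r j) / A j ^ (2 * r j)) +
        (1 - ∑ j, (1 : ℝ) / (2 * r j))) ≤ Fintype.card G := by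
    rw [sum_add_distrib, sum_comm, sum_const, card_univ, AddChar.card_eq, nsmul_eq_mul]
    have : ∑ j, ∑ ψ : AddChar G ℂ,
        (1 : ℝ) / (2 * r j) * (‖F j ψ‖ ^ (2 * r j) / A j ^ (2 * r j)) ≤
        ∑ j, (Fintype.card G : ℝ) * ((1 : ℝ) / (2 * r j)) := by
      refine sum_le_sum (fun j _ => ?_)
      rw [← mul_sum, ← sum_div, mul_comm]
      refine mul_le_mul_of_nonneg_right ?_ (by positivity)
      rw [div_le_iff₀ (pow_pos (hA j) _)]
      exact h2 j
    rw [← mul_sum] at this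
    nlinarith
  have h6 : (Fintype.card G : ℝ) *
      (((Fintype.piFinset Y).filter (fun y => ∑ j, φ j (y j) = g)).card : ℝ) ≤
      (∏ j, A j) * Fintype.card G := by
    have := congrArg norm h1
    rw [norm_mul, Complex.norm_natCast, Complex.norm_natCast] at this
    rw [this]
    refine (norm_sum_le _ _).trans ((sum_le_sum (fun ψ _ => h4 ψ)).trans ?_)
    rw [← mul_sum]
    exact mul_le_mul_of_nonneg_left h5 hP.le
  rw [mul_comm (∏ j, A j)] at h6
  exact le_of_mul_le_mul_left h6 hG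

end Pool.Agent.P.MP_9ec3f0_nt.Exc
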