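import Pool.Agent.P.MP_9ec3f0_nt.Exc.Basic
import Pool.Agent.P.MP_9ec3f0_nt.Exc.Holder
import Pool.Agent.P.MP_9ec3f0_nt.Exc.Energy

namespace Pool.Agent.P.MP_9ec3f0_nt.Exc

open Finset

theorem tM_disj {D : ℕ} {t u : Fin 3} (h : t ≠ u) : Disjoint (tm D t) (tm D u) := by
  rw [Finset.disjoint_left]
  intro j h1 h2
  simp only [tm, mem_filter, mem_univ, true_and] at h1 h2
  exact h (h1.symm.trans h2)

/-- Signed exponent of a variable. -/
def tMco {D : ℕ} (u : Fin 3) (j : Ix D) : ℤ :=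
  if j.1 = u then ((j.2.val + 1 : ℕ) : ℤ) else -((j.2.val + 1 : ℕ) : ℤ)

theorem tM_split {D : ℕ} {A : Type} [AddCommGroup A] {u v : Fin 3} (huv : u ≠ v) (g : Ix D → A) :
    ∑ j ∈ tm D u ∪ tm D v, tMco u j • g j
      = ∑ j ∈ tm D u, (j.2.val + 1) • g j - ∑ j ∈ tm D v, (j.2.val + 1) • g j := by
  rw [sum_union (tM_disj huv), sub_eq_add_neg, ← sum_neg_distrib]
  congr 1
  · refine sum_congr rfl fun j hj => ?_
    simp only [tm, mem_filter, mem_univ, true_and] at hj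
    rw [tMco, if_pos hj, natCast_zsmul]
  · refine sum_congr rfl fun j hj => ?_
    simp only [tm, mem_filter, mem_univ, true_and] at hj
    have : ¬ j.1 = u := fun h => huv (h.symm.trans hj)
    rw [tMco, if_neg this, neg_smul, natCast_zsmul]

theorem tM_diff {ι A : Type} [DecidableEq ι] [AddCommGroup A] {J H : Finset ι} (hJ : J ⊆ H)
    (g g' : ι → A) (h : ∀ j ∈ H \ J, g j = g' j) :
    ∑ j ∈ J, g j - ∑ j ∈ J, g' j = ∑ j ∈ H, g j - ∑ j ∈ H, g' j := by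
  rw [← sum_sdiff hJ, ← sum_sdiff hJ (f := g'), sum_congr rfl h]
  abel

/-- The unit given by a natural number. -/
noncomputable def tMun (α y : ℕ) : (ZMod α)ˣ :=
  if h : Nat.Coprime y α then ZMod.unitOfCoprime y h else 1

theorem tMun_val {α y : ℕ} (h : Nat.Coprime y α) : ((tMun α y : (ZMod α)ˣ) : ZMod α) = y := by
  rw [tMun, dif_pos h, ZMod.coe_unitOfCoprime]

theorem tM_unit_sum {D : ℕ} (α : ℕ) (x : Ix D → ℕ) (F : Finset (Ix D))
    (h : ∀ j ∈ F, Nat.Coprime (x j) α) :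
    ((Additive.toMul (∑ j ∈ F, (j.2.val + 1) • Additive.ofMul (tMun α (x j))) : (ZMod α)ˣ) : ZMod α)
      = (sub x F : ZMod α) := by
  rw [toMul_sum, sub]
  push_cast
  refine prod_congr rfl fun j hj => ?_
  rw [toMul_nsmul, toMul_ofMul, Units.val_pow_eq_pow_val, tMun_val (h j hj)]

theorem tM_log_sum {D : ℕ} (x : Ix D → ℕ) (F : Finset (Ix D)) (h : ∀ j ∈ F, 0 < x j) :
    ∑ j ∈ F, (j.2.val + 1) • Real.log (x j) = Real.log (sub x F) := by
  rw [sub]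
  push_cast
  rw [Real.log_prod]
  · refine sum_congr rfl fun j _ => ?_
    rw [Real.log_pow, nsmul_eq_mul]
  · intro j hj
    have := h j hj
    positivity

theorem tM_dvd {D : ℕ} (x : Ix D → ℕ) {F : Finset (Ix D)} {j : Ix D} (hj : j ∈ F) :
    x j ∣ sub x F :=
  (dvd_pow_self (x j) (Nat.succ_ne_zero _)).trans (dvd_prod_of_mem _ hj)

theorem tM_sub_dvd {D : ℕ} (x : Ix D → ℕ) {F F' : Finset (Ix D)} (h : F ⊆ F') :
    sub x F ∣ sub x F' := prod_dvd_prod_of_subset _ _ _ h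

theorem tM_sub_congr {D : ℕ} {x y : Ix D → ℕ} {F : Finset (Ix D)} (h : ∀ j ∈ F, x j = y j) :
    sub x F = sub y F := prod_congr rfl fun j hj => by rw [h j hj]

theorem tM_abs_co {D : ℕ} (u : Fin 3) (j : Ix D) : |(tMco u j : ℝ)| ≤ D := by
  have := j.2.isLt
  have h2 : ((j.2.val + 1 : ℕ) : ℝ) ≤ D := by exact_mod_cast this
  unfold tMco
  split_ifs
  · rw [Int.cast_natCast, abs_of_nonneg (by positivity)]; exact h2
  · rw [Int.cast_neg, abs_neg, Int.cast_natCast, abs_of_nonneg (by positivity)]; exact h2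

theorem tM_log_close (T a b : ℕ) (hT : 1 ≤ T) (ha : 0 < a) (hb : 0 < b)
    (h : T * a ≤ (T + 16) * b) : (T : ℝ) * (Real.log a - Real.log b) ≤ 16 := by
  have hT' : (0 : ℝ) < T := by exact_mod_cast hT
  have ha' : (0 : ℝ) < a := by exact_mod_cast ha
  have hb' : (0 : ℝ) < b := by exact_mod_cast hb
  have h' : (T : ℝ) * a ≤ (T + 16) * b := by exact_mod_cast h
  rw [← Real.log_div ha'.ne' hb'.ne']
  have h1 : Real.log (a / b) ≤ a / b - 1 := Real.log_le_sub_one_of_pos (by positivity)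
  have h2 : (T : ℝ) * (a / b - 1) ≤ 16 := by
    have : (T : ℝ) * (a / b - 1) = (T * a - T * b) / b := by field_simp
    rw [this, div_le_iff₀ hb']
    linarith
  calc (T : ℝ) * Real.log (a / b) ≤ T * (a / b - 1) := by gcongr
    _ ≤ 16 := h2

/-- The homomorphism value attached to a variable. -/
noncomputable def tMphi {D : ℕ} (α Q T : ℕ) (u : Fin 3) (j : Ix D) (y : ℕ) :
    Additive (ZMod α)ˣ × ZMod Q :=
  tMco u j • (Additive.ofMul (tMun α y), ((⌊(T : ℝ) * Real.log y⌋₊ : ℕ) : ZMod Q))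

theorem tM_co_cancel {D : ℕ} {A : Type} [AddCommGroup A] (u : Fin 3) (j : Ix D) (a b : A)
    (h : tMco u j • a = tMco u j • b) : (j.2.val + 1) • a = (j.2.val + 1) • b := by
  unfold tMco at h
  split_ifs at h
  · rwa [natCast_zsmul, natCast_zsmul] at h
  · rwa [neg_smul, neg_smul, neg_inj, natCast_zsmul, natCast_zsmul] at h

theorem tM_sum_cancel {D : ℕ} {A κ : Type} [AddCommGroup A] [Fintype κ] (u : Fin 3) (j : Ix D)
    (a b : κ → A) (h : ∑ k, tMco u j • a k = ∑ k, tMco u j • b k) :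
    (j.2.val + 1) • ∑ k, a k = (j.2.val + 1) • ∑ k, b k := by
  rw [← Finset.smul_sum, ← Finset.smul_sum] at h
  exact tM_co_cancel u j _ _ h

theorem tM_floor_le (T e y : ℕ) (hy : 2 ^ e ≤ y) (hy' : y < 2 ^ (e + 1)) :
    ⌊(T : ℝ) * Real.log y⌋₊ ≤ T * (e + 1) := by
  have hy0 : 0 < y := lt_of_lt_of_le (by positivity) hy
  have h1 : Real.log y ≤ (e + 1 : ℕ) := by
    have h2 : (y : ℝ) ≤ 2 ^ (e + 1) := by exact_mod_cast hy'.le
    calc Real.log y ≤ Real.log (2 ^ (e + 1)) := Real.log_le_log (by exact_mod_cast hy0) h2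
      _ = (e + 1 : ℕ) * Real.log 2 := by rw [Real.log_pow]
      _ ≤ (e + 1 : ℕ) * 1 := by
          gcongr
          have := Real.log_two_lt_d9
          linarith
      _ = _ := mul_one _
  apply Nat.floor_le_of_le
  push_cast at h1 ⊢
  gcongr

/-- The energy bound in the form needed by `group_holder`. -/
theorem tM_energy {D : ℕ} (α Q T e r τ : ℕ) (u : Fin 3) (j : Ix D) (hα : α ≠ 0) (hT : 1 ≤ T)
    (hr : 1 ≤ r) (hτ : ∀ n : ℕ, n ≤ 2 ^ ((e + 1) * r) → n.divisors.card ≤ τ)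
    (hQ : D * (T * ((e + 1) * r)) < Q) :
    (((((Fintype.piFinset fun _ : Fin r =>
        (Ico (2 ^ e) (2 ^ (e + 1))).filter (fun y => Nat.Coprime y α))) ×ˢ
      (Fintype.piFinset fun _ : Fin r =>
        (Ico (2 ^ e) (2 ^ (e + 1))).filter (fun y => Nat.Coprime y α))).filter
          (fun z => ∑ k, tMphi α Q T u j (z.1 k) = ∑ k, tMphi α Q T u j (z.2 k))).card : ℝ)
      ≤ 2 ^ (e * r) * (α.divisors.card : ℝ) ^ (j.2.val + 1)
      * (2 * 2 ^ ((e + 1) * r) * r / (T * α) + 1) * (τ : ℝ) ^ r := by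
  refine energy α T e r (j.2.val + 1) τ hα hT hr (Nat.succ_pos _) hτ _ ?_ ?_ ?_ ?_
  · intro z hz k
    simp only [mem_filter, mem_product, Fintype.mem_piFinset, mem_Ico] at hz
    exact ⟨(hz.1.1 k).1.1, (hz.1.1 k).1.2, (hz.1.1 k).2⟩
  · intro z hz k
    simp only [mem_filter, mem_product, Fintype.mem_piFinset, mem_Ico] at hz
    exact ⟨(hz.1.2 k).1.1, (hz.1.2 k).1.2, (hz.1.2 k).2⟩
  · intro z hz
    simp only [mem_filter, mem_product, Fintype.mem_piFinset, mem_Ico] at hz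
    obtain ⟨⟨h1, h2⟩, h3⟩ := hz
    have h4 := congrArg Prod.fst (tM_sum_cancel u j _ _ h3)
    simp only [Prod.smul_fst, Prod.fst_sum] at h4
    have h5 := congrArg (fun a : Additive (ZMod α)ˣ => ((Additive.toMul a : (ZMod α)ˣ) : ZMod α)) h4
    simp only [toMul_nsmul, toMul_sum, toMul_ofMul, Units.val_pow_eq_pow_val, Units.coe_prod] at h5
    rw [prod_congr rfl (fun k _ => tMun_val (h1 k).2),
      prod_congr rfl (fun k _ => tMun_val (h2 k).2)] at h5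
    rw [← ZMod.natCast_eq_natCast_iff]
    push_cast
    exact h5
  · intro z hz
    simp only [mem_filter, mem_product, Fintype.mem_piFinset, mem_Ico] at hz
    obtain ⟨⟨h1, h2⟩, h3⟩ := hz
    have h4 := congrArg Prod.snd (tM_sum_cancel u j _ _ h3)
    simp only [Prod.smul_snd, Prod.snd_sum] at h4
    have hb : ∀ w : Fin r → ℕ, (∀ k, 2 ^ e ≤ w k ∧ w k < 2 ^ (e + 1)) →
        (j.2.val + 1) * ∑ k, ⌊(T : ℝ) * Real.log (w k)⌋₊ < Q := by
      intro w hw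
      have h6 : ∑ k, ⌊(T : ℝ) * Real.log (w k)⌋₊ ≤ T * ((e + 1) * r) := by
        calc ∑ k, ⌊(T : ℝ) * Real.log (w k)⌋₊ ≤ ∑ _k : Fin r, T * (e + 1) :=
              sum_le_sum fun k _ => tM_floor_le T e (w k) (hw k).1 (hw k).2
          _ = T * ((e + 1) * r) := by simp; ring
      have h7 : j.2.val + 1 ≤ D := j.2.isLt
      exact lt_of_le_of_lt (Nat.mul_le_mul h7 h6) hQ
    have h8 : (((j.2.val + 1) * ∑ k, ⌊(T : ℝ) * Real.log (z.1 k)⌋₊ : ℕ) : ZMod Q)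
        = (((j.2.val + 1) * ∑ k, ⌊(T : ℝ) * Real.log (z.2 k)⌋₊ : ℕ) : ZMod Q) := by
      rw [nsmul_eq_mul, nsmul_eq_mul] at h4
      push_cast at h4 ⊢
      exact h4
    rw [ZMod.natCast_eq_natCast_iff] at h8
    have h9 := Nat.ModEq.eq_of_lt_of_lt h8 (hb _ fun k => (h1 k).1) (hb _ fun k => (h2 k).1)
    exact Nat.eq_of_mul_eq_mul_left (Nat.succ_pos _) h9

theorem tM_cop {D : ℕ} {c : Box D} {S : Finset (Ix D → ℕ)} (h : Good c S) {t u v : Fin 3}
    (htu : t ≠ u) (htv : t ≠ v) {I : Finset (Ix D)} (hI : I ⊆ tm D t) {x : Ix D → ℕ}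
    (hx : x ∈ S) {j : Ix D} (hj : j ∈ tm D u ∪ tm D v) : Nat.Coprime (x j) (sub x I) := by
  have h1 : sub x I ∣ term x t := tM_sub_dvd x hI
  rcases mem_union.1 hj with hj | hj
  · exact Nat.Coprime.coprime_dvd_left (tM_dvd x hj)
      (Nat.Coprime.coprime_dvd_right h1 (h.cop x hx u t htu.symm))
  · exact Nat.Coprime.coprime_dvd_left (tM_dvd x hj)
      (Nat.Coprime.coprime_dvd_right h1 (h.cop x hx v t htv.symm))

theorem tM_err {D : ℕ} (u : Fin 3) (T : ℕ) (J : Finset (Ix D)) (x : Ix D → ℕ) :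
    |∑ j ∈ J, (tMco u j : ℝ) * ((⌊(T : ℝ) * Real.log (x j)⌋₊ : ℝ) - T * Real.log (x j))|
      ≤ 3 * D ^ 2 := by
  have hc : (J.card : ℝ) ≤ 3 * D := by
    have : J.card ≤ 3 * D := by simpa using card_le_univ J
    exact_mod_cast this
  calc _ ≤ ∑ j ∈ J, |(tMco u j : ℝ) * ((⌊(T : ℝ) * Real.log (x j)⌋₊ : ℝ) - T * Real.log (x j))| :=
        abs_sum_le_sum_abs _ _
    _ ≤ ∑ _j ∈ J, (D : ℝ) := by
        refine sum_le_sum fun j _ => ?_
        rw [abs_mul]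
        have h0 : 0 ≤ (T : ℝ) * Real.log (x j) := mul_nonneg (by positivity) (Real.log_natCast_nonneg _)
        have h1 : |(⌊(T : ℝ) * Real.log (x j)⌋₊ : ℝ) - T * Real.log (x j)| ≤ 1 := by
          have := Nat.floor_le h0
          have := Nat.lt_floor_add_one ((T : ℝ) * Real.log (x j))
          rw [abs_le]; constructor <;> linarith
        calc _ ≤ (D : ℝ) * 1 := mul_le_mul (tM_abs_co u j) h1 (abs_nonneg _) (by positivity)
          _ = D := mul_one _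
    _ = J.card * D := by simp
    _ ≤ 3 * D * D := by gcongr
    _ = _ := by ring

theorem tM_shift {D : ℕ} {c : Box D} {S : Finset (Ix D → ℕ)} (h : Good c S) {t u v : Fin 3}
    (htu : t ≠ u) (htv : t ≠ v) (huv : u ≠ v) {I J : Finset (Ix D)} (hI : I ⊆ tm D t)
    (hJ : J ⊆ tm D u ∪ tm D v) {x x0 : Ix D → ℕ} (hx : x ∈ S) (hx0 : x0 ∈ S)
    (hag : ∀ j ∈ I ∪ ((tm D u ∪ tm D v) \ J), x j = x0 j) (Q : ℕ) :
    ∃ δ : ℤ, |δ| ≤ ((16 + 6 * D ^ 2 : ℕ) : ℤ) ∧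
      ∑ j ∈ J, tMphi (sub x0 I) Q (2 ^ c.p t) u j (x j)
        = ∑ j ∈ J, tMphi (sub x0 I) Q (2 ^ c.p t) u j (x0 j) + (0, (δ : ZMod Q)) := by
  have hα : sub x I = sub x0 I := tM_sub_congr fun j hj => hag j (mem_union_left _ hj)
  have hag' : ∀ j ∈ (tm D u ∪ tm D v) \ J, x j = x0 j := fun j hj => hag j (mem_union_right _ hj)
  set T : ℕ := 2 ^ c.p t with hT
  have hT1 : 1 ≤ T := Nat.one_le_two_pow
  have hpos : ∀ y ∈ S, ∀ j, 0 < y j := fun y hy j => lt_of_lt_of_le (by positivity) (h.lo y hy j)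
  refine ⟨∑ j ∈ J, tMco u j * (⌊(T : ℝ) * Real.log (x j)⌋₊ : ℤ)
    - ∑ j ∈ J, tMco u j * (⌊(T : ℝ) * Real.log (x0 j)⌋₊ : ℤ), ?_, ?_⟩
  · have e1 := tM_err u T J x
    have e2 := tM_err u T J x0
    have e3 := tM_diff hJ (fun j => tMco u j • Real.log (x j)) (fun j => tMco u j • Real.log (x0 j))
      (fun j hj => by rw [hag' j hj])
    rw [tM_split huv, tM_split huv, tM_log_sum x _ (fun j _ => hpos x hx j),
      tM_log_sum x _ (fun j _ => hpos x hx j), tM_log_sum x0 _ (fun j _ => hpos x0 hx0 j),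
      tM_log_sum x0 _ (fun j _ => hpos x0 hx0 j)] at e3
    have pB := h.pos hx (tm D u)
    have pC := h.pos hx (tm D v)
    have pB0 := h.pos hx0 (tm D u)
    have pC0 := h.pos hx0 (tm D v)
    have c1 := tM_log_close T _ _ hT1 (Nat.mul_pos pB pC0) (Nat.mul_pos pB0 pC)
      (h.close x hx x0 hx0 t u v htu htv huv)
    have c2 := tM_log_close T _ _ hT1 (Nat.mul_pos pB0 pC) (Nat.mul_pos pB pC0)
      (h.close x0 hx0 x hx t u v htu htv huv)
    have l1 : Real.log ((sub x (tm D u) * sub x0 (tm D v) : ℕ) : ℝ)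
        = Real.log (sub x (tm D u)) + Real.log (sub x0 (tm D v)) := by
      push_cast
      exact Real.log_mul (by positivity) (by positivity)
    have l2 : Real.log ((sub x0 (tm D u) * sub x (tm D v) : ℕ) : ℝ)
        = Real.log (sub x0 (tm D u)) + Real.log (sub x (tm D v)) := by
      push_cast
      exact Real.log_mul (by positivity) (by positivity)
    rw [l1, l2] at c1 c2
    have key : ((∑ j ∈ J, tMco u j * (⌊(T : ℝ) * Real.log (x j)⌋₊ : ℤ)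
        - ∑ j ∈ J, tMco u j * (⌊(T : ℝ) * Real.log (x0 j)⌋₊ : ℤ) : ℤ) : ℝ)
        = ∑ j ∈ J, (tMco u j : ℝ) * ((⌊(T : ℝ) * Real.log (x j)⌋₊ : ℝ) - T * Real.log (x j))
          - ∑ j ∈ J, (tMco u j : ℝ) * ((⌊(T : ℝ) * Real.log (x0 j)⌋₊ : ℝ) - T * Real.log (x0 j))
          + T * (∑ j ∈ J, tMco u j • Real.log (x j) - ∑ j ∈ J, tMco u j • Real.log (x0 j)) := by
      push_cast
      simp only [zsmul_eq_mul, mul_sub, mul_sum, sum_sub_distrib]
      have a1 : ∀ y : Ix D → ℕ, ∑ j ∈ J, (tMco u j : ℝ) * ((T : ℝ) * Real.log (y j))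
          = ∑ j ∈ J, (T : ℝ) * ((tMco u j : ℝ) * Real.log (y j)) :=
        fun y => sum_congr rfl fun j _ => by ring
      rw [a1, a1]
      ring
    rw [e3] at key
    have : |((∑ j ∈ J, tMco u j * (⌊(T : ℝ) * Real.log (x j)⌋₊ : ℤ)
        - ∑ j ∈ J, tMco u j * (⌊(T : ℝ) * Real.log (x0 j)⌋₊ : ℤ) : ℤ) : ℝ)|
        ≤ (((16 + 6 * D ^ 2 : ℕ) : ℤ) : ℝ) := by
      rw [key]
      rw [abs_le] at e1 e2 ⊢
      push_cast
      constructor <;> nlinarith [e1.1, e1.2, e2.1, e2.2, c1, c2]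
    exact_mod_cast this
  · refine Prod.ext ?_ ?_
    · simp only [tMphi, Prod.fst_add, Prod.fst_sum, Prod.smul_fst, add_zero]
      rw [← sub_eq_zero, tM_diff hJ _ _ (fun j hj => by rw [hag' j hj]), tM_split huv,
        tM_split huv]
      have cx : ∀ j ∈ tm D u ∪ tm D v, Nat.Coprime (x j) (sub x0 I) := fun j hj =>
        hα ▸ tM_cop h htu htv hI hx hj
      have cx0 : ∀ j ∈ tm D u ∪ tm D v, Nat.Coprime (x0 j) (sub x0 I) := fun j hj =>
        tM_cop h htu htv hI hx0 hj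
      have u1 := tM_unit_sum (sub x0 I) x (tm D u) (fun j hj => cx j (mem_union_left _ hj))
      have u2 := tM_unit_sum (sub x0 I) x (tm D v) (fun j hj => cx j (mem_union_right _ hj))
      have u3 := tM_unit_sum (sub x0 I) x0 (tm D u) (fun j hj => cx0 j (mem_union_left _ hj))
      have u4 := tM_unit_sum (sub x0 I) x0 (tm D v) (fun j hj => cx0 j (mem_union_right _ hj))
      have z : ∀ y ∈ S, sub x0 I ∣ term y t →
          (c.σ u : ZMod (sub x0 I)) * (sub y (tm D u) : ZMod (sub x0 I))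
            + (c.σ v : ZMod (sub x0 I)) * (sub y (tm D v) : ZMod (sub x0 I)) = 0 := by
        intro y hy hd
        have q := congrArg (fun n : ℤ => (n : ZMod (sub x0 I))) (h.eqn3 hy htu htv huv)
        have q0 : ((term y t : ℕ) : ZMod (sub x0 I)) = 0 := (ZMod.natCast_eq_zero_iff _ _).2 hd
        simp only [Int.cast_add, Int.cast_mul, Int.cast_natCast, Int.cast_zero, q0, mul_zero,
          zero_add] at q
        exact q
      have z1 := z x hx (hα ▸ tM_sub_dvd x hI)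
      have z2 := z x0 hx0 (tM_sub_dvd x0 hI)
      have key : (sub x (tm D u) : ZMod (sub x0 I)) * (sub x0 (tm D v) : ZMod (sub x0 I))
          = (sub x0 (tm D u) : ZMod (sub x0 I)) * (sub x (tm D v) : ZMod (sub x0 I)) := by
        rcases h.sgn u with su | su <;> rcases h.sgn v with sv | sv <;>
          rw [su, sv] at z1 z2 <;> push_cast at z1 z2
        · linear_combination (sub x0 (tm D v) : ZMod (sub x0 I)) * z1
            - (sub x (tm D v) : ZMod (sub x0 I)) * z2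
        · linear_combination (sub x0 (tm D v) : ZMod (sub x0 I)) * z1
            - (sub x (tm D v) : ZMod (sub x0 I)) * z2
        · linear_combination (-(sub x0 (tm D v) : ZMod (sub x0 I))) * z1
            + (sub x (tm D v) : ZMod (sub x0 I)) * z2
        · linear_combination (-(sub x0 (tm D v) : ZMod (sub x0 I))) * z1
            + (sub x (tm D v) : ZMod (sub x0 I)) * z2
      rw [← u1, ← u2, ← u3, ← u4, ← Units.val_mul, ← Units.val_mul, Units.val_inj, ← toMul_add,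
        ← toMul_add] at key
      have key2 := Additive.toMul.injective key
      rw [sub_sub_sub_comm, sub_eq_zero, sub_eq_sub_iff_add_eq_add, key2, add_comm]
    · simp only [tMphi, Prod.snd_add, Prod.snd_sum, Prod.smul_snd]
      push_cast
      simp only [zsmul_eq_mul]
      ring

theorem tM_num (D α T e r i τ : ℕ) (W W' : ℝ) (hτ : 1 ≤ τ) (hα : 0 < α) (hT : 0 < T) (hr : 1 ≤ r)
    (hi : i ≤ D) (hd : α.divisors.card ≤ τ) (hW' : (r * e : ℝ) ≤ W')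
    (hW : (2 : ℝ) ^ W ≤ 2 ^ (D ^ 2) * T * α) :
    2 ^ (e * r) * (α.divisors.card : ℝ) ^ i * (2 * 2 ^ ((e + 1) * r) * r / (T * α) + 1) * (τ : ℝ) ^ r
      ≤ ((2 : ℝ) ^ ((e : ℝ) / 2) * (2 * τ : ℝ) ^ (D ^ 2 + D + 3)
        * (2 : ℝ) ^ (max 0 (W' - W) / (2 * r))) ^ (2 * r) := by
  have hτ' : (1 : ℝ) ≤ τ := by exact_mod_cast hτ
  have hα' : (0 : ℝ) < α := by exact_mod_cast hα
  have hT' : (0 : ℝ) < T := by exact_mod_cast hT
  have hr' : (1 : ℝ) ≤ r := by exact_mod_cast hr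
  set Ω : ℝ := max 0 (W' - W) with hΩ
  have hΩ0 : 0 ≤ Ω := le_max_left _ _
  have hΩ1 : W' - W ≤ Ω := le_max_right _ _
  have r1 : ((2 : ℝ) ^ ((e : ℝ) / 2)) ^ (2 * r) = 2 ^ (e * r) := by
    rw [← Real.rpow_natCast, ← Real.rpow_mul (by norm_num), ← Real.rpow_natCast]
    congr 1; push_cast; ring
  have r2 : ((2 : ℝ) ^ (Ω / (2 * r))) ^ (2 * r) = 2 ^ Ω := by
    rw [← Real.rpow_natCast, ← Real.rpow_mul (by norm_num)]
    congr 1; push_cast; field_simp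
  rw [mul_pow, mul_pow, r1, r2, ← pow_mul]
  have o1 : (1 : ℝ) ≤ 2 ^ Ω := Real.one_le_rpow (by norm_num) hΩ0
  have o2 : (2 : ℝ) ^ (e * r) / (T * α) ≤ 2 ^ (D ^ 2) * 2 ^ Ω := by
    rw [div_le_iff₀ (by positivity)]
    have a1 : (2 : ℝ) ^ (e * r) ≤ 2 ^ W' := by
      rw [← Real.rpow_natCast]
      exact Real.rpow_le_rpow_of_exponent_le (by norm_num) (by push_cast; linarith)
    have a2 : (2 : ℝ) ^ W' ≤ 2 ^ Ω * 2 ^ W := by
      rw [← Real.rpow_add (by norm_num)]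
      exact Real.rpow_le_rpow_of_exponent_le (by norm_num) (by linarith)
    calc (2 : ℝ) ^ (e * r) ≤ 2 ^ Ω * 2 ^ W := a1.trans a2
      _ ≤ 2 ^ Ω * (2 ^ (D ^ 2) * T * α) := by gcongr
      _ = _ := by ring
  have o3 : (r : ℝ) ≤ 2 ^ r := by exact_mod_cast Nat.lt_two_pow_self.le
  have o4 : 2 * 2 ^ ((e + 1) * r) * r / (T * α : ℝ) + 1 ≤ 2 ^ (D ^ 2 + 2 * r + 2) * 2 ^ Ω := by
    have b1 : 2 * 2 ^ ((e + 1) * r) * r / (T * α : ℝ)
        = 2 * 2 ^ r * r * (2 ^ (e * r) / (T * α)) := by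
      rw [add_mul, one_mul, pow_add]; ring
    have b2 : 2 * 2 ^ r * r * ((2 : ℝ) ^ (e * r) / (T * α))
        ≤ 2 * 2 ^ r * 2 ^ r * (2 ^ (D ^ 2) * 2 ^ Ω) := by gcongr
    have b3 : (1 : ℝ) ≤ 2 * 2 ^ r * 2 ^ r * (2 ^ (D ^ 2) * 2 ^ Ω) := by
      have p1 : (1 : ℝ) ≤ 2 ^ r := one_le_pow₀ (by norm_num)
      have p2 : (1 : ℝ) ≤ 2 ^ (D ^ 2) := one_le_pow₀ (by norm_num)
      have p3 : (1 : ℝ) ≤ 2 ^ (D ^ 2) * 2 ^ Ω := one_le_mul_of_one_le_of_one_le p2 o1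
      have p4 : (1 : ℝ) ≤ 2 * 2 ^ r * 2 ^ r := by nlinarith
      exact one_le_mul_of_one_le_of_one_le p4 p3
    have b4 : (2 : ℝ) ^ (D ^ 2 + 2 * r + 2) * 2 ^ Ω
        = 2 * (2 * 2 ^ r * 2 ^ r * (2 ^ (D ^ 2) * 2 ^ Ω)) := by ring
    rw [b1, b4]; linarith
  have hd' : (α.divisors.card : ℝ) ≤ τ := by exact_mod_cast hd
  have t1 : (1 : ℝ) ≤ 2 * τ := by linarith
  have t2 : (τ : ℝ) ≤ 2 * τ := by linarith
  have t3 : (2 : ℝ) ≤ 2 * τ := by linarith
  have q1 : (α.divisors.card : ℝ) ^ i ≤ (2 * τ : ℝ) ^ D :=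
    (pow_le_pow_left₀ (by positivity) (hd'.trans t2) i).trans (pow_le_pow_right₀ t1 hi)
  have q2 : (τ : ℝ) ^ r ≤ (2 * τ : ℝ) ^ r := pow_le_pow_left₀ (by positivity) t2 r
  have q3 : (2 : ℝ) ^ (D ^ 2 + 2 * r + 2) ≤ (2 * τ : ℝ) ^ (D ^ 2 + 2 * r + 2) :=
    pow_le_pow_left₀ (by positivity) t3 _
  have q4 : (2 * τ : ℝ) ^ (D + (D ^ 2 + 2 * r + 2) + r) ≤ (2 * τ : ℝ) ^ ((D ^ 2 + D + 3) * (2 * r)) :=
    pow_le_pow_right₀ t1 (by nlinarith [Nat.zero_le ((D ^ 2 + D) * r)])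
  calc _ ≤ 2 ^ (e * r) * (2 * τ : ℝ) ^ D * ((2 * τ : ℝ) ^ (D ^ 2 + 2 * r + 2) * 2 ^ Ω)
        * (2 * τ : ℝ) ^ r := by
        have o5 := o4.trans (mul_le_mul_of_nonneg_right q3 (by positivity))
        gcongr
    _ = 2 ^ (e * r) * (2 * τ : ℝ) ^ (D + (D ^ 2 + 2 * r + 2) + r) * 2 ^ Ω := by
        rw [pow_add _ (D + _), pow_add _ D]; ring
    _ ≤ _ := by gcongr

theorem toolM (D : ℕ) : ∃ K : ℕ, ∀ (c : Box D) (S : Finset (Ix D → ℕ)) (τ : ℕ),
    Good c S → Tau c.L τ → ∀ t u v : Fin 3, t ≠ u → t ≠ v → u ≠ v →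
    ∀ (I J : Finset (Ix D)) (r : Ix D → ℕ) (W W' : ℝ), I ⊆ tm D t → J ⊆ tm D u ∪ tm D v →
      (∀ j ∈ J, 1 ≤ r j) → ∑ j ∈ J, (1 : ℝ) / (2 * r j) ≤ 1 →
      (∀ j ∈ J, (c.e j + 1) * r j ≤ 64 * (c.L + 1)) → (∀ j ∈ J, (r j * c.e j : ℝ) ≤ W') →
      Modw c S t I W →
      (S.card : ℝ) ≤ (2 * τ : ℝ) ^ K * (2 : ℝ) ^ ((c.mass I : ℝ) + c.mass ((tm D u ∪ tm D v) \ J)
        + (c.mass J : ℝ) / 2 + max 0 (W' - W)) := by
  classical
  refine ⟨3 * D + (2 * (16 + 6 * D ^ 2) + 1) + (D ^ 2 + D + 3) * (3 * D), ?_⟩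
  intro c S τ h hτ t u v htu htv huv I J r W W' hI hJ hr hs hL hW' hW
  have hτ1 : 1 ≤ τ := hτ.one_le
  have hτ' : (1 : ℝ) ≤ τ := by exact_mod_cast hτ1
  have t1 : (1 : ℝ) ≤ 2 * τ := by linarith
  have t2 : (τ : ℝ) ≤ 2 * τ := by linarith
  have t3 : (2 : ℝ) ≤ 2 * τ := by linarith
  set Ω : ℝ := max 0 (W' - W) with hΩ
  have hΩ0 : 0 ≤ Ω := le_max_left _ _
  set B : ℕ := 16 + 6 * D ^ 2 with hB
  set K₁ : ℕ := D ^ 2 + D + 3 with hK₁
  have hdis : Disjoint I ((tm D u ∪ tm D v) \ J) :=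
    Disjoint.mono hI sdiff_subset (disjoint_union_right.2 ⟨tM_disj htu, tM_disj htv⟩)
  have hmain := h.proj (I ∪ ((tm D u ∪ tm D v) \ J))
    ((2 * τ : ℝ) ^ (3 * D + (2 * B + 1) + K₁ * (3 * D)) * (2 : ℝ) ^ ((c.mass J : ℝ) / 2 + Ω))
    (by positivity) ?_
  · refine hmain.trans (le_of_eq ?_)
    have hm : c.mass (I ∪ ((tm D u ∪ tm D v) \ J)) = c.mass I + c.mass ((tm D u ∪ tm D v) \ J) :=
      sum_union hdis
    rw [hm, add_assoc ((c.mass I : ℝ) + _), Real.rpow_add (by norm_num) ((c.mass I : ℝ) + _),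
      ← Nat.cast_add, Real.rpow_natCast]
    ring
  intro x0 hx0
  set S0 := S.filter (fun y => ∀ j ∈ I ∪ ((tm D u ∪ tm D v) \ J), y j = x0 j) with hS0
  have h0 : Good c S0 := h.mono (filter_subset _ _)
  set α : ℕ := sub x0 I with hα
  have hα0 : 0 < α := h.pos hx0 I
  have : NeZero α := ⟨hα0.ne'⟩
  set T : ℕ := 2 ^ c.p t with hT
  have hT1 : 1 ≤ T := Nat.one_le_two_pow
  set Q : ℕ := D * (T * (64 * (c.L + 1))) + 1 with hQ
  have : NeZero Q := ⟨Nat.succ_ne_zero _⟩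
  set Y : J → Finset ℕ := fun j =>
    (Ico (2 ^ c.e j) (2 ^ (c.e j + 1))).filter (fun y => Nat.Coprime y α) with hY
  set φ : J → ℕ → Additive (ZMod α)ˣ × ZMod Q := fun j y => tMphi α Q T u j.1 y with hφ
  set g0 : Additive (ZMod α)ˣ × ZMod Q := ∑ j ∈ J, tMphi α Q T u j (x0 j) with hg0
  set A : J → ℝ := fun j => (2 : ℝ) ^ ((c.e j : ℝ) / 2) * (2 * τ : ℝ) ^ K₁
        * (2 : ℝ) ^ (Ω / (2 * r j)) with hA
  have hαd : α.divisors.card ≤ τ := by
    apply hτ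
    have a1 : α ≤ term x0 t := Nat.le_of_dvd (h.pos hx0 _) (tM_sub_dvd x0 hI)
    have a2 : term x0 t ≤ T * term x0 t := Nat.le_mul_of_pos_left _ hT1
    have a3 := h.thi x0 hx0 t
    have a4 : 2 ^ (c.L + 1) ≤ 2 ^ (64 * (c.L + 1)) := Nat.pow_le_pow_right (by norm_num) (by omega)
    exact a1.trans (a2.trans (a3.le.trans a4))
  have hH : ∀ g, (((Fintype.piFinset Y).filter (fun y => ∑ j, φ j (y j) = g)).card : ℝ)
      ≤ ∏ j, A j := by
    intro g
    refine group_holder Y φ (fun j => r j) (fun j => hr j j.2) ?_ A (fun j => by positivity) ?_ g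
    · rw [sum_coe_sort J (fun j => (1 : ℝ) / (2 * r j))]; exact hs
    · intro j
      refine (tM_energy α Q T (c.e j) (r j) τ u j.1 hα0.ne' hT1 (hr j j.2) ?_ ?_).trans ?_
      · intro n hn
        exact hτ n (hn.trans (Nat.pow_le_pow_right (by norm_num) (hL j j.2)))
      · exact Nat.lt_succ_of_le (Nat.mul_le_mul_left _ (Nat.mul_le_mul_left _ (hL j j.2)))
      · refine tM_num D α T (c.e j) (r j) _ τ W W' hτ1 hα0 hT1 (hr j j.2) j.1.2.isLt hαd
          (hW' j j.2) ?_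
        have := hW x0 hx0
        rw [hT]; push_cast
        exact this
  have hJc : J.card ≤ 3 * D := by simpa using card_le_univ J
  have hprod : ∏ j, A j ≤ (2 * τ : ℝ) ^ (K₁ * (3 * D)) * (2 : ℝ) ^ ((c.mass J : ℝ) / 2 + Ω) := by
    simp only [hA, prod_mul_distrib, prod_const, card_univ, Fintype.card_coe]
    rw [← Real.rpow_sum_of_pos (by norm_num), ← Real.rpow_sum_of_pos (by norm_num),
      sum_coe_sort J (fun j => (c.e j : ℝ) / 2), sum_coe_sort J (fun j => Ω / (2 * r j)),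
      Real.rpow_add (by norm_num), ← pow_mul]
    have s1 : ∑ j ∈ J, (c.e j : ℝ) / 2 = (c.mass J : ℝ) / 2 := by
      rw [Box.mass, ← sum_div]; push_cast; rfl
    have s2 : ∑ j ∈ J, Ω / (2 * r j) ≤ Ω := by
      calc ∑ j ∈ J, Ω / (2 * r j) = Ω * ∑ j ∈ J, (1 : ℝ) / (2 * r j) := by
            rw [mul_sum]; exact sum_congr rfl fun j _ => by ring
        _ ≤ Ω * 1 := by gcongr
        _ = Ω := mul_one _
    have s3 : (2 : ℝ) ^ (∑ j ∈ J, Ω / (2 * r j)) ≤ 2 ^ Ω :=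
      Real.rpow_le_rpow_of_exponent_le (by norm_num) s2
    have s4 : (2 * τ : ℝ) ^ (K₁ * J.card) ≤ (2 * τ : ℝ) ^ (K₁ * (3 * D)) :=
      pow_le_pow_right₀ t1 (Nat.mul_le_mul_left _ hJc)
    rw [s1]
    calc _ ≤ (2 : ℝ) ^ ((c.mass J : ℝ) / 2) * (2 * τ : ℝ) ^ (K₁ * (3 * D)) * 2 ^ Ω := by gcongr
      _ = _ := by ring
  set P : Finset (J → ℕ) := (Icc (-(B : ℤ)) B).biUnion (fun δ =>
    (Fintype.piFinset Y).filter (fun y => ∑ j, φ j (y j) = g0 + (0, (δ : ZMod Q)))) with hP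
  have hPc : (P.card : ℝ) ≤ (2 * B + 1 : ℕ) * ∏ j, A j := by
    have p1 : (P.card : ℝ) ≤ ∑ δ ∈ Icc (-(B : ℤ)) B, ((((Fintype.piFinset Y).filter
        (fun y => ∑ j, φ j (y j) = g0 + (0, (δ : ZMod Q)))).card : ℕ) : ℝ) := by
      exact_mod_cast card_biUnion_le
    refine p1.trans ((sum_le_sum fun δ _ => hH _).trans (le_of_eq ?_))
    rw [sum_const, Int.card_Icc, nsmul_eq_mul]
    congr 2
    omega
  have hrec := h0.recover hτ huv P (fun x j => x j) ?_ ?_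
  · have p2 : ((2 * B + 1 : ℕ) : ℝ) ≤ (2 * τ : ℝ) ^ (2 * B + 1) := by
      have : ((2 * B + 1 : ℕ) : ℝ) ≤ 2 ^ (2 * B + 1) := by exact_mod_cast Nat.lt_two_pow_self.le
      exact this.trans (pow_le_pow_left₀ (by norm_num) t3 _)
    have p3 : (τ : ℝ) ^ (3 * D) ≤ (2 * τ : ℝ) ^ (3 * D) := pow_le_pow_left₀ (by positivity) t2 _
    have p4 : (0 : ℝ) ≤ ∏ j, A j := prod_nonneg fun j _ => by positivity
    calc (S0.card : ℝ) ≤ (τ : ℝ) ^ (3 * D) * P.card := by exact_mod_cast hrec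
      _ ≤ (2 * τ : ℝ) ^ (3 * D) * ((2 * τ : ℝ) ^ (2 * B + 1) * ((2 * τ : ℝ) ^ (K₁ * (3 * D))
          * (2 : ℝ) ^ ((c.mass J : ℝ) / 2 + Ω))) := by
          refine mul_le_mul p3 (hPc.trans ?_) (by positivity) (by positivity)
          exact mul_le_mul p2 hprod p4 (by positivity)
      _ = _ := by rw [pow_add _ (3 * D + _), pow_add _ (3 * D)]; ring
  · intro x hx
    obtain ⟨hxS, hag⟩ := mem_filter.1 hx
    obtain ⟨δ, hδ, he⟩ := tM_shift h htu htv huv hI hJ hxS hx0 hag Q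
    refine mem_biUnion.2 ⟨δ, mem_Icc.2 (abs_le.1 hδ), mem_filter.2 ⟨?_, ?_⟩⟩
    · refine Fintype.mem_piFinset.2 fun j => mem_filter.2 ⟨mem_Ico.2 ⟨h.lo x hxS j, h.hi x hxS j⟩, ?_⟩
      have e1 : sub x I = α := tM_sub_congr fun j hj => hag j (mem_union_left _ hj)
      exact e1 ▸ tM_cop h htu htv hI hxS (hJ j.2)
    · rw [← he]
      exact sum_coe_sort J (fun j => tMphi α Q T u j (x j))
  · intro x hx y hy hxy
    obtain ⟨_, hax⟩ := mem_filter.1 hx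
    obtain ⟨_, hay⟩ := mem_filter.1 hy
    have hall : ∀ j ∈ tm D u ∪ tm D v, x j = y j := by
      intro j hj
      by_cases hjJ : j ∈ J
      · exact congrFun hxy ⟨j, hjJ⟩
      · have : j ∈ I ∪ ((tm D u ∪ tm D v) \ J) := mem_union_right _ (mem_sdiff.2 ⟨hj, hjJ⟩)
        rw [hax j this, hay j this]
    exact ⟨tM_sub_congr fun j hj => hall j (mem_union_left _ hj),
      tM_sub_congr fun j hj => hall j (mem_union_right _ hj)⟩

end Pool.Agent.P.MP_9ec3f0_nt.Exc
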