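import Pool.Agent.P.MP_9ec3f0_nt.Exc.Glue2
import Pool.Agent.P.MP_9ec3f0_nt.Exc.CertA
import Pool.Agent.P.MP_9ec3f0_nt.Exc.ToolG
import Pool.Agent.P.MP_9ec3f0_nt.Exc.ToolM
import Pool.Agent.P.MP_9ec3f0_nt.Exc.ToolC

/-
The bound for one box.
-/

namespace Pool.Agent.P.MP_9ec3f0_nt.Exc

open Finset LP

theorem exists_TB (D : ℕ) : ∃ K : ℕ, ∀ (c : Box D) (S : Finset (Ix D → ℕ)) (τ : ℕ),
    Good c S → Tau c.L τ → S.Nonempty →
      TB c S (Real.logb 2 S.card) (K * Real.logb 2 (2 * τ)) := by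
  obtain ⟨K₁, h₁⟩ := toolG D
  obtain ⟨K₂, h₂⟩ := toolM D
  obtain ⟨K₃, h₃⟩ := toolC D
  refine ⟨K₁ + K₂ + K₃, fun c S τ h hτ hS => ⟨?_, ?_, ?_⟩⟩
  · intro t u v a1 a2 a3 I J k W b1 b2 b3 b4 b5 b6
    exact logb_le hS.card_pos hτ.one_le (by omega)
      (h₁ c S τ h hτ t u v a1 a2 a3 I J k W b1 b2 b3 b4 b5 b6)
  · intro t u v a1 a2 a3 I J r W W' b1 b2 b3 b4 b5 b6 b7
    exact logb_le hS.card_pos hτ.one_le (by omega)
      (h₂ c S τ h hτ t u v a1 a2 a3 I J r W W' b1 b2 b3 b4 b5 b6 b7)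
  · intro t u v a1 a2 a3 U k b1 b2 b3
    exact logb_le hS.card_pos hτ.one_le (by omega)
      (h₃ c S τ h hτ t u v a1 a2 a3 U k b1 b2 b3)

theorem root_eq : mkRows aroot = baseE.map E.pk := rfl

theorem base_holds {D : ℕ} {c : Box D} {S : Finset (Ix D → ℕ)} {ν κ s : ℝ} (hD : 6 ≤ D)
    (h : Good c S) (hS : S.Nonempty) (hκ : 0 ≤ κ) (hT : TB c S ν κ) (hs : 0 ≤ s)
    (hm : (c.mass univ : ℝ) ≤ c.L + s) (h1 : c.mass (tm D 1) ≤ c.mass (tm D 0))
    (h2 : c.mass (tm D 2) ≤ c.mass (tm D 1)) :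
    ∀ e ∈ baseE, -(48 * κ + s) ≤ e.ev (vv c ν) := by
  have hw : ∀ t : Fin 3, (wtM t 63).ev (vv c ν) ≤ c.L := fun t => by
    refine (ev_wtM_le c ν t 63).trans ?_
    rw [selF_63]
    exact_mod_cast h.wt_le hS t
  have m0 : (mass 0).ev (vv c ν) = c.mass (tm D 0) := ev_mass c ν 0
  have m1 : (mass 1).ev (vv c ν) = c.mass (tm D 1) := ev_mass c ν 1
  have m2 : (mass 2).ev (vv c ν) = c.mass (tm D 2) := ev_mass c ν 2
  have w0 : (wtM 0 63).ev (vv c ν) ≤ c.L := hw 0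
  have w1 : (wtM 1 63).ev (vv c ν) ≤ c.L := hw 1
  have w2 : (wtM 2 63).ev (vv c ν) ≤ c.L := hw 2
  have h1' : (c.mass (tm D 1) : ℝ) ≤ c.mass (tm D 0) := by exact_mod_cast h1
  have h2' : (c.mass (tm D 2) : ℝ) ≤ c.mass (tm D 1) := by exact_mod_cast h2
  have hg := hT.g 0 1 2 (by decide) (by decide) (by decide) ∅ ∅ 1 _ (empty_subset _)
    (empty_subset _) le_rfl (by omega) (by simp) (h.modw_wt 0 ∅)
  rw [sdiff_empty, mass_union c (disj_tm (by decide))] at hg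
  simp only [Box.mass, Box.wt, sum_empty, Nat.cast_zero, zero_div, sub_zero, max_self, add_zero,
    zero_add] at hg
  rw [mass_univ, Fin.sum_univ_three] at hm
  push_cast at hm hg
  simp only [baseE, List.forall_mem_cons, E.ev, total, m0, m1, m2, ev_ell, ev_nu]
  simp only [Box.mass] at *
  push_cast at *
  refine ⟨?_, ?_, ?_, ?_, ?_, ?_, ?_, List.forall_mem_nil _⟩ <;> linarith

theorem box_sorted : ∃ K : ℝ, 0 ≤ K ∧ ∀ D : ℕ, 6 ≤ D → ∀ (c : Box D) (S : Finset (Ix D → ℕ))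
    (ν κ s : ℝ), Good c S → S.Nonempty → 0 ≤ ν → 0 ≤ κ → TB c S ν κ → 0 ≤ s →
    (c.mass univ : ℝ) ≤ c.L + s → c.mass (tm D 1) ≤ c.mass (tm D 0) →
    c.mass (tm D 2) ≤ c.mass (tm D 1) →
    37 * ν ≤ 15 * c.mass univ + 5 * c.L + K * (48 * κ + s) := by
  obtain ⟨K, hK, hh⟩ := asound
  refine ⟨K, hK, fun D hD c S ν κ s h hS hν hκ hT hs hm h1 h2 => ?_⟩
  have key := hh (vv c ν) (48 * κ + s) (by positivity) (vv_nonneg c hν) (fun par hv => by
      obtain ⟨e, he, h3⟩ := tools_of_TB hD h hS hκ hT par hv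
      exact ⟨e, he, by linarith⟩)
    (fun r hr => by
      rw [root_eq] at hr
      obtain ⟨e, he, rfl⟩ := List.mem_map.mp hr
      exact ⟨_, rep_pk _ e, base_holds hD h hS hκ hT hs hm h1 h2 e he⟩) trivial
  have m0 : (mass 0).ev (vv c ν) = c.mass (tm D 0) := ev_mass c ν 0
  have m1 : (mass 1).ev (vv c ν) = c.mass (tm D 1) := ev_mass c ν 1
  have m2 : (mass 2).ev (vv c ν) = c.mass (tm D 2) := ev_mass c ν 2
  simp only [sys, goal, total, E.ev, m0, m1, m2, ev_nu, ev_ell] at key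
  rw [mass_univ, Fin.sum_univ_three]
  push_cast at key ⊢
  linarith

theorem box_bound : BoxBound (15 / 37) (5 / 37) := by
  obtain ⟨K, hK, hh⟩ := box_sorted
  refine ⟨K / 37, 6, by positivity, fun D hD => ?_⟩
  obtain ⟨K₀, hK₀⟩ := exists_TB D
  refine ⟨⌈K * 48 * K₀ / 37⌉₊, fun c S τ h hτ s hs hm => ?_⟩
  have hτ1 : (1 : ℝ) ≤ τ := by exact_mod_cast hτ.one_le
  rcases S.eq_empty_or_nonempty with rfl | hS
  · simp only [card_empty, Nat.cast_zero]; positivity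
  obtain ⟨π, hπ⟩ : ∃ π : Equiv.Perm (Fin 3),
      Monotone ((fun t : Fin 3 => -(c.mass (tm D t) : ℤ)) ∘ π) := ⟨_, Tuple.monotone_sort _⟩
  obtain ⟨S', hc, h'⟩ := h.perm π
  set c' : Box D := ⟨fun j => c.e (π j.1, j.2), fun t => c.p (π t), c.L, fun t => c.σ (π t)⟩
    with hc'
  have hmt : ∀ t, c'.mass (tm D t) = c.mass (tm D (π t)) := fun t => by
    rw [mass_tm, mass_tm]
  have hmu : c'.mass univ = c.mass univ := by
    rw [mass_univ, mass_univ]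
    simp only [hmt]
    exact Equiv.sum_comp π (fun t => c.mass (tm D t))
  have hS' : S'.Nonempty := card_pos.mp (hc ▸ hS.card_pos)
  have hcard : (1 : ℝ) ≤ S.card := by exact_mod_cast hS.card_pos
  have hl : 0 ≤ Real.logb 2 (2 * τ : ℝ) := Real.logb_nonneg (by norm_num) (by linarith)
  have key := hh D hD c' S' _ _ s h' hS'
    (Real.logb_nonneg (by norm_num) (by rw [hc]; exact hcard)) (by positivity)
    (hK₀ c' S' τ h' hτ hS') hs (by rw [hmu]; exact hm)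
    (by
      have := hπ (show (0 : Fin 3) ≤ 1 by decide)
      simp only [Function.comp] at this
      rw [hmt, hmt]; omega)
    (by
      have := hπ (show (1 : Fin 3) ≤ 2 by decide)
      simp only [Function.comp] at this
      rw [hmt, hmt]; omega)
  rw [hmu, hc] at key
  have e1 : (S.card : ℝ) = (2 : ℝ) ^ Real.logb 2 S.card :=
    (Real.rpow_logb (by norm_num) (by norm_num) (by linarith)).symm
  have e2 : (2 * τ : ℝ) ^ ⌈K * 48 * K₀ / 37⌉₊
      = (2 : ℝ) ^ ((⌈K * 48 * K₀ / 37⌉₊ : ℝ) * Real.logb 2 (2 * τ)) := by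
    rw [mul_comm (⌈K * 48 * K₀ / 37⌉₊ : ℝ), Real.rpow_mul (by norm_num),
      Real.rpow_logb (by norm_num) (by norm_num) (by linarith), Real.rpow_natCast]
  rw [e1, e2, ← Real.rpow_add (by norm_num)]
  refine Real.rpow_le_rpow_of_exponent_le (by norm_num) ?_
  have h3 := mul_le_mul_of_nonneg_right (Nat.le_ceil (K * 48 * K₀ / 37)) hl
  have hL : (c'.L : ℝ) = c.L := rfl
  rw [hL] at key
  linarith

end Pool.Agent.P.MP_9ec3f0_nt.Exc
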