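import Mathlib

/-
A reflective checker for branch-and-bound proofs of homogeneous linear inequalities with slack.
Linear forms in 20 variables are packed into natural numbers in a large base.
-/

set_option linter.dupNamespace false

namespace Pool.Agent.P.MP_9ec3f0_nt.Exc.LP

open Finset

/-- Symbolic linear forms. -/
inductive E : Type
  | var (j : ℕ) : E
  | zero : E
  | add (a b : E) : E
  | sub (a b : E) : E
  | smul (n : ℕ) (a : E) : E

/-- Value of a form. -/
noncomputable def E.ev (v : ℕ → ℝ) : E → ℝ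
  | .var j => if j < 20 then v j else 0
  | .zero => 0
  | .add a b => a.ev v + b.ev v
  | .sub a b => a.ev v - b.ev v
  | .smul n a => n * a.ev v

/-- Packed form: positive part, negative part, bound for the digits. -/
structure Row : Type where
  P : ℕ
  N : ℕ
  c : ℕ

def bs : ℕ := 1208937220329444497904661

def force {α : Type} (n : ℕ) (k : ℕ → α) : α := Nat.casesOn n (k 0) (fun m => k (Nat.succ m))

theorem force_eq {α : Type} (n : ℕ) (k : ℕ → α) : force n k = k n := by cases n <;> rfl

def forceR {α : Type} (r : Row) (k : Row → α) : α :=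
  Row.casesOn r (fun P N c => force P fun P => force N fun N => force c fun c => k ⟨P, N, c⟩)

theorem forceR_eq {α : Type} (r : Row) (k : Row → α) : forceR r k = k r := by
  cases r; simp only [forceR, force_eq]

def Row.add (a b : Row) : Row :=
  Row.casesOn a fun P N c => Row.casesOn b fun P' N' c' => ⟨Nat.add P P', Nat.add N N', Nat.add c c'⟩

def Row.sub (a b : Row) : Row :=
  Row.casesOn a fun P N c => Row.casesOn b fun P' N' c' => ⟨Nat.add P N', Nat.add N P', Nat.add c c'⟩

def Row.smul (n : ℕ) (a : Row) : Row :=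
  Row.casesOn a fun P N c => ⟨Nat.mul n P, Nat.mul n N, Nat.mul n c⟩

noncomputable def E.pk (e : E) : Row :=
  E.rec (fun j => cond (Nat.ble 20 j) ⟨0, 0, 0⟩ ⟨Nat.pow bs j, 0, 1⟩) ⟨0, 0, 0⟩
    (fun _ _ a b => a.add b) (fun _ _ a b => a.sub b) (fun n _ a => a.smul n) e

/-- The packed row `r` represents a form whose value at `v` is `a`. -/
def Rep (v : ℕ → ℝ) (r : Row) (a : ℝ) : Prop :=
  ∃ p q : ℕ → ℕ, r.P = ∑ j ∈ range 20, p j * bs ^ j ∧ r.N = ∑ j ∈ range 20, q j * bs ^ j ∧
    (∀ j, p j ≤ r.c ∧ q j ≤ r.c) ∧ a = ∑ j ∈ range 20, ((p j : ℝ) - q j) * v j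

theorem Rep.add {v : ℕ → ℝ} {r r' : Row} {a a' : ℝ} (h : Rep v r a) (h' : Rep v r' a') :
    Rep v (r.add r') (a + a') := by
  obtain ⟨P, N, c⟩ := r
  obtain ⟨P', N', c'⟩ := r'
  obtain ⟨p, q, h1, h2, h3, h4⟩ := h
  obtain ⟨p', q', h1', h2', h3', h4'⟩ := h'
  simp only at h1 h2 h3 h1' h2' h3'
  refine ⟨fun j => p j + p' j, fun j => q j + q' j, ?_, ?_, fun j => ?_, ?_⟩
  · show P + P' = _
    simp only [add_mul, sum_add_distrib, h1, h1']
  · show N + N' = _
    simp only [add_mul, sum_add_distrib, h2, h2']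
  · have := h3 j; have := h3' j
    show p j + p' j ≤ c + c' ∧ q j + q' j ≤ c + c'
    omega
  · rw [h4, h4', ← sum_add_distrib]
    refine sum_congr rfl fun j _ => ?_
    push_cast; ring

theorem Rep.sub {v : ℕ → ℝ} {r r' : Row} {a a' : ℝ} (h : Rep v r a) (h' : Rep v r' a') :
    Rep v (r.sub r') (a - a') := by
  obtain ⟨P, N, c⟩ := r
  obtain ⟨P', N', c'⟩ := r'
  obtain ⟨p, q, h1, h2, h3, h4⟩ := h
  obtain ⟨p', q', h1', h2', h3', h4'⟩ := h'
  simp only at h1 h2 h3 h1' h2' h3'
  refine ⟨fun j => p j + q' j, fun j => q j + p' j, ?_, ?_, fun j => ?_, ?_⟩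
  · show P + N' = _
    simp only [add_mul, sum_add_distrib, h1, h2']
  · show N + P' = _
    simp only [add_mul, sum_add_distrib, h2, h1']
  · have := h3 j; have := h3' j
    show p j + q' j ≤ c + c' ∧ q j + p' j ≤ c + c'
    omega
  · rw [h4, h4', ← sum_sub_distrib]
    refine sum_congr rfl fun j _ => ?_
    push_cast; ring

theorem Rep.smul {v : ℕ → ℝ} {r : Row} {a : ℝ} (n : ℕ) (h : Rep v r a) :
    Rep v (r.smul n) (n * a) := by
  obtain ⟨P, N, c⟩ := r
  obtain ⟨p, q, h1, h2, h3, h4⟩ := h
  simp only at h1 h2 h3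
  refine ⟨fun j => n * p j, fun j => n * q j, ?_, ?_, fun j => ?_, ?_⟩
  · show n * P = _
    simp only [h1, mul_sum, mul_assoc]
  · show n * N = _
    simp only [h2, mul_sum, mul_assoc]
  · exact ⟨Nat.mul_le_mul_left n (h3 j).1, Nat.mul_le_mul_left n (h3 j).2⟩
  · rw [h4, mul_sum]
    refine sum_congr rfl fun j _ => ?_
    push_cast; ring

theorem rep_zero (v : ℕ → ℝ) : Rep v ⟨0, 0, 0⟩ 0 :=
  ⟨fun _ => 0, fun _ => 0, by simp, by simp, by simp, by simp⟩

theorem rep_pk (v : ℕ → ℝ) (e : E) : Rep v e.pk (e.ev v) := by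
  induction e with
  | var j =>
    by_cases hj : j < 20
    · have hb : Nat.ble 20 j = false := by
        rw [← Bool.not_eq_true, Nat.ble_eq]; omega
      have : (E.var j).pk = ⟨bs ^ j, 0, 1⟩ := by
        show cond (Nat.ble 20 j) _ _ = _
        rw [hb]; rfl
      rw [this]
      refine ⟨fun i => if i = j then 1 else 0, fun _ => 0, ?_, by simp, fun i => ?_, ?_⟩
      · simp [hj]
      · constructor
        · show (if i = j then 1 else 0) ≤ 1
          split_ifs <;> omega
        · simp
      · simp [E.ev, hj]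
    · have hb : Nat.ble 20 j = true := by
        rw [Nat.ble_eq]; omega
      have : (E.var j).pk = ⟨0, 0, 0⟩ := by
        show cond (Nat.ble 20 j) _ _ = _
        rw [hb]; rfl
      rw [this]
      simpa [E.ev, hj] using rep_zero v
  | zero => exact rep_zero v
  | add a b iha ihb => exact iha.add ihb
  | sub a b iha ihb => exact iha.sub ihb
  | smul n a ih => exact ih.smul n

/-- Digitwise comparison. -/
noncomputable def cmp (n : ℕ) : ℕ → ℕ → Bool :=
  Nat.rec (fun _ _ => true)
    (fun _ ih P N => Bool.and (Nat.ble (Nat.mod P bs) (Nat.mod N bs))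
      (force (Nat.div P bs) fun P' => force (Nat.div N bs) fun N' => ih P' N')) n

theorem cmp_spec (n : ℕ) : ∀ p q : ℕ → ℕ, (∀ j, p j < bs ∧ q j < bs) →
    cmp n (∑ j ∈ range n, p j * bs ^ j) (∑ j ∈ range n, q j * bs ^ j) = true →
    ∀ j < n, p j ≤ q j := by
  induction n with
  | zero => intro p q _ _ j hj; omega
  | succ n ih =>
    intro p q hb h
    have key : ∀ f : ℕ → ℕ, f 0 < bs →
        (∑ j ∈ range (n + 1), f j * bs ^ j) % bs = f 0 ∧
        (∑ j ∈ range (n + 1), f j * bs ^ j) / bs = ∑ j ∈ range n, f (j + 1) * bs ^ j := by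
      intro f hf
      have e : ∑ j ∈ range (n + 1), f j * bs ^ j
          = f 0 + bs * ∑ j ∈ range n, f (j + 1) * bs ^ j := by
        rw [sum_range_succ', mul_sum, add_comm]
        congr 1
        · simp
        · exact sum_congr rfl fun j _ => by ring
      have hpos : 0 < bs := by omega
      rw [e]
      constructor
      · rw [Nat.add_mul_mod_self_left, Nat.mod_eq_of_lt hf]
      · rw [Nat.add_mul_div_left _ _ hpos, Nat.div_eq_of_lt hf, zero_add]
    have h' : (Nat.ble ((∑ j ∈ range (n + 1), p j * bs ^ j) % bs)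
        ((∑ j ∈ range (n + 1), q j * bs ^ j) % bs) &&
        cmp n ((∑ j ∈ range (n + 1), p j * bs ^ j) / bs)
          ((∑ j ∈ range (n + 1), q j * bs ^ j) / bs)) = true := by
      have := h
      simp only [cmp, force_eq] at this ⊢
      exact this
    rw [(key p (hb 0).1).1, (key q (hb 0).2).1, (key p (hb 0).1).2, (key q (hb 0).2).2,
      Bool.and_eq_true, Nat.ble_eq] at h'
    intro j hj
    rcases j with _ | j
    · exact h'.1
    · exact ih (fun j => p (j + 1)) (fun j => q (j + 1)) (fun j => hb (j + 1)) h'.2 j (by omega)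

/-- Final test: the form has nonpositive coefficients. -/
noncomputable def fin (P N c : ℕ) : Bool := Bool.and (Nat.blt c bs) (cmp 20 P N)

theorem fin_spec {v : ℕ → ℝ} (hv : ∀ j, 0 ≤ v j) {P N c : ℕ} {a : ℝ} (h : Rep v ⟨P, N, c⟩ a)
    (hf : fin P N c = true) : a ≤ 0 := by
  obtain ⟨p, q, h1, h2, h3, h4⟩ := h
  simp only at h1 h2 h3
  simp only [fin, Bool.and_eq_true, Nat.blt_eq] at hf
  obtain ⟨hc, hcmp⟩ := hf
  rw [h1, h2] at hcmp
  have := cmp_spec 20 p q (fun j => by have := h3 j; omega) hcmp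
  rw [h4]
  refine sum_nonpos fun j hj => mul_nonpos_of_nonpos_of_nonneg ?_ (hv j)
  have : (p j : ℝ) ≤ q j := by exact_mod_cast this j (mem_range.mp hj)
  linarith

/-- The row holds up to the slack `s`. -/
def Holds (v : ℕ → ℝ) (s : ℝ) (r : Row) : Prop := ∃ a, Rep v r a ∧ -s ≤ a

/-- Accumulate multiples of the rows selected by the mask `m`, multipliers read from `s`
in base `w`. -/
noncomputable def leafGo (w : ℕ) (rows : List Row) : ℕ → ℕ → ℕ → ℕ → ℕ → Bool :=
  List.rec (fun _ _ P N c => fin P N c)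
    (fun r _ ih m s P N c =>
      force (Nat.div m 2) fun m' =>
      cond (Nat.beq (Nat.mod m 2) 1)
        (Row.casesOn r fun P' N' c' =>
          force (Nat.mod s w) fun l => force (Nat.div s w) fun s' =>
          force (Nat.add P (Nat.mul l P')) fun P₁ => force (Nat.add N (Nat.mul l N')) fun N₁ =>
          force (Nat.add c (Nat.mul l c')) fun c₁ => ih m' s' P₁ N₁ c₁)
        (ih m' s P N c)) rows

theorem leafGo_spec (w : ℕ) (rows : List Row) : ∀ m s P N c : ℕ, leafGo w rows m s P N c = true →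
    ∃ K : ℝ, 0 ≤ K ∧ ∀ (v : ℕ → ℝ) (σ : ℝ), 0 ≤ σ → (∀ j, 0 ≤ v j) → (∀ r ∈ rows, Holds v σ r) →
      ∀ a, Rep v ⟨P, N, c⟩ a → a ≤ K * σ := by
  induction rows with
  | nil =>
    intro m s P N c h
    refine ⟨0, le_rfl, fun v σ _ hv _ a ha => ?_⟩
    rw [zero_mul]
    exact fin_spec hv ha h
  | cons r rs ih =>
    intro m s P N c h
    obtain ⟨P', N', c'⟩ := r
    have h' : cond (Nat.beq (m % 2) 1)
        (leafGo w rs (m / 2) (s / w) (P + s % w * P') (N + s % w * N') (c + s % w * c'))
        (leafGo w rs (m / 2) s P N c) = true := by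
      have := h
      simp only [leafGo, force_eq] at this ⊢
      exact this
    cases hb : Nat.beq (m % 2) 1 with
    | false =>
      rw [hb] at h'
      obtain ⟨K, hK, hh⟩ := ih _ _ _ _ _ h'
      exact ⟨K, hK, fun v σ hσ hv hr a ha =>
        hh v σ hσ hv (fun r hr' => hr r (List.mem_cons_of_mem _ hr')) a ha⟩
    | true =>
      rw [hb] at h'
      obtain ⟨K, hK, hh⟩ := ih _ _ _ _ _ h'
      refine ⟨K + (s % w : ℕ), by positivity, fun v σ hσ hv hr a ha => ?_⟩
      obtain ⟨b, hb1, hb2⟩ := hr _ List.mem_cons_self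
      have := hh v σ hσ hv (fun r hr' => hr r (List.mem_cons_of_mem _ hr')) _
        (ha.add (hb1.smul (s % w)))
      have h0 : (0 : ℝ) ≤ (s % w : ℕ) := by positivity
      nlinarith

/-- A system of branching rules: a rule asserts that `base + e` is nonnegative for some
`e` in `ext`. -/
structure Sys : Type where
  valid : ℕ → Bool
  base : ℕ → E
  ext : ℕ → List E
  goal : E

def Tools (Y : Sys) (v : ℕ → ℝ) (s : ℝ) : Prop :=
  ∀ par, Y.valid par = true → ∃ e ∈ Y.ext par, -s ≤ (Y.base par).ev v + e.ev v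

def SoundX (Y : Sys) (rows : List Row) (H : (ℕ → ℝ) → ℝ → Prop) : Prop :=
  ∃ K : ℝ, 0 ≤ K ∧ ∀ (v : ℕ → ℝ) (s : ℝ), 0 ≤ s → (∀ j, 0 ≤ v j) → Tools Y v s →
    (∀ r ∈ rows, Holds v s r) → H v s → Y.goal.ev v ≤ K * s

def Sound (Y : Sys) (rows : List Row) : Prop := SoundX Y rows (fun _ _ => True)

/-- Proof trees. -/
inductive T : Type
  | leaf (w m s : ℕ) : T
  | hole (k : ℕ) : T
  | keep (m : ℕ) (t : T) : T
  | node (par : ℕ) (kids : T) : T
  | cons (m : ℕ) (h t : T) : T
  | nil : T

def T.isTree (t : T) : Bool :=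
  T.casesOn t (fun _ _ _ => true) (fun _ => true) (fun _ _ => true) (fun _ _ => true)
    (fun _ _ _ => false) false

noncomputable def forceL {α : Type} (l : List Row) : (List Row → α) → α :=
  List.rec (fun k => k []) (fun r _ ih k => forceR r fun r' => ih fun l' => k (r' :: l')) l

theorem forceL_eq {α : Type} (l : List Row) : ∀ k : List Row → α, forceL l k = k l := by
  induction l with
  | nil => intro k; rfl
  | cons r rs ih =>
    intro k
    show forceR r (fun r' => forceL rs fun l' => k (r' :: l')) = _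
    rw [forceR_eq, ih]

/-- The rows selected by a mask (in reverse order), put in front of `acc`. -/
noncomputable def sel {α : Type} (f : Row → Row) (l : List Row) :
    ℕ → List Row → (List Row → α) → α :=
  List.rec (fun _ acc k => k acc)
    (fun r _ ih m acc k => force (Nat.div m 2) fun m' =>
      cond (Nat.beq (Nat.mod m 2) 1) (forceR (f r) fun r' => ih m' (r' :: acc) k) (ih m' acc k)) l

theorem sel_spec {α : Type} (f : Row → Row) (l : List Row) :
    ∀ (m : ℕ) (acc : List Row) (k : List Row → α), ∃ l', sel f l m acc k = k l' ∧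
      ∀ r ∈ l', r ∈ acc ∨ ∃ y ∈ l, r = f y := by
  induction l with
  | nil => intro m acc k; exact ⟨acc, rfl, fun r hr => Or.inl hr⟩
  | cons y ys ih =>
    intro m acc k
    have e : sel f (y :: ys) m acc k = cond (Nat.beq (m % 2) 1)
        (sel f ys (m / 2) (f y :: acc) k) (sel f ys (m / 2) acc k) := by
      simp only [sel, force_eq, forceR_eq]
      rfl
    rw [e]
    cases Nat.beq (m % 2) 1 with
    | false =>
      obtain ⟨l', h1, h2⟩ := ih (m / 2) acc k
      refine ⟨l', h1, fun r hr => (h2 r hr).imp id ?_⟩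
      rintro ⟨z, hz, rfl⟩
      exact ⟨z, List.mem_cons_of_mem _ hz, rfl⟩
    | true =>
      obtain ⟨l', h1, h2⟩ := ih (m / 2) (f y :: acc) k
      refine ⟨l', h1, fun r hr => ?_⟩
      rcases h2 r hr with h | ⟨z, hz, rfl⟩
      · rcases List.mem_cons.mp h with rfl | h
        · exact Or.inr ⟨y, List.mem_cons_self, rfl⟩
        · exact Or.inl h
      · exact Or.inr ⟨z, List.mem_cons_of_mem _ hz, rfl⟩

noncomputable def rowsEq (l : List Row) : List Row → Bool :=
  List.rec (fun l' => List.casesOn l' true (fun _ _ => false))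
    (fun r _ ih l' => List.casesOn l' false (fun r' t' =>
      Bool.and (Nat.beq r.P r'.P) (Bool.and (Nat.beq r.N r'.N)
        (Bool.and (Nat.beq r.c r'.c) (ih t'))))) l

theorem rowsEq_spec (l : List Row) : ∀ l', rowsEq l l' = true → l = l' := by
  induction l with
  | nil => intro l' h; cases l' with
    | nil => rfl
    | cons _ _ => exact absurd h (by simp [rowsEq])
  | cons r rs ih => intro l' h; cases l' with
    | nil => exact absurd h (by simp [rowsEq])
    | cons r' t' =>
      have h' : (Nat.beq r.P r'.P && (Nat.beq r.N r'.N && (Nat.beq r.c r'.c && rowsEq rs t')))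
        = true := h
      simp only [Bool.and_eq_true, Nat.beq_eq] at h'
      obtain ⟨P, N, c⟩ := r
      obtain ⟨P', N', c'⟩ := r'
      simp only at h'
      rw [h'.1, h'.2.1, h'.2.2.1, ih t' h'.2.2.2]

noncomputable def pkL (l : List E) : List Row := List.rec [] (fun e _ ih => e.pk :: ih) l

theorem pkL_eq (l : List E) : pkL l = l.map E.pk := by
  induction l with
  | nil => rfl
  | cons e es ih => show e.pk :: pkL es = _; rw [ih]; rfl

/-- The checker. -/
noncomputable def chk (Y : Sys) (g : Row) (known : List (List Row)) (t : T) :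
    List Row → Row → List Row → List Row → Bool :=
  T.rec
    (fun w m s rows _ _ _ => force (Nat.pow 2 w) fun W => force (Nat.mod s W) fun μ =>
      Bool.and (Nat.ble 1 μ) (forceR (g.smul μ) fun r => Row.casesOn r fun P N c =>
        leafGo W rows m (Nat.div s W) P N c))
    (fun k rows _ _ _ => Option.casesOn known[k]? false (fun l => rowsEq l rows))
    (fun m t ih rows b xs rem => Bool.and t.isTree
      (sel (fun r => r) rows m [] fun rows' => ih rows' b xs rem))
    (fun par _ ih rows _ _ _ => force par fun par => Bool.and (Y.valid par)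
      (forceR (Y.base par).pk fun b => forceL (pkL (Y.ext par)) fun xs => ih rows b xs xs))
    (fun m h _ ihh iht rows b xs rem => List.casesOn rem false fun x rest =>
      Bool.and h.isTree (Bool.and
        (forceR (b.add x) fun bx => sel (fun y => x.sub y) xs m (bx :: rows) fun rows' =>
          ihh rows' b [] [])
        (iht rows b xs rest)))
    (fun _ _ _ rem => List.casesOn rem true fun _ _ => false) t

def Arg (b : Row) (xs rem : List Row) (v : ℕ → ℝ) (s : ℝ) : Prop :=
  ∃ x ∈ rem, ∃ a, Rep v x a ∧ (∃ β, Rep v b β ∧ -s ≤ β + a) ∧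
    ∀ y ∈ xs, ∃ a', Rep v y a' ∧ a' ≤ a

theorem exists_argmax (v : ℕ → ℝ) (l : List E) (e : E) (he : e ∈ l) :
    ∃ e' ∈ l, ∀ y ∈ l, y.ev v ≤ e'.ev v := by
  classical
  obtain ⟨e', h1, h2⟩ := Finset.exists_max_image l.toFinset (fun y => y.ev v)
    ⟨e, List.mem_toFinset.mpr he⟩
  exact ⟨e', List.mem_toFinset.mp h1, fun y hy => h2 y (List.mem_toFinset.mpr hy)⟩

theorem chk_sound (Y : Sys) (known : List (List Row)) (hk : ∀ l ∈ known, Sound Y l) (t : T) :
    ∀ (rows : List Row) (b : Row) (xs rem : List Row),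
      chk Y Y.goal.pk known t rows b xs rem = true →
      SoundX Y rows (fun v s => t.isTree = true ∨ Arg b xs rem v s) := by
  induction t with
  | leaf w m s =>
    intro rows b xs rem h
    have h' : (Nat.ble 1 (s % 2 ^ w) && leafGo (2 ^ w) rows m (s / 2 ^ w)
        (Y.goal.pk.smul (s % 2 ^ w)).P (Y.goal.pk.smul (s % 2 ^ w)).N
        (Y.goal.pk.smul (s % 2 ^ w)).c) = true := by
      have := h
      simp only [chk, force_eq, forceR_eq] at this
      exact this
    rw [Bool.and_eq_true, Nat.ble_eq] at h'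
    obtain ⟨K, hK, hh⟩ := leafGo_spec _ _ _ _ _ _ _ h'.2
    refine ⟨K, hK, fun v σ hσ hv _ hr _ => ?_⟩
    have h1 := hh v σ hσ hv hr _ ((rep_pk v Y.goal).smul (s % 2 ^ w))
    have h2 : (1 : ℝ) ≤ (s % 2 ^ w : ℕ) := by exact_mod_cast h'.1
    by_contra hc
    push Not at hc
    have h3 : 0 ≤ K * σ := mul_nonneg hK hσ
    nlinarith
  | hole k =>
    intro rows b xs rem h
    have h' : (Option.casesOn known[k]? false (fun l => rowsEq l rows) : Bool) = true := h
    cases hl : known[k]? with
    | none => rw [hl] at h'; exact absurd h' (by simp)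
    | some l =>
      rw [hl] at h'
      have e := rowsEq_spec l rows h'
      obtain ⟨K, hK, hh⟩ := hk l (List.mem_of_getElem? hl)
      exact ⟨K, hK, fun v s hs hv hT hr _ => hh v s hs hv hT (e ▸ hr) trivial⟩
  | keep m t ih =>
    intro rows b xs rem h
    have h' : (t.isTree && sel (fun r => r) rows m [] (fun rows' =>
        chk Y Y.goal.pk known t rows' b xs rem)) = true := h
    rw [Bool.and_eq_true] at h'
    obtain ⟨l', e, hl'⟩ := sel_spec (fun r => r) rows m [] (fun rows' =>
        chk Y Y.goal.pk known t rows' b xs rem)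
    rw [e] at h'
    obtain ⟨K, hK, hh⟩ := ih _ _ _ _ h'.2
    refine ⟨K, hK, fun v s hs hv hT hr _ => hh v s hs hv hT (fun r hr' => ?_) (Or.inl h'.1)⟩
    rcases hl' r hr' with h4 | ⟨z, hz, rfl⟩
    · exact absurd h4 (by simp)
    · exact hr _ hz
  | node par kids ih =>
    intro rows b xs rem h
    have h' : (Y.valid par && chk Y Y.goal.pk known kids rows (Y.base par).pk
        (pkL (Y.ext par)) (pkL (Y.ext par))) = true := by
      have := h
      simp only [chk, force_eq, forceR_eq, forceL_eq] at this ⊢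
      exact this
    rw [Bool.and_eq_true] at h'
    obtain ⟨K, hK, hh⟩ := ih _ _ _ _ h'.2
    refine ⟨K, hK, fun v s hs hv hT hr _ => hh v s hs hv hT hr (Or.inr ?_)⟩
    obtain ⟨e, he, hs'⟩ := hT par h'.1
    obtain ⟨e', he', hmax⟩ := exists_argmax v _ e he
    rw [pkL_eq]
    refine ⟨e'.pk, List.mem_map_of_mem he', e'.ev v, rep_pk v e',
      ⟨_, rep_pk v _, by linarith [hmax e he]⟩, fun y hy => ?_⟩
    obtain ⟨z, hz, rfl⟩ := List.mem_map.mp hy
    exact ⟨_, rep_pk v z, hmax z hz⟩
  | cons m h t ihh iht =>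
    intro rows b xs rem hc
    cases rem with
    | nil => exact absurd hc (by simp [chk])
    | cons x rest =>
      have h' : (h.isTree && (sel (fun y => x.sub y) xs m (b.add x :: rows) (fun rows' =>
          chk Y Y.goal.pk known h rows' b [] []) &&
          chk Y Y.goal.pk known t rows b xs rest)) = true := by
        have := hc
        simp only [chk, force_eq, forceR_eq] at this ⊢
        exact this
      simp only [Bool.and_eq_true] at h'
      obtain ⟨h1, h2, h3⟩ := h'
      obtain ⟨l', e, hl'⟩ := sel_spec (fun y => x.sub y) xs m (b.add x :: rows) (fun rows' =>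
          chk Y Y.goal.pk known h rows' b [] [])
      rw [e] at h2
      obtain ⟨K₁, hK₁, hh₁⟩ := ihh _ _ _ _ h2
      obtain ⟨K₂, hK₂, hh₂⟩ := iht _ _ _ _ h3
      refine ⟨max K₁ K₂, le_max_of_le_left hK₁, fun v s hs hv hT hr hA => ?_⟩
      rcases hA with hA | ⟨y, hy, a, ha, ⟨β, hβ, hsum⟩, hmax⟩
      · exact absurd hA (by simp [T.isTree])
      rcases List.mem_cons.mp hy with rfl | hy
      · refine (hh₁ v s hs hv hT (fun r hr' => ?_) (Or.inl h1)).trans
          (mul_le_mul_of_nonneg_right (le_max_left _ _) hs)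
        rcases hl' r hr' with h4 | ⟨z, hz, rfl⟩
        · rcases List.mem_cons.mp h4 with rfl | h4
          · exact ⟨_, hβ.add ha, hsum⟩
          · exact hr r h4
        · obtain ⟨a', ha', hle⟩ := hmax z hz
          exact ⟨_, ha.sub ha', by linarith⟩
      · exact (hh₂ v s hs hv hT hr (Or.inr ⟨y, hy, a, ha, ⟨β, hβ, hsum⟩, hmax⟩)).trans
          (mul_le_mul_of_nonneg_right (le_max_right _ _) hs)
  | nil =>
    intro rows b xs rem h
    cases rem with
    | cons x rest => exact absurd h (by simp [chk])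
    | nil =>
      refine ⟨0, le_rfl, fun v s _ _ _ _ hA => ?_⟩
      rcases hA with hA | ⟨y, hy, _⟩
      · exact absurd hA (by simp [T.isTree])
      · exact absurd hy (by simp)

/-- Top-level check of a tree. -/
noncomputable def run (Y : Sys) (known : List (List Row)) (rows : List Row) (t : T) : Bool :=
  forceR Y.goal.pk fun g => forceL rows fun rows =>
    Bool.and t.isTree (chk Y g known t rows ⟨0, 0, 0⟩ [] [])

theorem run_sound (Y : Sys) (known : List (List Row)) (hk : ∀ l ∈ known, Sound Y l)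
    (rows : List Row) (t : T) (h : run Y known rows t = true) : Sound Y rows := by
  simp only [run, forceR_eq, forceL_eq, Bool.and_eq_true] at h
  obtain ⟨K, hK, hh⟩ := chk_sound Y known hk t _ _ _ _ h.2
  exact ⟨K, hK, fun v s hs hv hT hr _ => hh v s hs hv hT hr (Or.inl h.1)⟩

end Pool.Agent.P.MP_9ec3f0_nt.Exc.LP
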