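import Pool.Agent.P.MP_9ec3f0_nt.Exc.Defs

/-
From coprime triples `a + b = c` to rational points of the line minus three points.
-/

namespace Pool.Agent.P.MP_9ec3f0_nt.Exc

open Finset

/-- One sign class of rational points. -/
theorem rat_class (θ lam : ℝ) (h0 : 0 ≤ lam) (S : Finset ℕ) (C δ C₁ : ℝ)
    (h : ∀ X : ℝ, 1 ≤ X → ∀ T : Finset (ℕ × ℕ),
      (∀ z ∈ T, 0 < z.1 ∧ 0 < z.2 ∧ Nat.Coprime z.1 z.2 ∧ ((z.1 + z.2 : ℕ) : ℝ) ≤ X ∧
        ((∏ p ∈ (z.1 * z.2 * (z.1 + z.2)).primeFactors, p : ℕ) : ℝ)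
          ≤ ((∏ p ∈ S, max p 1 : ℕ) : ℝ) * Real.exp C * ((z.1 + z.2 : ℕ) : ℝ) ^ lam) →
      (T.card : ℝ) ≤ C₁ * X ^ (θ + δ))
    (B : ℝ) (hB : 1 ≤ B) (T : Finset ℚ) (f : ℚ → ℕ × ℕ) (hinj : Set.InjOn f T)
    (hf : ∀ q ∈ T, 0 < (f q).1 ∧ 0 < (f q).2 ∧ Nat.Coprime (f q).1 (f q).2 ∧
      max q.num.natAbs q.den ≤ (f q).1 + (f q).2 ∧
      (f q).1 + (f q).2 ≤ 2 * max q.num.natAbs q.den ∧
      (f q).1 * (f q).2 * ((f q).1 + (f q).2) = (q.num * q.den * (q.num - q.den)).natAbs)
    (hT : ∀ q ∈ T, ((max q.num.natAbs q.den : ℕ) : ℝ) ≤ B ∧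
        ∑ p ∈ (q.num * q.den * (q.num - q.den)).natAbs.primeFactors \ S, Real.log p
          ≤ lam * Real.log ((max q.num.natAbs q.den : ℕ) : ℝ) + C) :
    (T.card : ℝ) ≤ C₁ * (2 * B) ^ (θ + δ) := by
  classical
  rw [← card_image_of_injOn hinj]
  apply h (2 * B) (by linarith)
  intro z hz
  obtain ⟨q, hq, rfl⟩ := mem_image.1 hz
  obtain ⟨h1, h2, h3, h4, h5, h6⟩ := hf q hq
  obtain ⟨hb, hs⟩ := hT q hq
  refine ⟨h1, h2, h3, ?_, ?_⟩
  · have : (((f q).1 + (f q).2 : ℕ) : ℝ) ≤ ((2 * max q.num.natAbs q.den : ℕ) : ℝ) := by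
      exact_mod_cast h5
    rw [Nat.cast_mul, Nat.cast_ofNat] at this
    linarith
  · rw [h6]
    set N := (q.num * q.den * (q.num - q.den)).natAbs with hN
    set H := max q.num.natAbs q.den with hH
    have hHpos : (0 : ℝ) < (H : ℝ) := by
      have : 0 < H := lt_of_lt_of_le q.pos (le_max_right _ _)
      exact_mod_cast this
    have hsplit : ∏ p ∈ N.primeFactors, p
        = (∏ p ∈ N.primeFactors ∩ S, p) * ∏ p ∈ N.primeFactors \ S, p := by
      rw [prod_inter_mul_prod_sdiff]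
    have hA : ∏ p ∈ N.primeFactors ∩ S, p ≤ ∏ p ∈ S, max p 1 := by
      calc ∏ p ∈ N.primeFactors ∩ S, p ≤ ∏ p ∈ N.primeFactors ∩ S, max p 1 :=
            prod_le_prod' (fun p _ => le_max_left _ _)
        _ ≤ ∏ p ∈ S, max p 1 :=
            prod_le_prod_of_subset_of_one_le' inter_subset_right (fun p _ _ => le_max_right _ _)
    have hBd : ((∏ p ∈ N.primeFactors \ S, p : ℕ) : ℝ) ≤ Real.exp C * (H : ℝ) ^ lam := by
      have e1 : ((∏ p ∈ N.primeFactors \ S, p : ℕ) : ℝ)
          = Real.exp (∑ p ∈ N.primeFactors \ S, Real.log p) := by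
        rw [Real.exp_sum, Nat.cast_prod]
        apply prod_congr rfl
        intro p hp
        have : 0 < p := (Nat.prime_of_mem_primeFactors (mem_sdiff.1 hp).1).pos
        rw [Real.exp_log (by exact_mod_cast this)]
      rw [e1, Real.rpow_def_of_pos hHpos, ← Real.exp_add]
      apply Real.exp_le_exp.2
      linarith [mul_comm lam (Real.log H)]
    have hpow : (H : ℝ) ^ lam ≤ (((f q).1 + (f q).2 : ℕ) : ℝ) ^ lam :=
      Real.rpow_le_rpow hHpos.le (by exact_mod_cast h4) h0
    have hA' : ((∏ p ∈ N.primeFactors ∩ S, p : ℕ) : ℝ) ≤ ((∏ p ∈ S, max p 1 : ℕ) : ℝ) := by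
      exact_mod_cast hA
    rw [hsplit, Nat.cast_mul, mul_assoc]
    apply mul_le_mul hA' _ (Nat.cast_nonneg _) (Nat.cast_nonneg _)
    exact hBd.trans (mul_le_mul_of_nonneg_left hpow (Real.exp_pos C).le)

theorem rat_count (θ lam : ℝ) (hθ : 0 ≤ θ) (h0 : 0 ≤ lam) (h : AbcBound θ lam)
    (S : Finset ℕ) (C δ : ℝ) (hδ : 0 < δ) :
    ∃ C' : ℝ, ∀ B : ℝ, 1 ≤ B → ∀ T : Finset ℚ,
      (∀ q ∈ T, q ≠ 0 ∧ q ≠ 1 ∧ ((max q.num.natAbs q.den : ℕ) : ℝ) ≤ B ∧
        ∑ p ∈ (q.num * q.den * (q.num - q.den)).natAbs.primeFactors \ S, Real.log p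
          ≤ lam * Real.log ((max q.num.natAbs q.den : ℕ) : ℝ) + C) →
      (T.card : ℝ) ≤ C' * B ^ (θ + δ) := by
  classical
  have _ := hθ
  obtain ⟨C₁, hC₁⟩ := h (((∏ p ∈ S, max p 1 : ℕ) : ℝ) * Real.exp C) δ hδ
  refine ⟨3 * C₁ * 2 ^ (θ + δ), fun B hB T hT => ?_⟩
  have key := rat_class θ lam h0 S C δ C₁ hC₁ B hB
  have hext : ∀ q r : ℚ, q.num = r.num → q.den = r.den → q = r := fun q r a b => Rat.ext a b
  have k1 := key (T.filter (fun q => q.num < 0)) (fun q => (q.num.natAbs, q.den))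
    (by
      intro q hq r hr e
      have hq' := (mem_filter.1 (mem_coe.1 hq)).2
      have hr' := (mem_filter.1 (mem_coe.1 hr)).2
      simp only [Prod.mk.injEq] at e
      exact hext q r (by omega) e.2)
    (by
      intro q hq
      have hq' := (mem_filter.1 hq).2
      have hd := q.pos
      refine ⟨by simp only; omega, hd, q.reduced, by simp only; omega, by simp only; omega, ?_⟩
      simp only [Int.natAbs_mul, Int.natAbs_natCast]
      congr 1
      omega)
    (fun q hq => (hT q (mem_filter.1 hq).1).2.2)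
  have k2 := key (T.filter (fun q => 0 ≤ q.num ∧ q.num < q.den))
    (fun q => (q.num.natAbs, q.den - q.num.natAbs))
    (by
      intro q hq r hr e
      have hq' := (mem_filter.1 (mem_coe.1 hq)).2
      have hr' := (mem_filter.1 (mem_coe.1 hr)).2
      simp only [Prod.mk.injEq] at e
      exact hext q r (by omega) (by omega))
    (by
      intro q hq
      have hq' := (mem_filter.1 hq).2
      have hn : q.num ≠ 0 := Rat.num_ne_zero.2 (hT q (mem_filter.1 hq).1).1
      have hle : q.num.natAbs ≤ q.den := by omega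
      refine ⟨by simp only; omega, by simp only; omega, ?_, by simp only; omega,
        by simp only; omega, ?_⟩
      · exact (Nat.coprime_sub_self_right hle).2 q.reduced
      · simp only [Int.natAbs_mul, Int.natAbs_natCast]
        rw [Nat.add_sub_cancel' hle, mul_right_comm]
        congr 1
        omega)
    (fun q hq => (hT q (mem_filter.1 hq).1).2.2)
  have k3 := key (T.filter (fun q => (q.den : ℤ) ≤ q.num))
    (fun q => (q.den, q.num.natAbs - q.den))
    (by
      intro q hq r hr e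
      have hq' := (mem_filter.1 (mem_coe.1 hq)).2
      have hr' := (mem_filter.1 (mem_coe.1 hr)).2
      simp only [Prod.mk.injEq] at e
      exact hext q r (by omega) e.1)
    (by
      intro q hq
      have hq' := (mem_filter.1 hq).2
      have hd := q.pos
      have hne : q.num ≠ q.den := by
        intro e
        apply (hT q (mem_filter.1 hq).1).2.1
        have hc := q.reduced
        have h1 : q.num.natAbs = q.den := by omega
        rw [h1, Nat.coprime_self] at hc
        exact hext q 1 (by rw [e, hc]; rfl) (by rw [hc]; rfl)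
      have hle : q.den ≤ q.num.natAbs := by omega
      refine ⟨hd, by simp only; omega, ?_, by simp only; omega, by simp only; omega, ?_⟩
      · exact (Nat.coprime_sub_self_right hle).2 q.reduced.symm
      · simp only [Int.natAbs_mul, Int.natAbs_natCast]
        rw [Nat.add_sub_cancel' hle]
        have : (q.num - q.den).natAbs = q.num.natAbs - q.den := by omega
        rw [this]
        ring)
    (fun q hq => (hT q (mem_filter.1 hq).1).2.2)
  have hsub : T ⊆ (T.filter (fun q => q.num < 0) ∪ T.filter (fun q => 0 ≤ q.num ∧ q.num < q.den))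
      ∪ T.filter (fun q => (q.den : ℤ) ≤ q.num) := by
    intro q hq
    simp only [mem_union, mem_filter, hq, true_and]
    omega
  have hc : T.card ≤ (T.filter (fun q => q.num < 0)).card
      + (T.filter (fun q => 0 ≤ q.num ∧ q.num < q.den)).card
      + (T.filter (fun q => (q.den : ℤ) ≤ q.num)).card :=
    (card_le_card hsub).trans ((card_union_le _ _).trans
      (Nat.add_le_add_right (card_union_le _ _) _))
  have hc' : (T.card : ℝ) ≤ ((T.filter (fun q => q.num < 0)).card : ℝ)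
      + ((T.filter (fun q => 0 ≤ q.num ∧ q.num < q.den)).card : ℝ)
      + ((T.filter (fun q => (q.den : ℤ) ≤ q.num)).card : ℝ) := by exact_mod_cast hc
  rw [Real.mul_rpow (by norm_num) (by linarith)] at k1 k2 k3
  linarith

end Pool.Agent.P.MP_9ec3f0_nt.Exc
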